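import Pool.Agent.CDI.GoodThree

/-!
# Amalgamation of two maximal domains along `r` (blueprint section 2, Amalgam)
-/

namespace Pool.Agent.CDI

open LOrd

variable {X : Type*}

/-- extension of an order on a subset -/
theorem amal_ext (r : LOrd X) (A : Set X) (t : LOrd A) : ∃ σ : LOrd X, σ.restr A = t := by
  classical
  let L : X → X → Prop := fun x y =>
    if hx : x ∈ A then (if hy : y ∈ A then t.lt ⟨x, hx⟩ ⟨y, hy⟩ else True)
    else (if y ∈ A then False else r.lt x y)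
  have hirr : ∀ a, ¬ L a a := by
    intro a
    by_cases ha : a ∈ A
    · simp [L, ha, t.irrefl]
    · simp [L, ha, r.irrefl]
  have htot : ∀ a b, a ≠ b → L a b ∨ L b a := by
    intro a b hab
    by_cases ha : a ∈ A <;> by_cases hb : b ∈ A <;> simp only [L, ha, hb, dite_true, dite_false,
      if_true, if_false, or_true, true_or, dif_pos, dif_neg, not_false_eq_true]
    · exact t.total _ _ (fun h => hab (congrArg Subtype.val h))
    · exact r.total a b hab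
  have htr : ∀ a b c, L a b → L b c → L a c := by
    intro a b c
    by_cases ha : a ∈ A <;> by_cases hb : b ∈ A <;> by_cases hc : c ∈ A <;>
      simp only [L, ha, hb, hc, dite_true, dite_false, if_true, if_false, dif_pos, dif_neg,
        not_false_eq_true, true_imp_iff, imp_true_iff, false_imp_iff]
    · exact t.trans _ _ _
    · exact r.trans _ _ _
  refine ⟨⟨L, hirr, htr, htot⟩, ?_⟩
  ext x y
  simp [L]

/-- restrictions of Condorcet domains are Condorcet domains -/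
theorem amal_isCD_restr {S : Set (LOrd X)} (hS : IsCD S) (A : Set X) :
    IsCD (LOrd.restr A '' S) := by
  rintro _ ⟨u, hu, rfl⟩ _ ⟨v, hv, rfl⟩ _ ⟨w, hw, rfl⟩ a b c h
  exact hS u hu v hv w hw a b c h

/-- the orders of the amalgam -/
def AmalC (r : LOrd X) (P : Set X) (y a : X) (C₁ : Set (LOrd ↥(Pᶜ)))
    (C₂ : Set (LOrd ↥(insert y P))) (u : LOrd X) : Prop :=
  ((u.restr Pᶜ ∈ C₁) ∧ (∀ b ∈ P, ∀ b' ∈ P, (u.lt b b' ↔ r.lt b b')) ∧
    (∀ b ∈ P, ∀ x, x ∉ P → u.lt b x)) ∨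
  (∃ U : Set X, (∀ x ∈ U, x ∉ P) ∧ y ∉ U ∧
    (∀ x ∈ U, ∀ x', x' ∉ P → r.lt x' x → x' ∈ U) ∧
    (∀ x, x ∉ P → ∀ x', x' ∉ P → (u.lt x x' ↔ r.lt x x')) ∧
    (∀ b ∈ P, ∀ b' ∈ P, (u.lt b b' ↔ r.lt b b')) ∧
    (∀ x, x ∉ P → ∀ b ∈ P, (u.lt x b ↔ x ∈ U))) ∨
  (∃ B : Set X, B ⊆ P ∧ (∀ b ∈ B, ∀ b' ∈ P, r.lt b' b → b' ∈ B) ∧
    (∀ x, x ∉ P → ∀ x', x' ∉ P → (u.lt x x' ↔ r.lt x x')) ∧
    (∀ b ∈ P, ∀ b' ∈ P, (u.lt b b' ↔ r.lt b b')) ∧
    (∀ x, x ∉ P → ∀ b ∈ P, (u.lt x b ↔ (x = a ∧ b ∉ B)))) ∨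
  ((∀ x, x ∉ P → ∀ x', x' ∉ P → (u.lt x x' ↔ r.lt x x')) ∧ u.restr (insert y P) ∈ C₂ ∧
    (∀ x, x ∉ P → x ≠ y → ∀ b ∈ P, u.lt x b))

section

variable {r : LOrd X} {P : Set X} {y a : X} {C₁ : Set (LOrd ↥(Pᶜ))}
  {C₂ : Set (LOrd ↥(insert y P))} {u : LOrd X}

/-- for `x ∉ P + y` and `b` above `b'` in `r`, both in `P`, the element `b'` is never on top -/
theorem AmalC.top₁ (h : AmalC r P y a C₁ C₂ u) {x b b' : X} (hx : x ∉ P) (hxy : x ≠ y)
    (hb : b ∈ P) (hb' : b' ∈ P) (hr : r.lt b b') (h1 : u.lt b' b) (h2 : u.lt b' x) : False := by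
  rcases h with ⟨-, g1, -⟩ | ⟨U, -, -, -, -, g1, -⟩ | ⟨B, -, -, -, g1, -⟩ | ⟨-, -, g1⟩
  · exact r.asymm hr ((g1 b' hb' b hb).1 h1)
  · exact r.asymm hr ((g1 b' hb' b hb).1 h1)
  · exact r.asymm hr ((g1 b' hb' b hb).1 h1)
  · exact u.asymm h2 (g1 x hx hxy b' hb')

/-- for `x` above `x'` in `r`, both outside `P`, and `b ∈ P`, the element `x'` is never on top -/
theorem AmalC.top₂ (hylast : ∀ x, x ≠ y → r.lt x y)
    (hafirst : ∀ x, x ∉ P → x ≠ a → r.lt a x)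
    (h : AmalC r P y a C₁ C₂ u) {x x' b : X} (hx : x ∉ P) (hx' : x' ∉ P)
    (hb : b ∈ P) (hr : r.lt x x') (h1 : u.lt x' x) (h2 : u.lt x' b) : False := by
  rcases h with ⟨-, -, g1⟩ | ⟨U, -, -, -, g1, -, -⟩ | ⟨B, -, -, g1, -, -⟩ | ⟨g1, -, -⟩
  · exact u.asymm h2 (g1 b hb x' hx')
  · exact r.asymm hr ((g1 x' hx' x hx).1 h1)
  · exact r.asymm hr ((g1 x' hx' x hx).1 h1)
  · exact r.asymm hr ((g1 x' hx' x hx).1 h1)

end

/-- **Amalgam.**  The set `C'` of the blueprint (`P ++ t` for `t ∈ C₁`; the F2b and F3 orders of `r`;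
`[Pᶜ \ y in r-order] ++ s` for `s ∈ C₂`) is a Condorcet domain; any maximal `E ⊇ C'` works (its
restrictions are Condorcet domains containing the maximal domains `C₁`, `C₂`). Suggested: define `C'`
as the set of `u : LOrd X` satisfying the respective `iff`-descriptions (existence by `exists_glue`);
to prove that `C'` is a CD, first reduce a Latin triple `u v w a b c` to the cases 'all of `a b c`
outside `P`' (contradiction in `C₁`), 'all in `insert y P`' (contradiction in `C₂`), and the two mixed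
kinds `{x, b, b'}`, `{x, x', b}`, where the list of patterns in the blueprint is exhausted. -/
theorem exists_amalgam [Finite X] (r : LOrd X) (P : Set X) (y a : X)
    (htop : ∀ b ∈ P, ∀ x, x ∉ P → r.lt b x) (hy : y ∉ P) (ha : a ∉ P)
    (hylast : ∀ x, x ≠ y → r.lt x y) (hafirst : ∀ x, x ∉ P → x ≠ a → r.lt a x) (hay : a ≠ y)
    (C₁ : Set (LOrd ↥(Pᶜ))) (C₂ : Set (LOrd ↥(insert y P)))
    (h₁ : MaxCD C₁) (h₂ : MaxCD C₂) (hr₁ : r.restr Pᶜ ∈ C₁) (hr₂ : r.restr (insert y P) ∈ C₂) :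
    ∃ E : Set (LOrd X), MaxCD E ∧ Good P.ncard E r P y a ∧
      LOrd.restr Pᶜ '' E = C₁ ∧ LOrd.restr (insert y P) '' E = C₂ := by
  classical
  -- restrictions
  have hout : ∀ u : LOrd X, AmalC r P y a C₁ C₂ u → u.restr Pᶜ ∈ C₁ := by
    intro u hu
    have key : (∀ x, x ∉ P → ∀ x', x' ∉ P → (u.lt x x' ↔ r.lt x x')) → u.restr Pᶜ ∈ C₁ := by
      intro h
      have : u.restr Pᶜ = r.restr Pᶜ := by
        ext x x'
        exact h x x.2 x' x'.2
      rw [this]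
      exact hr₁
    rcases hu with ⟨g, -, -⟩ | ⟨U, -, -, -, g, -, -⟩ | ⟨B, -, -, g, -, -⟩ | ⟨g, -, -⟩
    · exact g
    · exact key g
    · exact key g
    · exact key g
  have hin : ∀ u : LOrd X, AmalC r P y a C₁ C₂ u → u.restr (insert y P) ∈ C₂ := by
    intro u hu
    have key : (∀ b ∈ P, ∀ b' ∈ P, (u.lt b b' ↔ r.lt b b')) → (∀ b ∈ P, u.lt b y) →
        u.restr (insert y P) ∈ C₂ := by
      intro h h'
      have : u.restr (insert y P) = r.restr (insert y P) := by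
        apply ext_imp
        rintro ⟨x, hx⟩ ⟨x', hx'⟩ hlt
        rw [restr_lt] at hlt ⊢
        rcases hx with rfl | hx
        · rcases hx' with rfl | hx'
          · exact absurd hlt (u.irrefl _)
          · exact absurd (h' x' hx') (u.asymm hlt)
        · rcases hx' with rfl | hx'
          · exact htop x hx _ hy
          · exact (h x hx x' hx').1 hlt
      rw [this]
      exact hr₂
    rcases hu with ⟨-, g, g'⟩ | ⟨U, g0, g1, -, -, g, g'⟩ | ⟨B, -, -, -, g, g'⟩ | ⟨-, g, -⟩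
    · exact key g (fun b hb => g' b hb y hy)
    · refine key g (fun b hb => ?_)
      have hne : y ≠ b := fun e => hy (by rw [e]; exact hb)
      rw [← u.not_lt hne, g' y hy b hb]
      exact g1
    · refine key g (fun b hb => ?_)
      have hne : y ≠ b := fun e => hy (by rw [e]; exact hb)
      rw [← u.not_lt hne, g' y hy b hb]
      exact fun e => hay e.1.symm
    · exact g
  have hCD : IsCD {u | AmalC r P y a C₁ C₂ u} := by
    intro u hu v hv w hw α β γ hL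
    obtain ⟨⟨u1, u2⟩, ⟨v1, v2⟩, ⟨w1, w2⟩⟩ := hL
    have hab : α ≠ β := u.ne u1
    have hbc : β ≠ γ := u.ne u2
    have hca : γ ≠ α := v.ne v2
    have u3 := u.tr u1 u2
    have v3 := v.tr v1 v2
    have w3 := w.tr w1 w2
    -- the two mixed kinds
    have M1 : ∀ x b b' : X, x ∉ P → x ≠ y → b ∈ P → b' ∈ P → b ≠ b' →
        (∃ s, AmalC r P y a C₁ C₂ s ∧ s.lt b b' ∧ s.lt b x) →
        (∃ s, AmalC r P y a C₁ C₂ s ∧ s.lt b' b ∧ s.lt b' x) → False := by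
      rintro x b b' hx hxy hb hb' hne ⟨s, hs, s1, s2⟩ ⟨s', hs', s3, s4⟩
      rcases r.total b b' hne with h | h
      · exact hs'.top₁ hx hxy hb hb' h s3 s4
      · exact hs.top₁ hx hxy hb' hb h s1 s2
    have M2 : ∀ x x' b : X, x ∉ P → x' ∉ P → b ∈ P → x ≠ x' →
        (∃ s, AmalC r P y a C₁ C₂ s ∧ s.lt x x' ∧ s.lt x b) →
        (∃ s, AmalC r P y a C₁ C₂ s ∧ s.lt x' x ∧ s.lt x' b) → False := by
      rintro x x' b hx hx' hb hne ⟨s, hs, s1, s2⟩ ⟨s', hs', s3, s4⟩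
      rcases r.total x x' hne with h | h
      · exact hs'.top₂ hylast hafirst hx hx' hb h s3 s4
      · exact hs.top₂ hylast hafirst hx' hx hb h s1 s2
    have M0 : α ∈ insert y P → β ∈ insert y P → γ ∈ insert y P → False := fun p1 p2 p3 =>
      h₂.1 _ (hin u hu) _ (hin v hv) _ (hin w hw) ⟨α, p1⟩ ⟨β, p2⟩ ⟨γ, p3⟩
        ⟨⟨u1, u2⟩, ⟨v1, v2⟩, ⟨w1, w2⟩⟩
    by_cases ha' : α ∈ P <;> by_cases hb' : β ∈ P <;> by_cases hc' : γ ∈ P
    · exact M0 (Or.inr ha') (Or.inr hb') (Or.inr hc')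
    · by_cases hcy : γ = y
      · exact M0 (Or.inr ha') (Or.inr hb') (Or.inl hcy)
      · exact M1 γ α β hc' hcy ha' hb' hab ⟨u, hu, u1, u3⟩ ⟨v, hv, v3, v1⟩
    · by_cases hcy : β = y
      · exact M0 (Or.inr ha') (Or.inl hcy) (Or.inr hc')
      · exact M1 β α γ hb' hcy ha' hc' hca.symm ⟨u, hu, u3, u1⟩ ⟨w, hw, w1, w3⟩
    · exact M2 β γ α hb' hc' ha' hbc ⟨v, hv, v1, v3⟩ ⟨w, hw, w3, w1⟩
    · by_cases hcy : α = y
      · exact M0 (Or.inl hcy) (Or.inr hb') (Or.inr hc')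
      · exact M1 α β γ ha' hcy hb' hc' hbc ⟨v, hv, v1, v3⟩ ⟨w, hw, w3, w1⟩
    · exact M2 α γ β ha' hc' hb' hca.symm ⟨u, hu, u3, u1⟩ ⟨w, hw, w1, w3⟩
    · exact M2 α β γ ha' hb' hc' hab ⟨u, hu, u1, u3⟩ ⟨v, hv, v3, v1⟩
    · exact h₁.1 _ (hout u hu) _ (hout v hv) _ (hout w hw) ⟨α, ha'⟩ ⟨β, hb'⟩ ⟨γ, hc'⟩
        ⟨⟨u1, u2⟩, ⟨v1, v2⟩, ⟨w1, w2⟩⟩
  obtain ⟨E, hE, hCE⟩ := hCD.exists_max
  -- the restrictions of `E`
  have hE1 : LOrd.restr Pᶜ '' E = C₁ := by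
    refine h₁.eq_of_subset (amal_isCD_restr hE.1 _) (fun t ht => ?_)
    obtain ⟨σ, hσ⟩ := amal_ext r Pᶜ t
    obtain ⟨u, g1, g2, g3, g4⟩ := exists_glue σ r P (fun _ _ => False)
      (fun _ _ _ _ _ _ _ h => h) (fun _ _ _ _ _ _ _ h => h)
    have hut : u.restr Pᶜ = t := by
      rw [← hσ]
      ext x x'
      exact g1 x x.2 x' x'.2
    refine ⟨u, hCE (Or.inl ⟨by rw [hut]; exact ht, g2, fun b hb x hx => ?_⟩), hut⟩
    exact (g4 x hx b hb).2 not_false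
  have hE2 : LOrd.restr (insert y P) '' E = C₂ := by
    refine h₂.eq_of_subset (amal_isCD_restr hE.1 _) (fun s hs => ?_)
    obtain ⟨σ, hσ⟩ := amal_ext r (insert y P) s
    obtain ⟨u, g1, g2, g3, g4⟩ := exists_glue r σ P (fun x b => x ≠ y ∨ σ.lt y b)
      (fun x hx x' hx' b hb hlt hR => by
        left
        rintro rfl
        exact r.asymm hlt (hylast x (r.ne hlt).symm))
      (fun x hx b hb b' hb' hlt hR => by
        rcases hR with hR | hR
        · exact Or.inl hR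
        · exact Or.inr (σ.tr hR hlt))
    have hus : u.restr (insert y P) = s := by
      rw [← hσ]
      ext ⟨x, hx⟩ ⟨x', hx'⟩
      rw [restr_lt, restr_lt]
      change u.lt x x' ↔ σ.lt x x'
      rcases hx with rfl | hx
      · rcases hx' with rfl | hx'
        · simp [u.irrefl, σ.irrefl]
        · rw [g3 x hy x' hx']
          simp
      · rcases hx' with rfl | hx'
        · have hne : x' ≠ x := fun e => hy (by rw [e]; exact hx)
          rw [g4 x' hy x hx, ← σ.not_lt hne]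
          simp
        · exact g2 x hx x' hx'
    exact ⟨u, hCE (Or.inr (Or.inr (Or.inr ⟨g1, by rw [hus]; exact hs,
      fun x hx hxy b hb => (g3 x hx b hb).2 (Or.inl hxy)⟩))), hus⟩
  refine ⟨E, hE, ?_, hE1, hE2⟩
  refine ⟨hCE (Or.inl ⟨hr₁, fun _ _ _ _ => Iff.rfl, htop⟩), rfl, htop, hy, ha, hylast, hafirst, hay,
    ?_, ?_, ?_, ?_⟩
  · intro σ hσ u g1 g2 g3
    refine hCE (Or.inl ⟨?_, g2, g3⟩)
    have : u.restr Pᶜ = σ.restr Pᶜ := by
      ext x x'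
      exact g1 x x.2 x' x'.2
    rw [this, ← hE1]
    exact ⟨σ, hσ, rfl⟩
  · intro U hU hyU hUi u g1 g2 g3
    exact hCE (Or.inr (Or.inl ⟨U, hU, hyU, hUi, g1, g2, g3⟩))
  · intro B hB hBi u g1 g2 g3
    exact hCE (Or.inr (Or.inr (Or.inl ⟨B, hB, hBi, g1, g2, g3⟩)))
  · intro σ hσ u g1 g2 g3
    refine hCE (Or.inr (Or.inr (Or.inr ⟨g1, ?_, fun x hx hxy b hb => (g3 x hx b hb).2 (Or.inl hxy)⟩)))
    have : u.restr (insert y P) = σ.restr (insert y P) := by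
      ext ⟨x, hx⟩ ⟨x', hx'⟩
      rw [restr_lt, restr_lt]
      change u.lt x x' ↔ σ.lt x x'
      rcases hx with rfl | hx
      · rcases hx' with rfl | hx'
        · simp [u.irrefl, σ.irrefl]
        · rw [g3 x hy x' hx']
          simp
      · rcases hx' with rfl | hx'
        · have hne : x' ≠ x := fun e => hy (by rw [e]; exact hx)
          rw [← u.not_lt hne, g3 x' hy x hx, ← σ.not_lt hne]
          simp
        · exact g2 x hx x' hx'
    rw [this, ← hE2]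
    exact ⟨σ, hσ, rfl⟩

end Pool.Agent.CDI
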