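import Mathlib

/-!
# Numerical inequality (blueprint section 12)
-/

namespace Pool.Agent.CDI

namespace Asy

theorem pow_big (j : ℕ) (hj : 32 ≤ j) : 1000000 * (j + 1) ^ 2 ≤ 2 ^ j := by
  induction j, hj using Nat.le_induction with
  | base => norm_num
  | succ j hj ih =>
    rw [pow_succ 2 j]
    nlinarith

/-- For `m ≥ 2 ^ 64`, `250000 (log₂ m + 1)² ≤ √m`. -/
theorem log_sq_le (m : ℕ) (hm : 2 ^ 64 ≤ m) :
    250000 * (Nat.log 2 m + 1) ^ 2 ≤ Nat.sqrt m := by
  set k := Nat.log 2 m with hk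
  have hm0 : m ≠ 0 := by
    rintro rfl
    simp at hm
  have h1 : 2 ^ k ≤ m := Nat.pow_log_le_self 2 hm0
  have hk64 : 64 ≤ k := by
    rw [hk]
    exact Nat.le_log_of_pow_le (by norm_num) hm
  set j := k / 2 with hj
  have hj32 : 32 ≤ j := by omega
  have h2 := pow_big j hj32
  have h3 : k + 1 ≤ 2 * (j + 1) := by omega
  have h4 : 2 ^ j ≤ Nat.sqrt m := by
    rw [Nat.le_sqrt]
    calc 2 ^ j * 2 ^ j = 2 ^ (j + j) := by rw [pow_add]
      _ ≤ 2 ^ k := Nat.pow_le_pow_right (by norm_num) (by omega)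
      _ ≤ m := h1
  refine le_trans ?_ h4
  refine le_trans ?_ h2
  calc 250000 * (k + 1) ^ 2 ≤ 250000 * (2 * (j + 1)) ^ 2 := by gcongr
    _ = 1000000 * (j + 1) ^ 2 := by ring

/-- The exponent inequality. -/
theorem exp_le (m l s t : ℕ) (hs : s * s ≤ m) (hl : 1 ≤ l) (hls : 250000 * l ^ 2 ≤ s)
    (ht : t * t ≤ 3 * (m * s + m * l)) :
    1 + l * (8 * (m * s + m * l) + m * (t + 1) + m + 2) ≤ (m / 3) ^ 2 := by
  have hl2 : l ≤ l ^ 2 := by nlinarith
  have hsl : 250000 * l ≤ s := by omega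
  have hs1 : 250000 ≤ s := by nlinarith
  have hsm : s ≤ m := by nlinarith
  have hm0 : 250000 ≤ m := by omega
  -- `64 l t ≤ m`
  have h64 : 64 * l * t ≤ m := by
    have h1 : (64 * l * t) * (64 * l * t) ≤ m * m := by
      have h2 : (64 * l * t) * (64 * l * t) = 4096 * l ^ 2 * (t * t) := by ring
      rw [h2]
      calc 4096 * l ^ 2 * (t * t) ≤ 4096 * l ^ 2 * (3 * (m * s + m * l)) := by gcongr
        _ ≤ 4096 * l ^ 2 * (3 * (m * s + m * s)) := by
            gcongr
            omega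
        _ = (24576 * l ^ 2) * s * m := by ring
        _ ≤ s * s * m := by
            gcongr
            omega
        _ ≤ m * m := by gcongr
    exact Nat.mul_self_le_mul_self_iff.mp h1
  have hX : 16 * (1 + l * (8 * (m * s + m * l) + m * (t + 1) + m + 2)) ≤ m ^ 2 := by
    have e1 : 16 * (1 + l * (8 * (m * s + m * l) + m * (t + 1) + m + 2)) =
        16 + 128 * l * s * m + 128 * l * l * m + 16 * l * t * m + 32 * l * m + 32 * l := by
      ring
    rw [e1]
    have a1 : 1000 * (l * s) ≤ m := by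
      calc 1000 * (l * s) = (1000 * l) * s := by ring
        _ ≤ s * s := by
            gcongr
            omega
        _ ≤ m := hs
    have a2 : 1000 * (l * l) ≤ m := by
      calc 1000 * (l * l) = 1000 * l ^ 2 := by ring
        _ ≤ s := by omega
        _ ≤ m := hsm
    have a3 : 1000 * l ≤ m := by omega
    have a4 : 128 * l * s * m ≤ (m * m) / 4 := by
      rw [Nat.le_div_iff_mul_le (by norm_num)]
      calc 128 * l * s * m * 4 = (512 * (l * s)) * m := by ring
        _ ≤ m * m := by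
            gcongr
            omega
    have a5 : 128 * l * l * m ≤ (m * m) / 4 := by
      rw [Nat.le_div_iff_mul_le (by norm_num)]
      calc 128 * l * l * m * 4 = (512 * (l * l)) * m := by ring
        _ ≤ m * m := by
            gcongr
            omega
    have a6 : 16 * l * t * m ≤ (m * m) / 4 := by
      rw [Nat.le_div_iff_mul_le (by norm_num)]
      calc 16 * l * t * m * 4 = (64 * l * t) * m := by ring
        _ ≤ m * m := by gcongr
    have a7 : 32 * l * m + 32 * l + 16 ≤ (m * m) / 4 := by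
      rw [Nat.le_div_iff_mul_le (by norm_num)]
      have b1 : l ≤ l * m := Nat.le_mul_of_pos_right _ (by omega)
      calc (32 * l * m + 32 * l + 16) * 4 ≤ (32 * l * m + 32 * l * m + 16 * l * m) * 4 := by
            have b2 : 32 * l * m = 32 * (l * m) := by ring
            have b3 : 16 * l * m = 16 * (l * m) := by ring
            rw [b2, b3]
            omega
        _ = (320 * l) * m := by ring
        _ ≤ m * m := by
            gcongr
            omega
    have e2 : m ^ 2 = m * m := by ring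
    rw [e2]
    omega
  have hm3 : m ≤ 4 * (m / 3) := by omega
  have h16 : m ^ 2 ≤ 16 * (m / 3) ^ 2 := by
    calc m ^ 2 ≤ (4 * (m / 3)) ^ 2 := by gcongr
      _ = 16 * (m / 3) ^ 2 := by ring
  omega

end Asy

/-- For large `m` there are `L, R` with all the required inequalities, `x = m * √m`,
`J = x + L`.  (E.g. `L = m * (Nat.log 2 m + 1)`, `R = m * (Nat.sqrt (3 * J) + 1)`;
everything is `2 ^ O(m^{7/4} log m)`.) -/
theorem numeric : ∃ m₀ : ℕ, ∀ m ≥ m₀, ∃ L R : ℕ, m.factorial ≤ 2 ^ L ∧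
    3 * (m * Nat.sqrt m + L) * m ^ 2 ≤ R ^ 2 ∧
    2 * ((m * Nat.sqrt m + L + 1) ^ (m * Nat.sqrt m + L + 1) *
      (((m * Nat.sqrt m + L + 1) ^ 2 * (m + 1)) ^ (m * Nat.sqrt m + L) *
        m ^ (m * Nat.sqrt m + L + R))) * m.factorial ≤ 2 ^ ((m / 3) ^ 2) := by
  refine ⟨2 ^ 64, fun m hm => ?_⟩
  have hlog := Asy.log_sq_le m hm
  set s := Nat.sqrt m with hs
  set l := Nat.log 2 m + 1 with hl
  have hl1 : 1 ≤ l := by omega
  have hml : m < 2 ^ l := Nat.lt_pow_succ_log_self (by norm_num) m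
  have hml' : m ≤ 2 ^ l := hml.le
  have hss : s * s ≤ m := Nat.sqrt_le m
  set J := m * s + m * l with hJ
  set t := Nat.sqrt (3 * J) with ht
  have htt : t * t ≤ 3 * J := Nat.sqrt_le _
  have hfac : m.factorial ≤ 2 ^ (m * l) := by
    calc m.factorial ≤ m ^ m := Nat.factorial_le_pow m
      _ ≤ (2 ^ l) ^ m := by gcongr
      _ = 2 ^ (m * l) := by rw [← pow_mul, mul_comm]
  refine ⟨m * l, m * (t + 1), hfac, ?_, ?_⟩
  · have h1 : 3 * J < (t + 1) * (t + 1) := Nat.lt_succ_sqrt _
    calc 3 * J * m ^ 2 ≤ ((t + 1) * (t + 1)) * m ^ 2 := by gcongr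
      _ = (m * (t + 1)) ^ 2 := by ring
  · have hexp := Asy.exp_le m l s t hss hl1 hlog htt
    have hsl : l ≤ s := by nlinarith
    have hs2 : 2 ≤ s := by nlinarith
    have hslm : s + l ≤ m := by nlinarith
    have hJ1 : J + 1 ≤ 2 ^ (2 * l) := by
      calc J + 1 = m * (s + l) + 1 := by rw [hJ]; ring
        _ ≤ m * m + 1 := by gcongr
        _ ≤ (m + 1) * (m + 1) := by nlinarith
        _ ≤ 2 ^ l * 2 ^ l := Nat.mul_le_mul hml hml
        _ = 2 ^ (2 * l) := by rw [← pow_add, two_mul]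
    have hm1 : m + 1 ≤ 2 ^ l := hml
    calc 2 * ((J + 1) ^ (J + 1) * (((J + 1) ^ 2 * (m + 1)) ^ J * m ^ (J + m * (t + 1)))) *
          m.factorial
        ≤ 2 * ((2 ^ (2 * l)) ^ (J + 1) * (((2 ^ (2 * l)) ^ 2 * 2 ^ l) ^ J *
            (2 ^ l) ^ (J + m * (t + 1)))) * 2 ^ (m * l) := by gcongr
      _ = 2 ^ (1 + l * (8 * J + m * (t + 1) + m + 2)) := by
          simp only [← pow_mul, ← pow_add]
          rw [← pow_succ', ← pow_add]
          congr 1
          ring
      _ ≤ 2 ^ ((m / 3) ^ 2) := Nat.pow_le_pow_right (by norm_num) hexp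

end Pool.Agent.CDI
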