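import Mathlib

/-!
# Condorcet domains: basic definitions (MP_dda9b2_co)

`r.lt a b` = `a` is ranked above `b` in `r`.
-/

namespace Pool.Agent.CDI

open Function

/-- A linear order on `X` (strict form); `lt a b` means that `a` is ranked above `b`. -/
structure LOrd (X : Type*) where
  lt : X → X → Prop
  irrefl : ∀ a, ¬ lt a a
  trans : ∀ a b c, lt a b → lt b c → lt a c
  total : ∀ a b, a ≠ b → lt a b ∨ lt b a

/-- The rows `r`, `s`, `t` list `a, b, c` as `abc`, `bca`, `cab`: a Latin square. -/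
def Latin {X : Type*} (r s t : LOrd X) (a b c : X) : Prop :=
  (r.lt a b ∧ r.lt b c) ∧ (s.lt b c ∧ s.lt c a) ∧ (t.lt c a ∧ t.lt a b)

/-- Condorcet domain. -/
def IsCD {X : Type*} (S : Set (LOrd X)) : Prop :=
  ∀ r ∈ S, ∀ s ∈ S, ∀ t ∈ S, ∀ a b c, ¬ Latin r s t a b c

/-- Maximal Condorcet domain. -/
def MaxCD {X : Type*} (S : Set (LOrd X)) : Prop :=
  IsCD S ∧ ∀ T : Set (LOrd X), IsCD T → S ⊆ T → T ⊆ S

variable {X Y Z : Type*}

namespace LOrd

@[ext] theorem ext' {r s : LOrd X} (h : ∀ a b, r.lt a b ↔ s.lt a b) : r = s := by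
  cases r; cases s
  simp only [mk.injEq]
  funext a b
  exact propext (h a b)

theorem asymm (r : LOrd X) {a b : X} (h : r.lt a b) : ¬ r.lt b a :=
  fun h' => r.irrefl a (r.trans _ _ _ h h')

theorem ne (r : LOrd X) {a b : X} (h : r.lt a b) : a ≠ b := by
  rintro rfl; exact r.irrefl _ h

theorem not_lt (r : LOrd X) {a b : X} (hab : a ≠ b) : ¬ r.lt a b ↔ r.lt b a :=
  ⟨fun h => (r.total a b hab).resolve_left h, fun h h' => r.asymm h h'⟩

theorem tr (r : LOrd X) {a b c : X} (h : r.lt a b) (h' : r.lt b c) : r.lt a c :=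
  r.trans _ _ _ h h'

/-- One direction suffices for equality. -/
theorem ext_imp {r s : LOrd X} (h : ∀ a b, r.lt a b → s.lt a b) : r = s := by
  ext a b
  refine ⟨h a b, fun hs => ?_⟩
  by_contra hr
  exact s.asymm hs (h b a ((r.not_lt (s.ne hs)).1 hr))

/-- Pull back along an injective map. -/
def comap (f : X → Y) (hf : Injective f) (r : LOrd Y) : LOrd X where
  lt a b := r.lt (f a) (f b)
  irrefl a := r.irrefl _
  trans a b c := r.trans _ _ _
  total a b h := r.total _ _ (fun h' => h (hf h'))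

@[simp] theorem comap_lt (f : X → Y) (hf : Injective f) (r : LOrd Y) (a b : X) :
    (r.comap f hf).lt a b ↔ r.lt (f a) (f b) := Iff.rfl

/-- Relabel along a bijection. -/
def map (e : X ≃ Y) (r : LOrd X) : LOrd Y := r.comap e.symm e.symm.injective

@[simp] theorem map_lt (e : X ≃ Y) (r : LOrd X) (a b : Y) :
    (r.map e).lt a b ↔ r.lt (e.symm a) (e.symm b) := Iff.rfl

theorem map_lt' (e : X ≃ Y) (r : LOrd X) (a b : X) :
    (r.map e).lt (e a) (e b) ↔ r.lt a b := by simp

@[simp] theorem map_refl (r : LOrd X) : r.map (Equiv.refl X) = r := by ext; simp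

theorem map_map (e : X ≃ Y) (f : Y ≃ Z) (r : LOrd X) : (r.map e).map f = r.map (e.trans f) := by
  ext; simp

theorem map_symm_map (e : X ≃ Y) (r : LOrd X) : (r.map e).map e.symm = r := by ext; simp

theorem map_map_symm (e : X ≃ Y) (r : LOrd Y) : (r.map e.symm).map e = r := by ext; simp

theorem map_injective (e : X ≃ Y) : Injective (map e) := by
  intro r s h
  rw [← map_symm_map e r, ← map_symm_map e s, h]

/-- Restriction to a subset. -/
def restr (A : Set X) (r : LOrd X) : LOrd A := r.comap Subtype.val Subtype.val_injective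

@[simp] theorem restr_lt (A : Set X) (r : LOrd X) (a b : A) :
    (r.restr A).lt a b ↔ r.lt a b := Iff.rfl

/-- The identity order on `Fin n`: `0` on top. -/
def idOrd (n : ℕ) : LOrd (Fin n) where
  lt a b := a < b
  irrefl a := lt_irrefl a
  trans a b c := lt_trans
  total a b h := lt_or_gt_of_ne h

@[simp] theorem idOrd_lt (n : ℕ) (a b : Fin n) : (idOrd n).lt a b ↔ a < b := Iff.rfl

instance [Finite X] : Finite (LOrd X) := by
  apply Finite.of_injective (fun r : LOrd X => fun a b => r.lt a b)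
  intro r s h
  ext a b
  exact iff_of_eq (congrFun (congrFun h a) b)

/-- `B` is a block of consecutive elements in `r`. -/
def Conv (r : LOrd X) (B : Set X) : Prop :=
  ∀ x ∈ B, ∀ z ∈ B, ∀ y, r.lt x y → r.lt y z → y ∈ B

end LOrd

open LOrd

theorem Latin.rot {r s t : LOrd X} {a b c : X} (h : Latin r s t a b c) : Latin s t r b c a := by
  obtain ⟨h1, h2, h3⟩ := h
  exact ⟨h2, h3, h1⟩

theorem Latin.congr {r s t : LOrd X} {r' s' t' : LOrd Y} {a b c : X} {a' b' c' : Y}
    (h : Latin r s t a b c)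
    (hr : (r.lt a b → r'.lt a' b') ∧ (r.lt b c → r'.lt b' c'))
    (hs : (s.lt b c → s'.lt b' c') ∧ (s.lt c a → s'.lt c' a'))
    (ht : (t.lt c a → t'.lt c' a') ∧ (t.lt a b → t'.lt a' b')) : Latin r' s' t' a' b' c' :=
  ⟨⟨hr.1 h.1.1, hr.2 h.1.2⟩, ⟨hs.1 h.2.1.1, hs.2 h.2.1.2⟩, ⟨ht.1 h.2.2.1, ht.2 h.2.2.2⟩⟩

theorem IsCD.mono {S T : Set (LOrd X)} (hT : IsCD T) (h : S ⊆ T) : IsCD S :=
  fun r hr s hs t ht => hT r (h hr) s (h hs) t (h ht)

/-- No Latin triple repeats an order. -/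
theorem Latin.ne₁ {r s t : LOrd X} {a b c : X} (h : Latin r s t a b c) : r ≠ s := by
  rintro rfl
  obtain ⟨⟨h1, h2⟩, ⟨h3, h4⟩, -⟩ := h
  exact r.irrefl _ (r.tr (r.tr h1 h2) h4)

theorem Latin.ne₂ {r s t : LOrd X} {a b c : X} (h : Latin r s t a b c) : s ≠ t := h.rot.ne₁

theorem Latin.ne₃ {r s t : LOrd X} {a b c : X} (h : Latin r s t a b c) : t ≠ r := h.rot.rot.ne₁

/-- Adding one order to a Condorcet domain. -/
theorem IsCD.insert {S : Set (LOrd X)} (hS : IsCD S) {r : LOrd X}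
    (h : ∀ s ∈ S, ∀ t ∈ S, ∀ a b c, ¬ Latin r s t a b c) : IsCD (insert r S) := by
  intro u hu v hv w hw a b c hL
  rcases hu with rfl | hu
  · rcases hv with rfl | hv
    · exact hL.ne₁ rfl
    · rcases hw with rfl | hw
      · exact hL.ne₃ rfl
      · exact h v hv w hw a b c hL
  · rcases hv with rfl | hv
    · rcases hw with rfl | hw
      · exact hL.ne₂ rfl
      · exact h w hw u hu b c a hL.rot
    · rcases hw with rfl | hw
      · exact h u hu v hv c a b hL.rot.rot
      · exact hS u hu v hv w hw a b c hL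

/-- **Criterion**: an order forming no Latin triple with members of a maximal domain is a member. -/
theorem MaxCD.mem {S : Set (LOrd X)} (hS : MaxCD S) {r : LOrd X}
    (h : ∀ s ∈ S, ∀ t ∈ S, ∀ a b c, ¬ Latin r s t a b c) : r ∈ S :=
  hS.2 _ (hS.1.insert h) (Set.subset_insert _ _) (Set.mem_insert _ _)

/-- Contrapositive form of the criterion: a non-member is blocked. -/
theorem MaxCD.blocked {S : Set (LOrd X)} (hS : MaxCD S) {r : LOrd X} (hr : r ∉ S) :
    ∃ s ∈ S, ∃ t ∈ S, ∃ a b c, Latin r s t a b c := by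
  by_contra h
  push Not at h
  exact hr (hS.mem h)

theorem MaxCD.eq_of_subset {S T : Set (LOrd X)} (hS : MaxCD S) (hT : IsCD T) (h : S ⊆ T) :
    T = S := (hS.2 T hT h).antisymm h

/-- Every domain extends to a maximal one. -/
theorem IsCD.exists_max [Finite X] {S : Set (LOrd X)} (hS : IsCD S) : ∃ T, MaxCD T ∧ S ⊆ T := by
  have hfin : (Set.univ : Set (Set (LOrd X))).Finite := Set.toFinite _
  obtain ⟨T, ⟨hST, hT⟩, hmax⟩ := Set.Finite.exists_maximal
    (s := {T : Set (LOrd X) | S ⊆ T ∧ IsCD T}) (Set.toFinite _) ⟨S, subset_rfl, hS⟩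
  refine ⟨T, ⟨hT, fun T' hT' hTT' => ?_⟩, hST⟩
  exact hmax ⟨hST.trans hTT', hT'⟩ hTT'

theorem isCD_singleton (r : LOrd X) : IsCD {r} := by
  intro u hu v hv w _ a b c hL
  rw [Set.mem_singleton_iff] at hu hv
  exact hL.ne₁ (hu.trans hv.symm)

theorem MaxCD.nonempty [Nonempty (LOrd X)] {S : Set (LOrd X)} (hS : MaxCD S) : S.Nonempty := by
  by_contra h
  rw [Set.not_nonempty_iff_eq_empty] at h
  obtain ⟨r⟩ := ‹Nonempty (LOrd X)›
  subst h
  exact hS.2 {r} (isCD_singleton r) (Set.empty_subset _) rfl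

/-! ### Relabelling domains -/

theorem isCD_image {S : Set (LOrd X)} (e : X ≃ Y) (hS : IsCD S) : IsCD (LOrd.map e '' S) := by
  rintro _ ⟨r, hr, rfl⟩ _ ⟨s, hs, rfl⟩ _ ⟨t, ht, rfl⟩ a b c hL
  exact hS r hr s hs t ht _ _ _ hL

theorem image_map_map (e : X ≃ Y) (f : Y ≃ Z) (S : Set (LOrd X)) :
    LOrd.map f '' (LOrd.map e '' S) = LOrd.map (e.trans f) '' S := by
  rw [Set.image_image]
  simp only [LOrd.map_map]

theorem image_map_refl (S : Set (LOrd X)) : LOrd.map (Equiv.refl X) '' S = S := by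
  simp

theorem image_symm_image (e : X ≃ Y) (S : Set (LOrd X)) :
    LOrd.map e.symm '' (LOrd.map e '' S) = S := by
  rw [image_map_map]; simp

theorem image_image_symm (e : X ≃ Y) (S : Set (LOrd Y)) :
    LOrd.map e '' (LOrd.map e.symm '' S) = S := by
  rw [image_map_map]; simp

theorem mem_image_map_iff (e : X ≃ Y) (S : Set (LOrd X)) (r : LOrd Y) :
    r ∈ LOrd.map e '' S ↔ r.map e.symm ∈ S := by
  constructor
  · rintro ⟨s, hs, rfl⟩
    rwa [LOrd.map_symm_map]
  · intro h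
    exact ⟨_, h, LOrd.map_map_symm e r⟩

theorem maxCD_image {S : Set (LOrd X)} (e : X ≃ Y) (hS : MaxCD S) : MaxCD (LOrd.map e '' S) := by
  refine ⟨isCD_image e hS.1, fun T hT hST => ?_⟩
  have h1 : S ⊆ LOrd.map e.symm '' T := by
    intro r hr
    rw [mem_image_map_iff]
    exact hST ⟨r, hr, rfl⟩
  have h2 := hS.2 _ (isCD_image e.symm hT) h1
  intro r hr
  rw [mem_image_map_iff]
  exact h2 ⟨r, hr, rfl⟩

theorem maxCD_image_iff {S : Set (LOrd X)} (e : X ≃ Y) : MaxCD (LOrd.map e '' S) ↔ MaxCD S := by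
  refine ⟨fun h => ?_, maxCD_image e⟩
  have := maxCD_image e.symm h
  rwa [image_symm_image] at this

/-! ### Isomorphism classes and the counting functions -/

/-- The maximal Condorcet domains of degree `n`. -/
def DomM (n : ℕ) : Type := {S : Set (LOrd (Fin n)) // MaxCD S}

instance (n : ℕ) : Finite (DomM n) := by unfold DomM; infer_instance

/-- Isomorphism: renaming the alternatives. -/
instance isoSetoid (n : ℕ) : Setoid (DomM n) where
  r S T := ∃ π : Equiv.Perm (Fin n), T.1 = LOrd.map π '' S.1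
  iseqv := {
    refl := fun S => ⟨Equiv.refl _, (image_map_refl _).symm⟩
    symm := by
      rintro S T ⟨π, h⟩
      exact ⟨π.symm, by rw [h, image_symm_image]⟩
    trans := by
      rintro S T U ⟨π, h⟩ ⟨ρ, h'⟩
      exact ⟨π.trans ρ, by rw [h', h, image_map_map]⟩ }

theorem iso_iff {n : ℕ} (S T : DomM n) :
    (Quotient.mk (isoSetoid n) S = Quotient.mk (isoSetoid n) T) ↔
      ∃ π : Equiv.Perm (Fin n), T.1 = LOrd.map π '' S.1 :=
  Quotient.eq (r := isoSetoid n)

/-- Isomorphism classes of maximal Condorcet domains. -/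
abbrev Cls (n : ℕ) : Type := Quotient (isoSetoid n)

instance (n : ℕ) : Finite (Cls n) := Quotient.finite _

/-- `m_n`. -/
noncomputable def mm (n : ℕ) : ℕ := Nat.card (Cls n)

/-- Reducible domains. -/
def Reducible {X : Type*} (S : Set (LOrd X)) : Prop :=
  ∃ B : Set X, B ≠ Set.univ ∧ 2 ≤ B.ncard ∧ ∀ r ∈ S, r.Conv B

/-- `r_n`. -/
noncomputable def rr (n : ℕ) : ℕ :=
  Nat.card {q : Cls n // ∃ S : DomM n, Quotient.mk (isoSetoid n) S = q ∧ Reducible S.1}

/-- Number of labelled maximal domains containing the identity order. -/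
noncomputable def LL (n : ℕ) : ℕ := Nat.card {S : DomM n // idOrd n ∈ S.1}

/-- Members of a class that contain the identity order (= number of orbits of the automorphism
group on a member). -/
noncomputable def Oo {n : ℕ} (q : Cls n) : ℕ :=
  Nat.card {S : DomM n // Quotient.mk (isoSetoid n) S = q ∧ idOrd n ∈ S.1}

/-! ### Betweenness, disagreement, edges -/

/-- `s` and `t` order `x`, `y` differently. -/
def Dis (s t : LOrd X) (x y : X) : Prop := (s.lt x y ∧ t.lt y x) ∨ (s.lt y x ∧ t.lt x y)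

/-- `w` agrees with `s` and `t` wherever they agree. -/
def Btw (s t w : LOrd X) : Prop := ∀ x y, s.lt x y → t.lt x y → w.lt x y

/-- `s`, `t` are adjacent members of `S`. -/
def Edge (S : Set (LOrd X)) (s t : LOrd X) : Prop :=
  s ∈ S ∧ t ∈ S ∧ s ≠ t ∧ ∀ w ∈ S, Btw s t w → w = s ∨ w = t

/-- The moved points. -/
def Vs (s t : LOrd X) : Set X := {x | ∃ y, Dis s t x y}

/-- The interval property of adjacent pairs (Lemma A). -/
def CP (s t : LOrd X) : Prop :=
  ∀ R : Set X, s.Conv R → t.Conv R → (∃ x ∈ R, ∃ y ∈ R, Dis s t x y) →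
    ∀ x y, Dis s t x y → x ∈ R ∧ y ∈ R

/-- `Dis s t` is a complete bipartite graph on `Vs s t`. -/
def Bip (s t : LOrd X) : Prop :=
  ∃ A : Set X, ∀ x ∈ Vs s t, ∀ y ∈ Vs s t, (Dis s t x y ↔ ((x ∈ A ∧ y ∉ A) ∨ (x ∉ A ∧ y ∈ A)))

/-- Same neighbourhood in the graph `Dis s t`. -/
def Twin (s t : LOrd X) (x y : X) : Prop := ∀ z, Dis s t x z ↔ Dis s t y z

/-- Number of neighbourhoods (twin classes) among the moved points. -/
noncomputable def rk (s t : LOrd X) : ℕ :=
  Set.ncard ((fun x => {z | Dis s t x z}) '' Vs s t)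

theorem Dis.symm {s t : LOrd X} {x y : X} (h : Dis s t x y) : Dis s t y x := by
  rcases h with h | h
  · exact Or.inr h
  · exact Or.inl h

theorem dis_symm_iff {s t : LOrd X} {x y : X} : Dis s t x y ↔ Dis s t y x := ⟨Dis.symm, Dis.symm⟩

theorem dis_comm {s t : LOrd X} {x y : X} : Dis s t x y ↔ Dis t s x y := by
  constructor <;> (rintro (⟨h1, h2⟩ | ⟨h1, h2⟩); exacts [Or.inr ⟨h2, h1⟩, Or.inl ⟨h2, h1⟩])

theorem Dis.ne {s t : LOrd X} {x y : X} (h : Dis s t x y) : x ≠ y := by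
  rcases h with h | h
  · exact s.ne h.1
  · exact (s.ne h.1).symm

theorem dis_irrefl {s t : LOrd X} {x : X} : ¬ Dis s t x x := fun h => h.ne rfl

/-- Disagreement on `x ≠ y` in terms of one direction. -/
theorem dis_iff {s t : LOrd X} {x y : X} (hxy : x ≠ y) : Dis s t x y ↔ ¬ (s.lt x y ↔ t.lt x y) := by
  have h1 := s.not_lt hxy
  have h2 := t.not_lt hxy
  unfold Dis
  tauto

theorem not_dis_iff {s t : LOrd X} {x y : X} : ¬ Dis s t x y ↔ (s.lt x y ↔ t.lt x y) := by
  by_cases hxy : x = y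
  · subst hxy
    simp [s.irrefl, t.irrefl, dis_irrefl]
  · rw [dis_iff hxy, not_not]

theorem exists_dis_of_ne {s t : LOrd X} (h : s ≠ t) : ∃ x y, Dis s t x y := by
  by_contra hc
  push Not at hc
  apply h
  ext x y
  exact not_dis_iff.1 (hc x y)

/-! ### Majority -/

/-- The majority relation. -/
def majRel (r s t : LOrd X) (x y : X) : Prop :=
  (r.lt x y ∧ s.lt x y) ∨ (r.lt x y ∧ t.lt x y) ∨ (s.lt x y ∧ t.lt x y)

/-! ### Gluing two orders -/

/-- Order with `σ` outside `P`, `ρ` inside `P` and cross relation `R x b` (`x ∉ P` above `b ∈ P`),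
`R` monotone. -/
theorem exists_glue (σ ρ : LOrd X) (P : Set X) (R : X → X → Prop)
    (h1 : ∀ x, x ∉ P → ∀ x', x' ∉ P → ∀ b, b ∈ P → σ.lt x' x → R x b → R x' b)
    (h2 : ∀ x, x ∉ P → ∀ b, b ∈ P → ∀ b', b' ∈ P → ρ.lt b b' → R x b → R x b') :
    ∃ u : LOrd X, (∀ x, x ∉ P → ∀ x', x' ∉ P → (u.lt x x' ↔ σ.lt x x')) ∧
      (∀ b, b ∈ P → ∀ b', b' ∈ P → (u.lt b b' ↔ ρ.lt b b')) ∧
      (∀ x, x ∉ P → ∀ b, b ∈ P → (u.lt x b ↔ R x b)) ∧
      (∀ x, x ∉ P → ∀ b, b ∈ P → (u.lt b x ↔ ¬ R x b)) := by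
  classical
  let L : X → X → Prop := fun x y =>
    if x ∈ P then (if y ∈ P then ρ.lt x y else ¬ R y x) else (if y ∈ P then R x y else σ.lt x y)
  have hirr : ∀ a, ¬ L a a := by
    intro a
    by_cases ha : a ∈ P
    · simp [L, ha, ρ.irrefl]
    · simp [L, ha, σ.irrefl]
  have htot : ∀ a b, a ≠ b → L a b ∨ L b a := by
    intro a b hab
    by_cases ha : a ∈ P <;> by_cases hb : b ∈ P <;> simp only [L, ha, hb, if_true, if_false]
    · exact ρ.total a b hab
    · exact (em (R b a)).symm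
    · exact em (R a b)
    · exact σ.total a b hab
  have htr : ∀ a b c, L a b → L b c → L a c := by
    intro a b c
    by_cases ha : a ∈ P <;> by_cases hb : b ∈ P <;> by_cases hc : c ∈ P <;>
      simp only [L, ha, hb, hc, if_true, if_false]
    · exact ρ.trans a b c
    · -- a b ∈ P, c ∉ P
      intro hab hbc hR
      exact hbc (h2 c hc a ha b hb hab hR)
    · -- a ∈ P, b ∉ P, c ∈ P : ¬ R b a, R b c ⊢ ρ a c
      intro hab hbc
      by_contra hac
      by_cases hne : a = c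
      · exact hab (hne ▸ hbc)
      · have : ρ.lt c a := (ρ.not_lt hne).1 hac
        exact hab (h2 b hb c hc a ha this hbc)
    · -- a ∈ P, b c ∉ P : ¬ R b a, σ b c ⊢ ¬ R c a
      intro hab hbc hR
      exact hab (h1 c hc b hb a ha hbc hR)
    · -- a ∉ P, b c ∈ P
      intro hab hbc
      exact h2 a ha b hb c hc hbc hab
    · -- a ∉ P, b ∈ P, c ∉ P : R a b, ¬ R c b ⊢ σ a c
      intro hab hbc
      by_contra hac
      by_cases hne : a = c
      · exact hbc (hne ▸ hab)
      · have : σ.lt c a := (σ.not_lt hne).1 hac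
        exact hbc (h1 a ha c hc b hb this hab)
    · -- a b ∉ P, c ∈ P : σ a b, R b c ⊢ R a c
      intro hab hbc
      exact h1 b hb a ha c hc hab hbc
    · exact σ.trans a b c
  refine ⟨⟨L, hirr, htr, htot⟩, ?_, ?_, ?_, ?_⟩
  · intro x hx x' hx'
    simp [L, hx, hx']
  · intro b hb b' hb'
    simp [L, hb, hb']
  · intro x hx b hb
    simp [L, hx, hb]
  · intro x hx b hb
    simp [L, hx, hb]

end Pool.Agent.CDI
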