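import Pool.Agent.CDI.Base

/-!
# Structure of reducible maximal domains (blueprint section 1)
-/

namespace Pool.Agent.CDI

open LOrd

variable {X : Type*}

theorem nonempty_lord (X : Type*) : Nonempty (LOrd X) := by
  refine ⟨⟨WellOrderingRel, fun a => ?_, fun a b c => ?_, fun a b h => ?_⟩⟩
  · exact irrefl_of WellOrderingRel a
  · exact trans_of WellOrderingRel
  · rcases trichotomous_of WellOrderingRel a b with h' | h' | h'
    · exact Or.inl h'
    · exact absurd h' h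
    · exact Or.inr h'

theorem isCD_restr {S : Set (LOrd X)} (hS : IsCD S) (A : Set X) :
    IsCD (LOrd.restr A '' S) := by
  rintro _ ⟨r, hr, rfl⟩ _ ⟨s, hs, rfl⟩ _ ⟨t, ht, rfl⟩ a b c hL
  exact hS r hr s hs t ht a b c hL

namespace Blk

open Classical in
/-- Contract the block `B` to `y`. -/
noncomputable def pr (B : Set X) (y : X) (x : X) : ↥(insert y Bᶜ : Set X) :=
  if hx : x ∈ B then ⟨y, Set.mem_insert _ _⟩ else ⟨x, Set.mem_insert_of_mem _ hx⟩

variable {B : Set X} {y : X}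

theorem pr_mem {x : X} (hx : x ∈ B) : pr B y x = ⟨y, Set.mem_insert _ _⟩ := by
  rw [pr, dif_pos hx]

theorem pr_not_mem {x : X} (hx : x ∉ B) : pr B y x = ⟨x, Set.mem_insert_of_mem _ hx⟩ := by
  rw [pr, dif_neg hx]

theorem pr_self (hy : y ∈ B) (a : ↥(insert y Bᶜ : Set X)) : pr B y a = a := by
  obtain ⟨a, ha⟩ := a
  rcases ha with rfl | ha
  · exact pr_mem hy
  · exact pr_not_mem ha

theorem pr_eq_iff (hy : y ∈ B) {x x' : X} :
    pr B y x = pr B y x' ↔ x = x' ∨ (x ∈ B ∧ x' ∈ B) := by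
  constructor
  · intro h
    by_cases hx : x ∈ B <;> by_cases hx' : x' ∈ B
    · exact Or.inr ⟨hx, hx'⟩
    · rw [pr_mem hx, pr_not_mem hx'] at h
      have e : y = x' := congrArg Subtype.val h
      exact absurd (e ▸ hy) hx'
    · rw [pr_not_mem hx, pr_mem hx'] at h
      have e : x = y := congrArg Subtype.val h
      exact absurd (e.symm ▸ hy) hx
    · rw [pr_not_mem hx, pr_not_mem hx'] at h
      exact Or.inl (congrArg Subtype.val h)
  · rintro (rfl | ⟨hx, hx'⟩)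
    · rfl
    · rw [pr_mem hx, pr_mem hx']

/-- Substitution of an order of `B` into an order of the quotient. -/
noncomputable def glue (hy : y ∈ B) (t : LOrd ↥(insert y Bᶜ : Set X)) (ρ : LOrd B) : LOrd X where
  lt x x' := t.lt (pr B y x) (pr B y x') ∨ ∃ (hx : x ∈ B) (hx' : x' ∈ B), ρ.lt ⟨x, hx⟩ ⟨x', hx'⟩
  irrefl x h := by
    rcases h with h | ⟨hx, hx', h⟩
    · exact t.irrefl _ h
    · exact ρ.irrefl _ h
  trans a b c h h' := by
    rcases h with h | ⟨ha, hb, h⟩ <;> rcases h' with h' | ⟨hb', hc, h'⟩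
    · exact Or.inl (t.tr h h')
    · rw [pr_mem hb', ← pr_mem (y := y) hc] at h
      exact Or.inl h
    · rw [pr_mem hb, ← pr_mem (y := y) ha] at h'
      exact Or.inl h'
    · exact Or.inr ⟨ha, hc, ρ.tr h h'⟩
  total a b hab := by
    by_cases h : pr B y a = pr B y b
    · rcases (pr_eq_iff hy).1 h with h | ⟨ha, hb⟩
      · exact absurd h hab
      · rcases ρ.total ⟨a, ha⟩ ⟨b, hb⟩ (fun h' => hab (congrArg Subtype.val h')) with h' | h'
        · exact Or.inl (Or.inr ⟨ha, hb, h'⟩)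
        · exact Or.inr (Or.inr ⟨hb, ha, h'⟩)
    · rcases t.total _ _ h with h' | h'
      · exact Or.inl (Or.inl h')
      · exact Or.inr (Or.inl h')

variable (hy : y ∈ B) (t : LOrd ↥(insert y Bᶜ : Set X)) (ρ : LOrd B)

theorem glue_restr_left : (glue hy t ρ).restr (insert y Bᶜ) = t := by
  refine (LOrd.ext_imp fun a b h => ?_).symm
  refine Or.inl ?_
  rw [pr_self hy, pr_self hy]
  exact h

theorem glue_restr_right : (glue hy t ρ).restr B = ρ := by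
  refine (LOrd.ext_imp fun a b h => ?_).symm
  exact Or.inr ⟨a.2, b.2, h⟩

theorem glue_conv : (glue hy t ρ).Conv B := by
  intro x hx z hz w hxw hwz
  by_contra hw
  have h1 : t.lt (pr B y x) (pr B y w) := by
    rcases hxw with h | ⟨_, h, _⟩
    · exact h
    · exact absurd h hw
  have h2 : t.lt (pr B y w) (pr B y z) := by
    rcases hwz with h | ⟨h, _⟩
    · exact h
    · exact absurd h hw
  rw [pr_mem hx] at h1
  rw [pr_mem hz] at h2
  exact t.asymm h1 h2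

end Blk

theorem LOrd.Conv.lt_pr {r : LOrd X} {B : Set X} (hr : r.Conv B) {y : X} (hy : y ∈ B) {a b : X}
    (h : r.lt a b) (hab : ¬ (a ∈ B ∧ b ∈ B)) :
    (r.restr (insert y Bᶜ)).lt (Blk.pr B y a) (Blk.pr B y b) := by
  by_cases ha : a ∈ B <;> by_cases hb : b ∈ B
  · exact absurd ⟨ha, hb⟩ hab
  · rw [Blk.pr_mem ha, Blk.pr_not_mem hb]
    change r.lt y b
    by_contra hc
    have hne : y ≠ b := fun e => hb (e ▸ hy)
    exact hb (hr a ha y hy b h ((r.not_lt hne).1 hc))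
  · rw [Blk.pr_not_mem ha, Blk.pr_mem hb]
    change r.lt a y
    by_contra hc
    have hne : a ≠ y := fun e => ha (e ▸ hy)
    exact ha (hr y hy b hb a ((r.not_lt hne).1 hc) h)
  · rw [Blk.pr_not_mem ha, Blk.pr_not_mem hb]
    exact h

/-- Substituting Condorcet domains gives a Condorcet domain. -/
theorem isCD_subst {B : Set X} {y : X} (hy : y ∈ B) {C1 : Set (LOrd ↥(insert y Bᶜ : Set X))}
    {C2 : Set (LOrd B)} (h1 : IsCD C1) (h2 : IsCD C2) :
    IsCD {r : LOrd X | r.Conv B ∧ r.restr (insert y Bᶜ) ∈ C1 ∧ r.restr B ∈ C2} := by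
  rintro r ⟨hr, hr1, hr2⟩ s ⟨hs, hs1, hs2⟩ t ⟨ht, ht1, ht2⟩ a b c hL
  have hab : a ∈ B → b ∈ B → c ∈ B := fun ha hb => hs b hb a ha c hL.2.1.1 hL.2.1.2
  have hbc : b ∈ B → c ∈ B → a ∈ B := fun hb hc => ht c hc b hb a hL.2.2.1 hL.2.2.2
  have hac : a ∈ B → c ∈ B → b ∈ B := fun ha hc => hr a ha c hc b hL.1.1 hL.1.2
  by_cases hall : a ∈ B ∧ b ∈ B ∧ c ∈ B
  · obtain ⟨ha, hb, hc⟩ := hall
    exact h2 _ hr2 _ hs2 _ ht2 ⟨a, ha⟩ ⟨b, hb⟩ ⟨c, hc⟩ hL
  · have h12 : ¬ (a ∈ B ∧ b ∈ B) := fun h => hall ⟨h.1, h.2, hab h.1 h.2⟩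
    have h23 : ¬ (b ∈ B ∧ c ∈ B) := fun h => hall ⟨hbc h.1 h.2, h.1, h.2⟩
    have h31 : ¬ (c ∈ B ∧ a ∈ B) := fun h => hall ⟨h.2, hac h.2 h.1, h.1⟩
    refine h1 _ hr1 _ hs1 _ ht1 (Blk.pr B y a) (Blk.pr B y b) (Blk.pr B y c) (hL.congr ?_ ?_ ?_)
    · exact ⟨fun h => hr.lt_pr hy h h12, fun h => hr.lt_pr hy h h23⟩
    · exact ⟨fun h => hs.lt_pr hy h h23, fun h => hs.lt_pr hy h h31⟩
    · exact ⟨fun h => ht.lt_pr hy h h31, fun h => ht.lt_pr hy h h12⟩

/-- Structure of a reducible maximal domain: with `B` a block of every `r ∈ S`, `y ∈ B`, both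
restrictions are maximal and `S` consists of all orders with block `B` and these restrictions. -/
theorem block_structure {S : Set (LOrd X)} (hS : MaxCD S) {B : Set X} (hB : ∀ r ∈ S, r.Conv B)
    {y : X} (hy : y ∈ B) :
    MaxCD (LOrd.restr (insert y Bᶜ) '' S) ∧ MaxCD (LOrd.restr B '' S) ∧
      ∀ r : LOrd X, r ∈ S ↔ (r.Conv B ∧ r.restr (insert y Bᶜ) ∈ LOrd.restr (insert y Bᶜ) '' S ∧
        r.restr B ∈ LOrd.restr B '' S) := by
  have key : ∀ {C1 : Set (LOrd ↥(insert y Bᶜ : Set X))} {C2 : Set (LOrd B)}, IsCD C1 → IsCD C2 →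
      LOrd.restr (insert y Bᶜ) '' S ⊆ C1 → LOrd.restr B '' S ⊆ C2 → ∀ r : LOrd X, r.Conv B →
      r.restr (insert y Bᶜ) ∈ C1 → r.restr B ∈ C2 → r ∈ S := by
    intro C1 C2 h1 h2 h1' h2' r hr hr1 hr2
    exact hS.2 _ (isCD_subst hy h1 h2) (fun s hs => ⟨hB s hs, h1' ⟨s, hs, rfl⟩,
      h2' ⟨s, hs, rfl⟩⟩) ⟨hr, hr1, hr2⟩
  have := nonempty_lord X
  obtain ⟨r0, hr0⟩ := hS.nonempty
  have c1 := isCD_restr hS.1 (insert y Bᶜ)
  have c2 := isCD_restr hS.1 B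
  refine ⟨⟨c1, fun T hT hST t ht => ?_⟩, ⟨c2, fun T hT hST ρ hρ => ?_⟩, fun r =>
    ⟨fun hr => ⟨hB r hr, ⟨r, hr, rfl⟩, ⟨r, hr, rfl⟩⟩, fun h => ?_⟩⟩
  · refine ⟨Blk.glue hy t (r0.restr B), ?_, Blk.glue_restr_left hy _ _⟩
    refine key hT c2 hST subset_rfl _ (Blk.glue_conv hy _ _) ?_ ?_
    · rw [Blk.glue_restr_left]
      exact ht
    · rw [Blk.glue_restr_right]
      exact ⟨r0, hr0, rfl⟩
  · refine ⟨Blk.glue hy (r0.restr _) ρ, ?_, Blk.glue_restr_right hy _ _⟩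
    refine key c1 hT subset_rfl hST _ (Blk.glue_conv hy _ _) ?_ ?_
    · rw [Blk.glue_restr_left]
      exact ⟨r0, hr0, rfl⟩
    · rw [Blk.glue_restr_right]
      exact hρ
  · exact key c1 c2 subset_rfl subset_rfl r h.1 h.2.1 h.2.2

end Pool.Agent.CDI
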