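import Pool.Agent.CDI.Base

/-!
# `LL` on an arbitrary finite type
-/

namespace Pool.Agent.CDI

open LOrd

/-- every linear order on a finite type is a relabelling of the identity order -/
theorem exists_map_eq_idOrd {A : Type*} [Finite A] (r : LOrd A) {n : ℕ} (hn : Nat.card A = n) :
    ∃ e : A ≃ Fin n, r.map e = idOrd n := by
  classical
  have : Fintype A := Fintype.ofFinite A
  let _ : LinearOrder A :=
    { le := fun a b => r.lt a b ∨ a = b
      lt := fun a b => r.lt a b
      le_refl := fun a => Or.inr rfl
      le_trans := by
        rintro a b c (h | rfl) (h' | rfl)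
        · exact Or.inl (r.tr h h')
        · exact Or.inl h
        · exact Or.inl h'
        · exact Or.inr rfl
      le_antisymm := by
        rintro a b (h | h) (h' | h')
        · exact absurd h' (r.asymm h)
        · exact h'.symm
        · exact h
        · exact h
      lt_iff_le_not_ge := by
        intro a b
        constructor
        · intro h
          refine ⟨Or.inl h, ?_⟩
          rintro (h' | h')
          · exact r.asymm h h'
          · exact r.ne h h'.symm
        · rintro ⟨h | h, h'⟩
          · exact h
          · exact absurd (Or.inr h.symm) h'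
      le_total := by
        intro a b
        by_cases h : a = b
        · exact Or.inl (Or.inr h)
        · rcases r.total a b h with h | h
          · exact Or.inl (Or.inl h)
          · exact Or.inr (Or.inl h)
      toDecidableLE := Classical.decRel _ }
  rw [Nat.card_eq_fintype_card] at hn
  let e : Fin n ≃o A := Fintype.orderIsoFinOfCardEq A hn
  refine ⟨e.symm.toEquiv, ?_⟩
  ext a b
  exact e.lt_iff_lt

/-- relabelling gives a bijection of the maximal domains containing a given order -/
def mapSub {A B : Type*} (e : A ≃ B) (r : LOrd A) :
    {S : Set (LOrd A) // MaxCD S ∧ r ∈ S} ≃ {S : Set (LOrd B) // MaxCD S ∧ r.map e ∈ S} where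
  toFun S := ⟨LOrd.map e '' S.1, maxCD_image e S.2.1, Set.mem_image_of_mem _ S.2.2⟩
  invFun S := ⟨LOrd.map e.symm '' S.1, maxCD_image e.symm S.2.1, by
    rw [mem_image_map_iff]
    exact S.2.2⟩
  left_inv S := Subtype.ext (image_symm_image e S.1)
  right_inv S := Subtype.ext (image_image_symm e S.1)

theorem LL_eq (n : ℕ) : LL n = Nat.card {S : Set (LOrd (Fin n)) // MaxCD S ∧ idOrd n ∈ S} := by
  refine Nat.card_congr ?_
  exact
    { toFun := fun S => ⟨S.1.1, S.1.2, S.2⟩
      invFun := fun S => ⟨⟨S.1, S.2.1⟩, S.2.2⟩
      left_inv := fun S => rfl
      right_inv := fun S => rfl }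

/-- `LL` computed on any finite type with any base order (any two linear orders on finite types of
the same size are related by a bijection). -/
theorem card_LL_eq {A : Type*} [Finite A] (r : LOrd A) :
    Nat.card {S : Set (LOrd A) // MaxCD S ∧ r ∈ S} = LL (Nat.card A) := by
  obtain ⟨e, he⟩ := exists_map_eq_idOrd r rfl
  rw [LL_eq, ← he]
  exact Nat.card_congr (mapSub e r)

end Pool.Agent.CDI
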