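import Pool.Agent.CDI.Twins

/-!
# Decoding an adjacent order (blueprint section 9)
-/

namespace Pool.Agent.CDI

open LOrd

variable {X : Type*}

/-- the first element of a nonempty set -/
theorem dec_exists_first [Finite X] (s : LOrd X) {A : Set X} (hA : A.Nonempty) :
    ∃ m ∈ A, ∀ y ∈ A, y = m ∨ s.lt m y := by
  have : IsTrans X s.lt := ⟨s.trans⟩
  have : Std.Irrefl s.lt := ⟨s.irrefl⟩
  have hwf : WellFounded s.lt := Finite.wellFounded_of_trans_of_irrefl s.lt
  obtain ⟨m, hm, hmin⟩ := hwf.has_min A hA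
  refine ⟨m, hm, fun y hy => ?_⟩
  by_cases h : y = m
  · exact Or.inl h
  · exact Or.inr ((s.not_lt h).1 (hmin y hy))

/-- the reversed order -/
def LOrd.decRev (s : LOrd X) : LOrd X where
  lt a b := s.lt b a
  irrefl a := s.irrefl a
  trans _ _ _ h h' := s.trans _ _ _ h' h
  total a b h := (s.total a b h).symm

/-- the last element of a nonempty set -/
theorem dec_exists_last [Finite X] (s : LOrd X) {A : Set X} (hA : A.Nonempty) :
    ∃ m ∈ A, ∀ y ∈ A, y = m ∨ s.lt y m := dec_exists_first s.decRev hA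

/-- Listing a finite set in increasing order. -/
theorem dec_exists_list (t : LOrd X) (R : Set X) [Finite X] {k : ℕ} (hk : R.ncard = k) :
    ∃ c : Fin k → X, Set.range c = R ∧ ∀ i j, i < j → t.lt (c i) (c j) := by
  classical
  let _ : LinearOrder X :=
    { le := fun a b => a = b ∨ t.lt a b
      lt := t.lt
      le_refl := fun a => Or.inl rfl
      le_trans := by
        rintro a b c (rfl | h) (rfl | h')
        · exact Or.inl rfl
        · exact Or.inr h'
        · exact Or.inr h
        · exact Or.inr (t.trans _ _ _ h h')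
      lt_iff_le_not_ge := by
        intro a b
        constructor
        · intro h
          refine ⟨Or.inr h, ?_⟩
          rintro (rfl | h')
          · exact t.irrefl _ h
          · exact t.asymm h h'
        · rintro ⟨rfl | h, h'⟩
          · exact absurd (Or.inl rfl) h'
          · exact h
      le_antisymm := by
        rintro a b (rfl | h) (h' | h')
        · rfl
        · rfl
        · exact h'.symm
        · exact absurd h' (t.asymm h)
      le_total := by
        intro a b
        by_cases h : a = b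
        · exact Or.inl (Or.inl h)
        · rcases t.total a b h with h' | h'
          · exact Or.inl (Or.inr h')
          · exact Or.inr (Or.inr h')
      toDecidableLE := Classical.decRel _ }
  have hfin : R.Finite := Set.toFinite R
  have hcard : hfin.toFinset.card = k := by
    rw [← hk, Set.ncard_eq_toFinset_card R hfin]
  refine ⟨fun i => hfin.toFinset.orderEmbOfFin hcard i, ?_, ?_⟩
  · rw [Finset.range_orderEmbOfFin, Set.Finite.coe_toFinset]
  · intro i j hij
    exact (hfin.toFinset.orderEmbOfFin hcard).strictMono hij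

/-- the code of an adjacent order -/
structure DecCode (s t : LOrd X) {k : ℕ} (c : Fin k → X) (v : X) : Prop where
  mem : ∀ i, c i ∈ Vs s t
  lt : ∀ i j, i < j → t.lt (c i) (c j)
  cover : ∀ x ∈ Vs s t, ∃ i, Twin s t (c i) x ∧ (x = c i ∨ s.lt (c i) x)
  inj : ∀ i j, Twin s t (c i) (c j) → i = j
  last : ∀ x ∈ Vs s t, v ∈ Vs s t ∧ (x = v ∨ s.lt x v)

theorem Twin.decTrans {s t : LOrd X} {x y z : X} (h : Twin s t x y) (h' : Twin s t y z) :
    Twin s t x z := fun w => (h w).trans (h' w)

theorem dec_exists_code [Finite X] [Nonempty X] {s t : LOrd X} {k : ℕ} (hk : rk s t = k) :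
    ∃ (c : Fin k → X) (v : X), DecCode s t c v := by
  classical
  set R : Set X := {x | x ∈ Vs s t ∧ ∀ y, Twin s t x y → y = x ∨ s.lt x y} with hR
  have hN : ∀ x y, ({z | Dis s t x z} = {z | Dis s t y z}) ↔ Twin s t x y := by
    intro x y
    rw [Set.ext_iff]
    exact Iff.rfl
  have hrep : ∀ x ∈ Vs s t, ∃ y ∈ R, Twin s t y x ∧ (x = y ∨ s.lt y x) := by
    intro x hx
    obtain ⟨m, hm, hmin⟩ := dec_exists_first s (A := {y | Twin s t x y}) ⟨x, fun _ => Iff.rfl⟩
    refine ⟨m, ⟨Twin.mem hm hx, fun y hy => hmin y (Twin.decTrans hm hy)⟩, Twin.symm' hm,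
      hmin x fun _ => Iff.rfl⟩
  have himg : (fun x => {z | Dis s t x z}) '' R = (fun x => {z | Dis s t x z}) '' Vs s t := by
    apply Set.Subset.antisymm
    · exact Set.image_mono fun x hx => hx.1
    · rintro _ ⟨x, hx, rfl⟩
      obtain ⟨y, hy, hT, -⟩ := hrep x hx
      exact ⟨y, hy, (hN y x).2 hT⟩
  have hinj : Set.InjOn (fun x => {z | Dis s t x z}) R := by
    intro x hx y hy hxy
    have hT := (hN x y).1 hxy
    rcases hx.2 y hT with h | h
    · exact h.symm
    · rcases hy.2 x (Twin.symm' hT) with h' | h'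
      · exact h'
      · exact absurd h' (s.asymm h)
  have hcard : R.ncard = k := by
    rw [← hk, rk, ← himg, hinj.ncard_image]
  obtain ⟨c, hc, hlt⟩ := dec_exists_list t R hcard
  have hcR : ∀ i, c i ∈ R := fun i => hc ▸ Set.mem_range_self i
  obtain ⟨v, hv⟩ : ∃ v, ∀ x ∈ Vs s t, v ∈ Vs s t ∧ (x = v ∨ s.lt x v) := by
    by_cases hV : (Vs s t).Nonempty
    · obtain ⟨v, hv, hmax⟩ := dec_exists_last s hV
      exact ⟨v, fun x hx => ⟨hv, hmax x hx⟩⟩
    · exact ⟨Classical.arbitrary X, fun x hx => absurd ⟨x, hx⟩ hV⟩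
  refine ⟨c, v, ⟨fun i => (hcR i).1, hlt, ?_, ?_, hv⟩⟩
  · intro x hx
    obtain ⟨y, hy, hT, hle⟩ := hrep x hx
    rw [← hc] at hy
    obtain ⟨i, rfl⟩ := hy
    exact ⟨i, hT, hle⟩
  · intro i j hT
    have h1 : c i = c j := hinj (hcR i) (hcR j) ((hN _ _).2 hT)
    rcases lt_trichotomy i j with h | h | h
    · exact absurd h1 (t.ne (hlt i j h))
    · exact h
    · exact absurd h1.symm (t.ne (hlt j i h))

theorem DecCode.mem_iff {s t : LOrd X} (h : CP s t) {k : ℕ} {c : Fin k → X} {v : X}
    (hc : DecCode s t c v) (x : X) :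
    x ∈ Vs s t ↔ ∃ i, (x = c i ∨ s.lt (c i) x) ∧ (x = v ∨ s.lt x v) := by
  constructor
  · intro hx
    obtain ⟨i, -, hi⟩ := hc.cover x hx
    exact ⟨i, hi, (hc.last x hx).2⟩
  · rintro ⟨i, hi | hi, hv⟩
    · rw [hi]; exact hc.mem i
    · obtain ⟨hvV, -⟩ := hc.last _ (hc.mem i)
      rcases hv with hv | hv
      · rw [hv]; exact hvV
      · exact h.conv_left _ (hc.mem i) _ hvV x hi hv

theorem DecCode.twin_iff {s t : LOrd X} (h : CP s t) {k : ℕ} {c : Fin k → X} {v : X}
    (hc : DecCode s t c v) {x : X} (hx : x ∈ Vs s t) (i : Fin k) :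
    Twin s t (c i) x ↔ (x = c i ∨ s.lt (c i) x) ∧
      ∀ j, (x = c j ∨ s.lt (c j) x) → (c i = c j ∨ s.lt (c j) (c i)) := by
  obtain ⟨i', hT, hle⟩ := hc.cover x hx
  constructor
  · intro hi
    have : i = i' := hc.inj _ _ (hi.decTrans hT.symm')
    subst this
    refine ⟨hle, fun j hj => ?_⟩
    by_contra hcon
    push Not at hcon
    have h1 : s.lt (c i) (c j) := (s.not_lt hcon.1.symm).1 hcon.2
    have h2 : Twin s t (c i) (c j) := by
      rcases hj with hj | hj
      · rw [← hj]; exact hi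
      · exact twin_between h (hc.mem i) hi h1 hj
    exact hcon.1 (by rw [hc.inj _ _ h2])
  · rintro ⟨h1, h2⟩
    rcases h2 i' hle with h3 | h3
    · rw [h3]; exact hT
    · rcases h1 with h1 | h1
      · rw [h1]; exact fun _ => Iff.rfl
      · have h4 := twin_between h (hc.mem i') hT h3 h1
        have h5 := hc.inj _ _ h4
        rw [h5] at hT
        exact hT

theorem DecCode.lt_iff {s t : LOrd X} (h : CP s t) {k : ℕ} {c : Fin k → X} {v : X}
    (hc : DecCode s t c v) {x y : X} {i j : Fin k}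
    (hi : Twin s t (c i) x) (hj : Twin s t (c j) y) :
    t.lt x y ↔ i < j ∨ (i = j ∧ s.lt x y) := by
  have key : ∀ {x y : X} {i j : Fin k}, Twin s t (c i) x → Twin s t (c j) y → i < j →
      t.lt x y := by
    intro x y i j hi hj hij
    by_contra hcon
    have hne : x ≠ y := by
      rintro rfl
      exact hij.ne (hc.inj _ _ (hi.decTrans hj.symm'))
    have h1 : t.lt y x := (t.not_lt hne).1 hcon
    have h2 := hc.lt i j hij
    by_cases h3 : c i = y
    · rw [← h3] at hj
      exact hij.ne (hc.inj _ _ hj).symm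
    · rcases t.total _ _ h3 with h4 | h4
      · have h5 := twin_between_right h (hc.mem i) hi h4 h1
        exact hij.ne (hc.inj _ _ (h5.decTrans hj.symm'))
      · have hyV : y ∈ Vs s t := hj.mem (hc.mem j)
        have h5 := twin_between_right h hyV hj.symm' h4 h2
        exact hij.ne (hc.inj _ _ (h5.symm'.decTrans hj.symm'))
  rcases lt_trichotomy i j with hij | hij | hij
  · exact ⟨fun _ => Or.inl hij, fun _ => key hi hj hij⟩
  · subst hij
    have h1 : ¬ Dis s t x y := (hi.symm'.decTrans hj).not_dis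
    rw [not_dis_iff] at h1
    constructor
    · intro h2; exact Or.inr ⟨rfl, h1.2 h2⟩
    · rintro (h2 | ⟨-, h2⟩)
      · exact absurd h2 (lt_irrefl _)
      · exact h1.1 h2
  · constructor
    · intro h2
      exact absurd h2 (t.asymm (key hj hi hij))
    · rintro (h2 | ⟨h2, -⟩)
      · exact absurd h2 (lt_asymm hij)
      · exact absurd h2 hij.ne'

theorem DecCode.unique {s t t' : LOrd X} (h : CP s t) (h' : CP s t') {k : ℕ} {c : Fin k → X} {v : X}
    (hc : DecCode s t c v) (hc' : DecCode s t' c v) : t = t' := by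
  have hV : ∀ x, x ∈ Vs s t ↔ x ∈ Vs s t' := by
    intro x
    rw [hc.mem_iff h, hc'.mem_iff h']
  have hT : ∀ x ∈ Vs s t, ∀ i, Twin s t (c i) x ↔ Twin s t' (c i) x := by
    intro x hx i
    rw [hc.twin_iff h hx, hc'.twin_iff h' ((hV x).1 hx)]
  ext x y
  by_cases hxy : x ∈ Vs s t ∧ y ∈ Vs s t
  · obtain ⟨i, hi, -⟩ := hc.cover x hxy.1
    obtain ⟨j, hj, -⟩ := hc.cover y hxy.2
    rw [hc.lt_iff h hi hj, hc'.lt_iff h' ((hT x hxy.1 i).1 hi) ((hT y hxy.2 j).1 hj)]
  · have h1 : ¬ Dis s t x y := fun hd => hxy ⟨⟨y, hd⟩, ⟨x, hd.symm⟩⟩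
    have h2 : ¬ Dis s t' x y := fun hd =>
      hxy ⟨(hV x).2 ⟨y, hd⟩, (hV y).2 ⟨x, hd.symm⟩⟩
    rw [not_dis_iff] at h1 h2
    rw [← h1, h2]

/-- **Decode** (blueprint section 9). -/
theorem decode_card [Finite X] (s : LOrd X) (k : ℕ) (hX : 1 ≤ Nat.card X) :
    Nat.card {t : LOrd X // CP s t ∧ rk s t = k} ≤ (Nat.card X) ^ (k + 1) := by
  classical
  have hne : Nonempty X := (Nat.card_pos_iff.1 hX).1
  have hex : ∀ t : {t : LOrd X // CP s t ∧ rk s t = k}, ∃ p : (Fin k → X) × X,
      DecCode s t.1 p.1 p.2 := by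
    intro t
    obtain ⟨c, v, hcv⟩ := dec_exists_code t.2.2
    exact ⟨(c, v), hcv⟩
  choose f hf using hex
  have hinj : Function.Injective f := by
    intro t t' htt
    apply Subtype.ext
    have h1 := hf t'
    rw [← htt] at h1
    exact (hf t).unique t.2.1 t'.2.1 h1
  have h1 := Nat.card_le_card_of_injective f hinj
  rw [Nat.card_prod, Nat.card_fun, Nat.card_fin, ← pow_succ] at h1
  exact h1

end Pool.Agent.CDI
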