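import Pool.Agent.CDI.Base

/-!
# Rank versus number of pairs (blueprint section 8)
-/

namespace Pool.Agent.CDI

open LOrd

variable {X : Type*}

namespace RkSq

/-- the neighbourhood -/
def nb (s t : LOrd X) (x : X) : Set X := {z | Dis s t x z}

lemma mem_nb {s t : LOrd X} {x z : X} : z ∈ nb s t x ↔ Dis s t x z := Iff.rfl

lemma rk_eq (s t : LOrd X) : rk s t = (nb s t '' Vs s t).ncard := rfl

lemma twin_iff {s t : LOrd X} {x y : X} : Twin s t x y ↔ nb s t x = nb s t y :=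
  ⟨fun h => Set.ext h, fun h z => Set.ext_iff.1 h z⟩

lemma nb_ne {s t : LOrd X} {x y : X} (h : Dis s t x y) : nb s t x ≠ nb s t y := by
  intro e
  have h1 : y ∈ nb s t x := h
  rw [e] at h1
  exact dis_irrefl h1

lemma left_mem {s t : LOrd X} {x y : X} (h : Dis s t x y) : x ∈ Vs s t := ⟨y, h⟩

lemma right_mem {s t : LOrd X} {x y : X} (h : Dis s t x y) : y ∈ Vs s t := ⟨x, h.symm⟩

lemma three_le [Finite X] {s t : LOrd X} (hne : s ≠ t) (hB : ¬ Bip s t) : 3 ≤ rk s t := by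
  by_contra hlt
  apply hB
  obtain ⟨x₀, y₀, h0⟩ := exists_dis_of_ne hne
  have hsub : ({nb s t x₀, nb s t y₀} : Set (Set X)) ⊆ nb s t '' Vs s t := by
    rintro _ (rfl | rfl)
    · exact ⟨x₀, left_mem h0, rfl⟩
    · exact ⟨y₀, right_mem h0, rfl⟩
  have heq : ({nb s t x₀, nb s t y₀} : Set (Set X)) = nb s t '' Vs s t := by
    refine Set.eq_of_subset_of_ncard_le hsub ?_ (Set.toFinite _)
    rw [Set.ncard_pair (nb_ne h0), ← rk_eq]
    omega
  have hcase : ∀ x ∈ Vs s t, nb s t x = nb s t x₀ ∨ nb s t x = nb s t y₀ := by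
    intro x hx
    have : nb s t x ∈ nb s t '' Vs s t := ⟨x, hx, rfl⟩
    rw [← heq] at this
    exact this
  have key : ∀ x ∈ Vs s t, ∀ y ∈ Vs s t, nb s t x = nb s t x₀ → nb s t y ≠ nb s t x₀ →
      Dis s t x y := by
    intro x hx y hy h1 h2
    have h3 := (hcase y hy).resolve_left h2
    have h4 : y₀ ∈ nb s t x := by rw [h1]; exact h0
    have h5 : x ∈ nb s t y := by
      rw [h3]; exact (mem_nb.1 h4).symm
    exact (mem_nb.1 h5).symm
  refine ⟨{x | nb s t x = nb s t x₀}, fun x hx y hy => ⟨fun h => ?_, ?_⟩⟩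
  · by_cases hx0 : nb s t x = nb s t x₀
    · left
      refine ⟨hx0, fun hy0 => nb_ne h ?_⟩
      rw [hx0]
      exact (show nb s t y = nb s t x₀ from hy0).symm
    · right
      refine ⟨hx0, ?_⟩
      have h1 := (hcase x hx).resolve_left hx0
      rcases hcase y hy with h2 | h2
      · exact h2
      · exact absurd (h1.trans h2.symm) (nb_ne h)
  · rintro (⟨h1, h2⟩ | ⟨h1, h2⟩)
    · exact key x hx y hy h1 h2
    · exact (key y hy x hx h2 h1).symm

lemma rk_mul_le [Finite X] (s t : LOrd X) :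
    rk s t * rk s t - rk s t ≤ Set.ncard {p : X × X | Dis s t p.1 p.2} +
      Set.ncard {p : X × X | p.1 ∈ Vs s t ∧ p.2 ∈ Vs s t ∧ ¬ Dis s t p.1 p.2 ∧
        ¬ Twin s t p.1 p.2} := by
  classical
  set I := nb s t '' Vs s t with hI
  set I' := (Set.toFinite I).toFinset with hI'
  have hcard : I'.card = rk s t := by
    rw [rk_eq, Set.ncard_eq_toFinset_card _ (Set.toFinite _)]
  set Q : Set (X × X) := {p | p.1 ∈ Vs s t ∧ p.2 ∈ Vs s t ∧ nb s t p.1 ≠ nb s t p.2} with hQ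
  have h1 : rk s t * rk s t - rk s t ≤ Q.ncard := by
    rw [← hcard, ← Finset.offDiag_card, ← Set.ncard_coe_finset]
    have hsub : (I'.offDiag : Set (Set X × Set X)) ⊆
        (fun p : X × X => (nb s t p.1, nb s t p.2)) '' Q := by
      rintro ⟨a, b⟩ hab
      rw [Finset.mem_coe, Finset.mem_offDiag] at hab
      obtain ⟨ha, hb, hne⟩ := hab
      rw [hI', Set.Finite.mem_toFinset] at ha hb
      obtain ⟨x, hx, rfl⟩ := ha
      obtain ⟨y, hy, rfl⟩ := hb
      exact ⟨(x, y), ⟨hx, hy, hne⟩, rfl⟩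
    exact (Set.ncard_le_ncard hsub (Set.toFinite _)).trans (Set.ncard_image_le (Set.toFinite _))
  refine h1.trans (le_trans ?_ (Set.ncard_union_le _ _))
  apply Set.ncard_le_ncard _ (Set.toFinite _)
  rintro ⟨x, y⟩ ⟨hx, hy, hne⟩
  by_cases h : Dis s t x y
  · exact Or.inl h
  · exact Or.inr ⟨hx, hy, h, fun ht => hne (twin_iff.1 ht)⟩

end RkSq

open RkSq

/-- Bipartite edges: rank two. -/
theorem rk_sq_bip [Finite X] {s t : LOrd X} (hne : s ≠ t) (hB : Bip s t) :
    (rk s t) ^ 2 ≤ 2 * Set.ncard {p : X × X | Dis s t p.1 p.2} := by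
  obtain ⟨A, hA⟩ := hB
  have h1 : rk s t ≤ 2 := by
    have hsub : nb s t '' Vs s t ⊆ {Vs s t \ A, Vs s t ∩ A} := by
      rintro _ ⟨x, hx, rfl⟩
      by_cases hxA : x ∈ A
      · left
        ext z
        constructor
        · intro hz
          have hz' := right_mem (mem_nb.1 hz)
          have := (hA x hx z hz').1 hz
          exact ⟨hz', by tauto⟩
        · rintro ⟨hz, hzA⟩
          exact (hA x hx z hz).2 (Or.inl ⟨hxA, hzA⟩)
      · right
        ext z
        constructor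
        · intro hz
          have hz' := right_mem (mem_nb.1 hz)
          have := (hA x hx z hz').1 hz
          exact ⟨hz', by tauto⟩
        · rintro ⟨hz, hzA⟩
          exact (hA x hx z hz).2 (Or.inr ⟨hxA, hzA⟩)
    rw [rk_eq]
    refine (Set.ncard_le_ncard hsub (Set.toFinite _)).trans ?_
    exact (Set.ncard_insert_le _ _).trans (by rw [Set.ncard_singleton])
  have h2 : 2 ≤ Set.ncard {p : X × X | Dis s t p.1 p.2} := by
    obtain ⟨x₀, y₀, h0⟩ := exists_dis_of_ne hne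
    have hsub : ({(x₀, y₀), (y₀, x₀)} : Set (X × X)) ⊆ {p : X × X | Dis s t p.1 p.2} := by
      rintro _ (rfl | rfl)
      · exact h0
      · exact h0.symm
    have h3 := Set.ncard_le_ncard hsub (Set.toFinite _)
    rwa [Set.ncard_pair] at h3
    intro e
    exact h0.ne (Prod.ext_iff.1 e).1
  nlinarith

/-- Non-bipartite pairs: `2 rk² ≤ 3 (|D| + |P|)`. -/
theorem rk_sq_nb [Finite X] {s t : LOrd X} (hne : s ≠ t) (hB : ¬ Bip s t) :
    2 * (rk s t) ^ 2 ≤ 3 * (Set.ncard {p : X × X | Dis s t p.1 p.2} +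
      Set.ncard {p : X × X | p.1 ∈ Vs s t ∧ p.2 ∈ Vs s t ∧ ¬ Dis s t p.1 p.2 ∧
        ¬ Twin s t p.1 p.2}) := by
  have h1 := three_le hne hB
  refine le_trans ?_ (Nat.mul_le_mul_left 3 (rk_mul_le s t))
  generalize rk s t = r at h1
  obtain ⟨k, rfl⟩ : ∃ k, r = k + 3 := ⟨r - 3, by omega⟩
  have : (k + 3) * (k + 3) - (k + 3) = (k + 3) * (k + 2) := by
    rw [← Nat.mul_sub_one]; rfl
  rw [this]
  nlinarith

end Pool.Agent.CDI
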