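import Pool.Agent.CDI.Partner
import Pool.Agent.CDI.RkSq

/-!
# Sum of squares of ranks (blueprint section 8)
-/

namespace Pool.Agent.CDI

open LOrd

variable {X : Type*}

/-- Pairwise disjoint subsets of a finite type. -/
theorem sum_ncard_le {Y : Type*} [Finite Y] {ι : Type*} (F : Finset ι) (A : ι → Set Y)
    (h : ∀ i ∈ F, ∀ j ∈ F, i ≠ j → ∀ y, y ∈ A i → y ∉ A j) :
    ∑ i ∈ F, (A i).ncard ≤ Nat.card Y := by
  classical
  haveI := Fintype.ofFinite Y
  have h1 : ∑ i ∈ F, (A i).ncard = (F.biUnion fun i => (A i).toFinset).card := by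
    rw [Finset.card_biUnion]
    · refine Finset.sum_congr rfl (fun i _ => ?_)
      rw [Set.ncard_eq_toFinset_card']
    · intro i hi j hj hij
      rw [Function.onFun, Finset.disjoint_left]
      intro y hy hy'
      rw [Set.mem_toFinset] at hy hy'
      exact h i hi j hj hij y hy hy'
  rw [h1, Nat.card_eq_fintype_card]
  exact Finset.card_le_univ _

/-- The non-adjacent non-twin pairs. -/
def PP (s t : LOrd X) : Set (X × X) :=
  {p : X × X | p.1 ∈ Vs s t ∧ p.2 ∈ Vs s t ∧ ¬ Dis s t p.1 p.2 ∧ ¬ Twin s t p.1 p.2}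

theorem vs_congr {s t s' t' : LOrd X} (h : ∀ x y, Dis s t x y ↔ Dis s' t' x y) (x : X) :
    x ∈ Vs s t ↔ x ∈ Vs s' t' := by
  unfold Vs
  simp only [Set.mem_setOf_eq, h]

theorem twin_congr {s t s' t' : LOrd X} (h : ∀ x y, Dis s t x y ↔ Dis s' t' x y) (x y : X) :
    Twin s t x y ↔ Twin s' t' x y := by
  unfold Twin
  simp only [h]

theorem bip_congr {s t s' t' : LOrd X} (h : ∀ x y, Dis s t x y ↔ Dis s' t' x y) :
    Bip s t ↔ Bip s' t' := by
  unfold Bip
  simp only [h, vs_congr h]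

/-- **Sum of squares of ranks.** -/
theorem sum_rk_sq [Finite X] {S : Set (LOrd X)} (hS : MaxCD S) {ι : Type*} (F : Finset ι)
    (s t : ι → LOrd X) (hE : ∀ i ∈ F, Edge S (s i) (t i))
    (hd : ∀ i ∈ F, ∀ j ∈ F, i ≠ j → ¬ (∀ x y, Dis (s i) (t i) x y ↔ Dis (s j) (t j) x y)) :
    ∑ i ∈ F, (rk (s i) (t i)) ^ 2 ≤ 3 * (Nat.card X) ^ 2 := by
  classical
  let D : ι → Set (X × X) := fun i => {p | Dis (s i) (t i) p.1 p.2}
  let A : ι → Set (X × X) := fun i => if Bip (s i) (t i) then D i else PP (s i) (t i)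
  -- partners
  have hpart : ∀ i ∈ F, ¬ Bip (s i) (t i) → ∃ s' t', Edge S s' t' ∧ ¬ Bip s' t' ∧
      (∀ p ∈ PP (s i) (t i), Dis s' t' p.1 p.2) ∧
      (∃ p ∈ PP s' t', p ∈ D i) := by
    intro i hi hB
    obtain ⟨s', t', h1, h2, h3, h4, x, hx, y, hy, hxy, hxy'⟩ := exists_partner hS (hE i hi) hB
    exact ⟨s', t', h1, h2, fun p hp => h3 p.1 hp.1 p.2 hp.2.1 hp.2.2.1 hp.2.2.2,
      ⟨(x, y), ⟨hx, hy, hxy, hxy'⟩, h4 x hx y hy hxy hxy'⟩⟩
  have hD : ∀ i ∈ F, ∀ j ∈ F, i ≠ j → ∀ p, p ∈ D i → p ∉ D j := by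
    intro i hi j hj hij p hp hp'
    exact hd i hi j hj hij (Edge.dis_eq hS (hE i hi) (hE j hj) hp hp')
  have hA : ∀ i ∈ F, ∀ j ∈ F, i ≠ j → ∀ p, p ∈ A i → p ∉ A j := by
    have key : ∀ i ∈ F, ∀ j ∈ F, ¬ Bip (s i) (t i) → Bip (s j) (t j) →
        ∀ p, p ∈ PP (s i) (t i) → p ∉ D j := by
      intro i hi j hj hBi hBj p hp hp'
      obtain ⟨s', t', h1, h2, h3, -⟩ := hpart i hi hBi
      have h5 := Edge.dis_eq hS h1 (hE j hj) (h3 p hp) hp'
      exact h2 ((bip_congr h5).2 hBj)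
    intro i hi j hj hij p hp hp'
    by_cases hBi : Bip (s i) (t i)
    · by_cases hBj : Bip (s j) (t j)
      · simp only [A, if_pos hBi, if_pos hBj] at hp hp'
        exact hD i hi j hj hij p hp hp'
      · simp only [A, if_pos hBi, if_neg hBj] at hp hp'
        exact key j hj i hi hBj hBi p hp' hp
    · by_cases hBj : Bip (s j) (t j)
      · simp only [A, if_neg hBi, if_pos hBj] at hp hp'
        exact key i hi j hj hBi hBj p hp hp'
      · simp only [A, if_neg hBi, if_neg hBj] at hp hp'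
        obtain ⟨s', t', h1, h2, h3, q, hq, hqi⟩ := hpart i hi hBi
        obtain ⟨s'', t'', h1', h2', h3', q', hq', hqj⟩ := hpart j hj hBj
        have h5 := Edge.dis_eq hS h1 h1' (h3 p hp) (h3' p hp')
        obtain ⟨a, b, g1, g2, g3, g4, x, hx, y, hy, hxy, hxy'⟩ :=
          exists_partner hS (hE i hi) hBi
        obtain ⟨a', b', g1', g2', g3', g4', x', hx', y', hy', hxy1, hxy1'⟩ :=
          exists_partner hS (hE j hj) hBj
        have e := Edge.dis_eq hS g1 g1' (g3 p.1 hp.1 p.2 hp.2.1 hp.2.2.1 hp.2.2.2)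
          (g3' p.1 hp'.1 p.2 hp'.2.1 hp'.2.2.1 hp'.2.2.2)
        have f1 := g4 x hx y hy hxy hxy'
        have f2 := g4' x ((vs_congr e x).1 hx) y ((vs_congr e y).1 hy)
          (fun h => hxy ((e x y).2 h)) (fun h => hxy' ((twin_congr e x y).2 h))
        exact hD i hi j hj hij (x, y) f1 f2
  have c1 := sum_ncard_le F D hD
  have c2 := sum_ncard_le F A hA
  rw [Nat.card_prod] at c1 c2
  have c3 : ∑ i ∈ F, 2 * (rk (s i) (t i)) ^ 2 ≤ ∑ i ∈ F, 3 * ((D i).ncard + (A i).ncard) := by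
    refine Finset.sum_le_sum (fun i hi => ?_)
    have hne := (hE i hi).2.2.1
    by_cases hB : Bip (s i) (t i)
    · have := rk_sq_bip hne hB
      have e : A i = D i := by simp only [A, if_pos hB]
      rw [e]
      change (rk (s i) (t i)) ^ 2 ≤ 2 * (D i).ncard at this
      omega
    · have := rk_sq_nb hne hB
      have e : A i = PP (s i) (t i) := by simp only [A, if_neg hB]
      rw [e]
      exact this
  rw [← Finset.mul_sum, ← Finset.mul_sum, Finset.sum_add_distrib] at c3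
  nlinarith [c1, c2, c3]

end Pool.Agent.CDI
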