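import Pool.Agent.CDI.Grp
import Pool.Agent.CDI.Part
import Pool.Agent.CDI.Dec

/-!
# Counting tree sequences (blueprint section 11)
-/

namespace Pool.Agent.CDI

open LOrd

namespace Cnt

variable {X : Type*}

theorem rk_le [Finite X] (s t : LOrd X) : rk s t ≤ Nat.card X := by
  unfold rk
  calc _ ≤ (Vs s t).ncard := Set.ncard_image_le (Set.toFinite _)
    _ ≤ (Set.univ : Set X).ncard := Set.ncard_le_ncard (Set.subset_univ _)
    _ = Nat.card X := Set.ncard_univ X

theorem dis_inj {s t t' : LOrd X} (h : ∀ x y, Dis s t x y ↔ Dis s t' x y) : t = t' := by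
  ext x y
  have h1 := not_dis_iff (s := s) (t := t) (x := x) (y := y)
  have h2 := not_dis_iff (s := s) (t := t') (x := x) (y := y)
  rw [h x y] at h1
  tauto

/-- numeric codes of the orders adjacent to `s` with rank `k` -/
theorem exists_enc [Finite X] (hX : 1 ≤ Nat.card X) : ∃ f : LOrd X → ℕ → LOrd X → ℕ,
    (∀ s k t, CP s t → rk s t = k → f s k t < (Nat.card X) ^ (k + 1)) ∧
    ∀ s k t t', CP s t → rk s t = k → CP s t' → rk s t' = k → f s k t = f s k t' → t = t' := by
  classical
  have h1 : ∀ s : LOrd X, ∀ k : ℕ, ∃ g : {t : LOrd X // CP s t ∧ rk s t = k} → ℕ,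
      (∀ t, g t < (Nat.card X) ^ (k + 1)) ∧ Function.Injective g := by
    intro s k
    let e := Finite.equivFin {t : LOrd X // CP s t ∧ rk s t = k}
    refine ⟨fun t => (e t : ℕ), fun t => (e t).2.trans_le (decode_card s k hX), fun t t' h => ?_⟩
    exact e.injective (Fin.ext h)
  choose g hg1 hg2 using h1
  refine ⟨fun s k t => if h : CP s t ∧ rk s t = k then g s k ⟨t, h⟩ else 0, ?_, ?_⟩
  · intro s k t h h'
    simp only [dif_pos (show CP s t ∧ rk s t = k from ⟨h, h'⟩)]
    exact hg1 s k _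
  · intro s k t t' h1 h2 h3 h4 h
    simp only [dif_pos (show CP s t ∧ rk s t = k from ⟨h1, h2⟩),
      dif_pos (show CP s t' ∧ rk s t' = k from ⟨h3, h4⟩)] at h
    exact congrArg Subtype.val (hg2 s k h)

/-- the code of a sequence -/
def OK {m J : ℕ} (R : ℕ) (v : Fin (J + 1) → LOrd (Fin m)) (p c : Fin J → Fin (J + 1))
    (k : Fin J → Fin (m + 1)) : Prop :=
  (∀ j : Fin J, p j < j.succ ∧
    ((c j = j.succ ∧ v j.succ = v (p j)) ∨
     (∃ i < j, c j = i.succ ∧ ∀ x y, Dis (v (p i)) (v i.succ) x y ↔ Dis (v (p j)) (v j.succ) x y) ∨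
     (c j = 0 ∧ CP (v (p j)) (v j.succ) ∧ rk (v (p j)) (v j.succ) = k j))) ∧
  ∑ j ∈ Finset.univ.filter (fun j => c j = 0), (k j : ℕ) ≤ R

theorem exists_code {m J R : ℕ} (hR : 3 * J * m ^ 2 ≤ R ^ 2)
    {v : Fin (J + 1) → LOrd (Fin m)} {S : Set (LOrd (Fin m))} (hS : MaxCD S) (hv : TreeSeq S J v) :
    ∃ p c k, OK R v p c k := by
  classical
  have h1 : ∀ j : Fin J, ∃ i : Fin (J + 1), i < j.succ ∧ (v j.succ = v i ∨ Edge S (v i) (v j.succ)) :=
    fun j => hv.2 j.succ (Fin.succ_ne_zero j)
  choose p hp1 hp2 using h1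
  let same : Fin J → Fin J → Prop := fun i j =>
    ∀ x y, Dis (v (p i)) (v i.succ) x y ↔ Dis (v (p j)) (v j.succ) x y
  let c : Fin J → Fin (J + 1) := fun j =>
    if v j.succ = v (p j) then j.succ else
      if h : ∃ i < j, same i j then h.choose.succ else 0
  let k : Fin J → Fin (m + 1) := fun j => ⟨rk (v (p j)) (v j.succ), by
    have := rk_le (v (p j)) (v j.succ)
    rw [Nat.card_eq_fintype_card, Fintype.card_fin] at this
    omega⟩
  have hnew : ∀ j, c j = 0 → v j.succ ≠ v (p j) ∧ ¬ ∃ i < j, same i j := by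
    intro j hj
    by_cases ha : v j.succ = v (p j)
    · simp only [c, if_pos ha] at hj
      exact absurd hj (Fin.succ_ne_zero j)
    · refine ⟨ha, fun hb => ?_⟩
      simp only [c, if_neg ha, dif_pos hb] at hj
      exact absurd hj (Fin.succ_ne_zero _)
  refine ⟨p, c, k, fun j => ⟨hp1 j, ?_⟩, ?_⟩
  · by_cases ha : v j.succ = v (p j)
    · left
      exact ⟨by simp only [c, if_pos ha], ha⟩
    · right
      by_cases hb : ∃ i < j, same i j
      · left
        exact ⟨hb.choose, hb.choose_spec.1, by simp only [c, if_neg ha, dif_pos hb],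
          hb.choose_spec.2⟩
      · right
        refine ⟨by simp only [c, if_neg ha, dif_neg hb], ?_, rfl⟩
        exact Edge.cp hS ((hp2 j).resolve_left ha)
  · have h3 := sum_rk_sq hS (Finset.univ.filter (fun j => c j = 0)) (fun j => v (p j))
      (fun j => v j.succ) (by
        intro j hj
        rw [Finset.mem_filter] at hj
        exact (hp2 j).resolve_left (hnew j hj.2).1) (by
        intro i hi j hj hij h
        rw [Finset.mem_filter] at hi hj
        rcases lt_or_gt_of_ne hij with h4 | h4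
        · exact (hnew j hj.2).2 ⟨i, h4, h⟩
        · exact (hnew i hi.2).2 ⟨j, h4, fun x y => (h x y).symm⟩)
    rw [Nat.card_eq_fintype_card, Fintype.card_fin] at h3
    have h4 : (∑ j ∈ Finset.univ.filter (fun j => c j = 0), (k j : ℕ)) ^ 2 ≤ R ^ 2 := by
      refine (sq_sum_le_card_mul_sum_sq).trans (le_trans ?_ hR)
      have h5 : (Finset.univ.filter (fun j => c j = 0)).card ≤ J := by
        refine (Finset.card_le_univ _).trans ?_
        rw [Fintype.card_fin]
      calc _ ≤ J * (3 * m ^ 2) := Nat.mul_le_mul h5 h3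
        _ = 3 * J * m ^ 2 := by ring
    exact (Nat.pow_le_pow_iff_left two_ne_zero).1 h4

/-- sequences with a given code -/
theorem fibre_card {m J R : ℕ} (hm : 1 ≤ m) (p c : Fin J → Fin (J + 1)) (k : Fin J → Fin (m + 1)) :
    Set.ncard {v : Fin (J + 1) → LOrd (Fin m) | v 0 = idOrd m ∧ OK R v p c k} ≤ m ^ (J + R) := by
  classical
  by_cases hsum : ∑ j ∈ Finset.univ.filter (fun j => c j = 0), (k j : ℕ) ≤ R
  swap
  · have : {v : Fin (J + 1) → LOrd (Fin m) | v 0 = idOrd m ∧ OK R v p c k} = ∅ := by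
      ext v
      simp only [Set.mem_ofPred_eq, Set.mem_empty_iff_false, iff_false, not_and]
      intro _ h
      exact hsum h.2
    rw [this, Set.ncard_empty]
    exact Nat.zero_le _
  have hcard : Nat.card (Fin m) = m := by rw [Nat.card_eq_fintype_card, Fintype.card_fin]
  obtain ⟨f, hf1, hf2⟩ := exists_enc (X := Fin m) (by rw [hcard]; exact hm)
  rw [hcard] at hf1
  let d : Fin J → ℕ := fun j => if c j = 0 then (k j : ℕ) + 1 else 0
  let T : Finset (Fin J → ℕ) := Fintype.piFinset fun j => Finset.range (m ^ d j)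
  have hT : T.card ≤ m ^ (J + R) := by
    rw [Fintype.card_piFinset]
    simp only [Finset.card_range]
    rw [Finset.prod_pow_eq_pow_sum]
    refine Nat.pow_le_pow_right hm ?_
    have h1 : ∑ j, d j = ∑ j ∈ Finset.univ.filter (fun j => c j = 0), ((k j : ℕ) + 1) := by
      rw [Finset.sum_filter]
    rw [h1, Finset.sum_add_distrib, add_comm]
    refine add_le_add ?_ hsum
    rw [Finset.sum_const, smul_eq_mul, mul_one]
    refine (Finset.card_le_univ _).trans ?_
    rw [Fintype.card_fin]
  refine le_trans ?_ hT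
  rw [← Set.ncard_coe_finset T]
  refine Set.ncard_le_ncard_of_injOn
    (fun v j => if c j = 0 then f (v (p j)) (k j) (v j.succ) else 0) ?_ ?_ (Finset.finite_toSet T)
  · rintro v ⟨-, hv⟩
    rw [Finset.mem_coe, Fintype.mem_piFinset]
    intro j
    rw [Finset.mem_range]
    by_cases hc : c j = 0
    · simp only [d, if_pos hc]
      rcases (hv.1 j).2 with h | ⟨i, -, h, -⟩ | ⟨-, h1, h2⟩
      · exact absurd (h.1.symm.trans hc) (Fin.succ_ne_zero j)
      · exact absurd (h.symm.trans hc) (Fin.succ_ne_zero i)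
      · exact hf1 _ _ _ h1 h2
    · simp only [d, if_neg hc]
      simp
  · rintro v ⟨hv0, hv⟩ w ⟨hw0, hw⟩ hvw
    have key : ∀ n : ℕ, ∀ j : Fin (J + 1), (j : ℕ) = n → v j = w j := by
      intro n
      induction n using Nat.strong_induction_on with
      | _ n ih =>
        intro j hj
        rcases Fin.eq_zero_or_eq_succ j with rfl | ⟨i, rfl⟩
        · rw [hv0, hw0]
        · have hlt : ∀ l : Fin (J + 1), l < i.succ → v l = w l := by
            intro l hl
            refine ih l ?_ l rfl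
            rw [← hj]
            exact hl
          obtain ⟨hp, hv1⟩ := hv.1 i
          have hw1 := (hw.1 i).2
          have hpe := hlt _ hp
          rcases hv1 with ⟨h1, h2⟩ | ⟨i', hi', h1, h2⟩ | ⟨h1, h2, h3⟩
          · rcases hw1 with ⟨g1, g2⟩ | ⟨i'', hi'', g1, g2⟩ | ⟨g1, g2, g3⟩
            · rw [h2, g2, hpe]
            · exfalso
              have := Fin.succ_injective _ (g1.symm.trans h1)
              exact hi''.ne this
            · exact absurd (h1.symm.trans g1) (Fin.succ_ne_zero i)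
          · rcases hw1 with ⟨g1, g2⟩ | ⟨i'', hi'', g1, g2⟩ | ⟨g1, g2, g3⟩
            · exfalso
              have := Fin.succ_injective _ (h1.symm.trans g1)
              exact hi'.ne this
            · have he : i'' = i' := Fin.succ_injective _ (g1.symm.trans h1)
              subst he
              have hi1 : i''.succ < i.succ := Fin.succ_lt_succ_iff.2 hi'
              have e1 := hlt _ hi1
              have e2 := hlt _ ((hv.1 i'').1.trans hi1)
              apply dis_inj (s := v (p i))
              intro x y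
              rw [← h2 x y, e1, e2, g2 x y, hpe]
            · exact absurd (h1.symm.trans g1) (Fin.succ_ne_zero i')
          · rcases hw1 with ⟨g1, g2⟩ | ⟨i'', hi'', g1, g2⟩ | ⟨g1, g2, g3⟩
            · exact absurd (g1.symm.trans h1) (Fin.succ_ne_zero i)
            · exact absurd (g1.symm.trans h1) (Fin.succ_ne_zero i'')
            · have e := congrFun hvw i
              simp only [if_pos h1] at e
              rw [← hpe] at e g2 g3
              exact hf2 _ _ _ _ h2 h3 g2 g3 e
    funext j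
    exact key j j rfl

end Cnt

/-- **Count of tree sequences.** -/
theorem treeSeq_count (m J R : ℕ) (hm : 1 ≤ m) (hR : 3 * J * m ^ 2 ≤ R ^ 2) :
    Set.ncard {v : Fin (J + 1) → LOrd (Fin m) | v 0 = idOrd m ∧
      ∃ S : Set (LOrd (Fin m)), MaxCD S ∧ TreeSeq S J v} ≤
      ((J + 1) ^ 2 * (m + 1)) ^ J * m ^ (J + R) := by
  classical
  let K := (Fin J → Fin (J + 1)) × (Fin J → Fin (J + 1)) × (Fin J → Fin (m + 1))
  let A : K → Set (Fin (J + 1) → LOrd (Fin m)) := fun κ =>
    {v | v 0 = idOrd m ∧ Cnt.OK R v κ.1 κ.2.1 κ.2.2}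
  have h1 : {v : Fin (J + 1) → LOrd (Fin m) | v 0 = idOrd m ∧
      ∃ S : Set (LOrd (Fin m)), MaxCD S ∧ TreeSeq S J v} ⊆ ⋃ κ, A κ := by
    rintro v ⟨hv0, S, hS, hv⟩
    obtain ⟨p, c, k, h⟩ := Cnt.exists_code hR hS hv
    exact Set.mem_iUnion.2 ⟨(p, c, k), hv0, h⟩
  refine (Set.ncard_le_ncard h1 (Set.toFinite _)).trans ?_
  refine (Set.ncard_iUnion_le_of_fintype A).trans ?_
  calc ∑ κ, (A κ).ncard ≤ ∑ _κ : K, m ^ (J + R) :=
        Finset.sum_le_sum fun κ _ => Cnt.fibre_card hm κ.1 κ.2.1 κ.2.2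
    _ = ((J + 1) ^ 2 * (m + 1)) ^ J * m ^ (J + R) := by
        rw [Finset.sum_const, smul_eq_mul, Finset.card_univ]
        congr 1
        simp only [K, Fintype.card_prod, Fintype.card_fun, Fintype.card_fin]
        rw [← mul_assoc, ← mul_pow, ← mul_pow, sq]

end Pool.Agent.CDI
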