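import Mathlib

/-!
# Gallai's colour theorem, abstract form (blueprint section 6)
-/

namespace Pool.Agent.CDI

/-- The class of the pair `(a, b)` under the forcing steps. -/
inductive GCl {X : Type*} (G : X → X → Prop) (a b : X) : X → X → Prop
  | base : GCl G a b a b
  | swap {x y : X} : GCl G a b x y → GCl G a b y x
  | step {x y z : X} : GCl G a b x y → ¬ G x y → G y z → ¬ G x z → GCl G a b x z

namespace GCl

variable {X : Type*} {G : X → X → Prop} {a b : X}

lemma trans {x y u v : X} (h : GCl G a b x y) (h' : GCl G x y u v) : GCl G a b u v := by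
  induction h' with
  | base => exact h
  | swap _ ih => exact ih.swap
  | step _ h1 h2 h3 ih => exact ih.step h1 h2 h3

lemma symm (hsymm : ∀ x y, G x y → G y x) {x y : X} (h : GCl G a b x y) : GCl G x y a b := by
  induction h with
  | base => exact base
  | swap _ ih => exact (base.swap).trans ih
  | @step x y z _ h1 h2 h3 ih =>
    exact (base.step h3 (hsymm _ _ h2) h1).trans ih

lemma not_adj (hsymm : ∀ x y, G x y → G y x) (hab : ¬ G a b) {x y : X} (h : GCl G a b x y) :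
    ¬ G x y := by
  induction h with
  | base => exact hab
  | swap _ ih => exact fun h => ih (hsymm _ _ h)
  | step _ _ _ h3 _ => exact h3

lemma mem (hsymm : ∀ x y, G x y → G y x) {V : Set X} (hV : ∀ x, x ∈ V ↔ ∃ y, G x y)
    (ha : a ∈ V) (hb : b ∈ V) {x y : X} (h : GCl G a b x y) : x ∈ V ∧ y ∈ V := by
  induction h with
  | base => exact ⟨ha, hb⟩
  | swap _ ih => exact ⟨ih.2, ih.1⟩
  | step _ _ h2 _ ih => exact ⟨ih.1, (hV _).2 ⟨_, hsymm _ _ h2⟩⟩

/-- The vertex set of a class of non-twins is everything. -/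
lemma vert (hsymm : ∀ x y, G x y → G y x) {V : Set X} (hV : ∀ x, x ∈ V ↔ ∃ y, G x y)
    (hmod : ∀ M : Set X, M ⊆ V → (∃ x ∈ M, ∃ y ∈ M, G x y) →
      (∀ v ∈ V, v ∉ M → (∀ x ∈ M, G v x) ∨ (∀ x ∈ M, ¬ G v x)) → M = V)
    (ha : a ∈ V) (hb : b ∈ V) (hab : ¬ G a b) (hT : ¬ ∀ z, G a z ↔ G b z) {v : X} (hv : v ∈ V) :
    ∃ w, GCl G a b v w := by
  have key : {x | ∃ y, GCl G a b x y} = V := by
    refine hmod _ (fun x ⟨y, h⟩ => (h.mem hsymm hV ha hb).1) ?_ ?_
    · obtain ⟨z, hz⟩ := not_forall.1 hT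
      by_cases h1 : G b z
      · have h2 : ¬ G a z := fun h => hz ⟨fun _ => h1, fun _ => h⟩
        exact ⟨b, ⟨a, base.swap⟩, z, ⟨a, (base.step hab h1 h2).swap⟩, h1⟩
      · have h2 : G a z := by
          by_contra h2
          exact hz ⟨fun h => absurd h h2, fun h => absurd h h1⟩
        exact ⟨a, ⟨b, base⟩, z, ⟨b, (base.swap.step (fun h => hab (hsymm _ _ h)) h2 h1).swap⟩, h2⟩
    · intro v _ hvM
      have h0 : ∀ {x y : X}, GCl G a b x y → (G v x ↔ G v y) := by
        have h0' : ∀ {x y : X}, GCl G a b x y → G v x → G v y := by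
          intro x y h hx
          by_contra hy
          exact hvM ⟨y, (h.swap.step (h.swap.not_adj hsymm hab) (hsymm _ _ hx)
            (fun h' => hy (hsymm _ _ h'))).swap⟩
        intro x y h
        exact ⟨h0' h, h0' h.swap⟩
      have h1 : ∀ {x y : X}, GCl G a b x y → (G v x ↔ G v a) ∧ (G v y ↔ G v a) := by
        intro x y h
        have h2 := h0 h
        induction h with
        | base => exact ⟨Iff.rfl, h2.symm⟩
        | swap h' ih => exact (ih (h0 h')).symm
        | step h' _ _ _ ih =>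
          have h3 := (ih (h0 h')).1
          exact ⟨h3, h2.symm.trans h3⟩
      by_cases h2 : G v a
      · exact Or.inl fun x ⟨y, h⟩ => (h1 h).1.2 h2
      · exact Or.inr fun x ⟨y, h⟩ h3 => h2 ((h1 h).1.1 h3)
  have h1 : v ∈ {x | ∃ y, GCl G a b x y} := by rw [key]; exact hv
  exact h1

/-- The triangle lemma. -/
lemma triangle (hsymm : ∀ x y, G x y → G y x) {a b c : X} (hab : ¬ G a b) (hac : ¬ G a c)
    (hb : a ≠ b) (hc : a ≠ c) (h1 : ¬ GCl G b c a b) (h2 : ¬ GCl G b c a c)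
    {x y : X} (h : GCl G b c x y) :
    (a ≠ x ∧ a ≠ y) ∧ (¬ G a x ∧ ¬ G a y) ∧ ¬ GCl G b c a x ∧ ¬ GCl G b c a y := by
  induction h with
  | base => exact ⟨⟨hb, hc⟩, ⟨hab, hac⟩, h1, h2⟩
  | swap _ ih => exact ⟨⟨ih.1.2, ih.1.1⟩, ⟨ih.2.1.2, ih.2.1.1⟩, ih.2.2.2, ih.2.2.1⟩
  | @step x y d h g1 g2 g3 ih =>
    obtain ⟨⟨ex, ey⟩, ⟨nx, ny⟩, cx, cy⟩ := ih
    have hxd := h.step g1 g2 g3
    have ed : a ≠ d := by
      rintro rfl
      exact cx hxd.swap
    have nd : ¬ G a d := fun h' =>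
      cx (hxd.step g3 (hsymm _ _ h') (fun h'' => nx (hsymm _ _ h''))).swap
    refine ⟨⟨ex, ed⟩, ⟨nx, nd⟩, cx, fun h' => cy ?_⟩
    exact h'.step nd (hsymm _ _ g2) ny

end GCl

/-- Blueprint section 6.  `G` symmetric irreflexive with support `V`, every module of `G` inside `V`
containing an adjacent pair is `V`; `K` a symmetric relation closed under the forcing steps
`{x,y} → {x,z}` (`x,y` non-adjacent, `y,z` adjacent, `x,z` non-adjacent) and true for one non-adjacent
non-twin pair of points of `V`.  Then `K` is true for all of them. -/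
theorem gallai {X : Type*} (G : X → X → Prop) (V : Set X) (hsymm : ∀ x y, G x y → G y x)
    (hirr : ∀ x, ¬ G x x) (hV : ∀ x, x ∈ V ↔ ∃ y, G x y)
    (hmod : ∀ M : Set X, M ⊆ V → (∃ x ∈ M, ∃ y ∈ M, G x y) →
      (∀ v ∈ V, v ∉ M → (∀ x ∈ M, G v x) ∨ (∀ x ∈ M, ¬ G v x)) → M = V)
    (K : X → X → Prop) (hKs : ∀ x y, K x y → K y x)
    (hK : ∀ x y z, x ∈ V → y ∈ V → K x y → ¬ G x y → G y z → ¬ G x z → K x z)
    {x₀ y₀ : X} (hx₀ : x₀ ∈ V) (hy₀ : y₀ ∈ V) (h0 : ¬ G x₀ y₀) (h0T : ¬ ∀ z, G x₀ z ↔ G y₀ z)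
    (hK0 : K x₀ y₀) :
    ∀ x ∈ V, ∀ y ∈ V, ¬ G x y → (¬ ∀ z, G x z ↔ G y z) → K x y := by
  -- `K` is true along the class of `(x₀, y₀)`
  have hKc : ∀ {x y : X}, GCl G x₀ y₀ x y → K x y := by
    intro x y h
    induction h with
    | base => exact hK0
    | swap _ ih => exact hKs _ _ ih
    | step h g1 g2 g3 ih =>
      have := h.mem hsymm hV hx₀ hy₀
      exact hK _ _ _ this.1 this.2 ih g1 g2 g3
  intro u hu v hv huv huvT
  refine hKc ?_
  by_contra hne
  -- the two classes are disjoint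
  have hdis : ∀ {x y : X}, GCl G x₀ y₀ x y → ¬ GCl G u v x y := fun h h' =>
    hne (h.trans (h'.symm hsymm))
  obtain ⟨x, hx⟩ : ∃ x, x ∈ V := ⟨u, hu⟩
  obtain ⟨y, hy⟩ := GCl.vert hsymm hV hmod hx₀ hy₀ h0 h0T hx
  obtain ⟨z, hz⟩ := GCl.vert hsymm hV hmod hu hv huv huvT hx
  have nxy := hy.not_adj hsymm h0
  have nxz := hz.not_adj hsymm huv
  have nyz : ¬ G y z := fun h => hdis (hy.step nxy h nxz) hz
  have hyV := (hy.mem hsymm hV hx₀ hy₀).2
  have hzV := (hz.mem hsymm hV hu hv).2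
  have eyz : y ≠ z := by
    rintro rfl
    exact hdis hy hz
  have irr : ∀ {a b c : X}, ¬ G a b → a ≠ b → GCl G a b c c → False := by
    intro a b c hab eab h
    have : ∀ {x y : X}, GCl G a b x y → x ≠ y := by
      intro x y h
      induction h with
      | base => exact eab
      | swap _ ih => exact ih.symm
      | step h g1 g2 g3 ih =>
        rintro rfl
        exact g1 (hsymm _ _ g2)
    exact this h rfl
  have exy : x ≠ y := by
    rintro rfl
    refine irr h0 ?_ hy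
    rintro rfl
    exact h0T fun _ => Iff.rfl
  have exz : x ≠ z := by
    rintro rfl
    refine irr huv ?_ hz
    rintro rfl
    exact huvT fun _ => Iff.rfl
  -- the third edge lies in the first class
  have hA : GCl G x₀ y₀ y z := by
    by_contra h
    obtain ⟨w, hw⟩ := GCl.vert hsymm hV hmod hx₀ hy₀ h0 h0T hzV
    have := (GCl.triangle hsymm (a := z) (b := x) (c := y) (fun h => nxz (hsymm _ _ h))
      (fun h => nyz (hsymm _ _ h)) exz.symm eyz.symm
      (fun h' => hdis (hy.trans h') hz.swap) (fun h' => h (hy.trans h').swap)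
      ((hy.symm hsymm).trans hw)).1.1
    exact this rfl
  have hB : GCl G u v y z := by
    by_contra h
    obtain ⟨w, hw⟩ := GCl.vert hsymm hV hmod hu hv huv huvT hyV
    have := (GCl.triangle hsymm (a := y) (b := x) (c := z) (fun h => nxy (hsymm _ _ h))
      nyz exy.symm eyz
      (fun h' => hdis hy (hz.trans h').swap) (fun h' => h (hz.trans h'))
      ((hz.symm hsymm).trans hw)).1.1
    exact this rfl
  exact hdis hA hB

end Pool.Agent.CDI
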