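import Pool.Agent.CDI.Start
import Pool.Agent.CDI.Gal

/-!
# One colour (blueprint section 7)
-/

namespace Pool.Agent.CDI

open LOrd

variable {X : Type*}

/-- **One colour** (from `gallai`, `module_lemma`, `exists_cross`, `colour_rule`). -/
theorem one_colour [Finite X] {S : Set (LOrd X)} (hS : MaxCD S) {s t : LOrd X} (h : Edge S s t)
    (hB : ¬ Bip s t) :
    ∃ x₀ ∈ Vs s t, ∃ y₀ ∈ Vs s t, ¬ Dis s t x₀ y₀ ∧ ¬ Twin s t x₀ y₀ ∧ (∃ u ∈ S, Dis s u x₀ y₀) ∧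
      ∀ x ∈ Vs s t, ∀ y ∈ Vs s t, ¬ Dis s t x y → ¬ Twin s t x y →
        ∀ u ∈ S, (Dis s u x y ↔ Dis s u x₀ y₀) := by
  obtain ⟨x₀, hx₀, y₀, hy₀, hT, hcr⟩ := exists_cross hS h hB
  refine ⟨x₀, hx₀, y₀, hy₀, hcr.1, hT, ?_, ?_⟩
  · obtain ⟨u, hu, _, hd⟩ := hcr.2.1
    exact ⟨u, hu, hd⟩
  · refine gallai (Dis s t) (Vs s t) (fun _ _ h => h.symm) (fun _ => dis_irrefl)
      (fun x => Iff.rfl) (fun M hM h1 h2 => module_lemma (h.cp hS) hB hM h1 h2)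
      (fun x y => ∀ u ∈ S, (Dis s u x y ↔ Dis s u x₀ y₀)) ?_ ?_ hx₀ hy₀ hcr.1 hT ?_
    · intro x y hK u hu
      rw [dis_symm_iff, hK u hu]
    · intro x y z _ _ hK hxy hyz hxz u hu
      obtain ⟨-, ⟨u1, hu1, h1, h1'⟩, ⟨u2, hu2, h2, h2'⟩⟩ := hcr
      have hc : Cross S s t x y := ⟨hxy, ⟨u1, hu1, h1, (hK u1 hu1).2 h1'⟩,
        ⟨u2, hu2, h2, (hK u2 hu2).2 h2'⟩⟩
      rw [← colour_rule hS h hc hyz hxz u hu, hK u hu]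
    · intro u _; exact Iff.rfl

end Pool.Agent.CDI
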