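import Pool.Agent.CDI.LemA

/-!
# Crossing pairs and the colour rule (blueprint section 7)
-/

namespace Pool.Agent.CDI

open LOrd

variable {X : Type*}

/-- The non-adjacent pair `x, y` is flipped by a member on the `s`-side and by a member on the
`t`-side. -/
def Cross (S : Set (LOrd X)) (s t : LOrd X) (x y : X) : Prop :=
  ¬ Dis s t x y ∧ (∃ u ∈ S, (∀ a b, Dis s t a b → ¬ Dis s u a b) ∧ Dis s u x y) ∧
    (∃ u ∈ S, (∀ a b, Dis s t a b → Dis s u a b) ∧ Dis s u x y)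

/-- The colour rule, `x` on top: `s` is `x y z`, `t` is `x z y`. -/
theorem colour_aux1 {S : Set (LOrd X)} (hS : IsCD S) {s t u₁ u₂ : LOrd X} (hs : s ∈ S) (ht : t ∈ S)
    (hu₁ : u₁ ∈ S) (hu₂ : u₂ ∈ S) {x y z : X} (s1 : s.lt x y) (s2 : s.lt y z) (t1 : t.lt x z)
    (t2 : t.lt z y) (a1 : u₁.lt y z) (a2 : u₁.lt y x) (b1 : u₂.lt z y) (b2 : u₂.lt y x) :
    ∀ w ∈ S, (w.lt y x ↔ w.lt z x) := by
  have hxz : x ≠ z := t.ne t1
  have hxy : x ≠ y := s.ne s1
  have n1 : ∀ w ∈ S, w.lt y x → ¬ w.lt x z := fun w hw h1 h2 =>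
    hS t ht u₂ hu₂ w hw x z y ⟨⟨t1, t2⟩, ⟨b1, b2⟩, ⟨h1, h2⟩⟩
  have a3 : u₁.lt z x := (u₁.not_lt hxz).1 (n1 u₁ hu₁ a2)
  have n2 : ∀ w ∈ S, w.lt z x → ¬ w.lt x y := fun w hw h1 h2 =>
    hS s hs u₁ hu₁ w hw x y z ⟨⟨s1, s2⟩, ⟨a1, a3⟩, ⟨h1, h2⟩⟩
  intro w hw
  exact ⟨fun h => (w.not_lt hxz).1 (n1 w hw h), fun h => (w.not_lt hxy).1 (n2 w hw h)⟩

/-- The colour rule, `x` at the bottom: `s` is `y z x`, `t` is `z y x`. -/
theorem colour_aux2 {S : Set (LOrd X)} (hS : IsCD S) {s t u₁ u₂ : LOrd X} (hs : s ∈ S) (ht : t ∈ S)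
    (hu₁ : u₁ ∈ S) (hu₂ : u₂ ∈ S) {x y z : X} (s1 : s.lt y z) (s2 : s.lt z x) (t1 : t.lt z y)
    (t2 : t.lt y x) (a1 : u₁.lt y z) (a2 : u₁.lt x y) (b1 : u₂.lt z y) (b2 : u₂.lt x y) :
    ∀ w ∈ S, (w.lt x y ↔ w.lt x z) := by
  have hxz : z ≠ x := s.ne s2
  have hxy : y ≠ x := t.ne t2
  have n1 : ∀ w ∈ S, w.lt x y → ¬ w.lt z x := fun w hw h1 h2 =>
    hS s hs w hw u₁ hu₁ y z x ⟨⟨s1, s2⟩, ⟨h2, h1⟩, ⟨a2, a1⟩⟩
  have b3 : u₂.lt x z := (u₂.not_lt hxz).1 (n1 u₂ hu₂ b2)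
  have n2 : ∀ w ∈ S, w.lt x z → ¬ w.lt y x := fun w hw h1 h2 =>
    hS t ht w hw u₂ hu₂ z y x ⟨⟨t1, t2⟩, ⟨h2, h1⟩, ⟨b3, b1⟩⟩
  intro w hw
  exact ⟨fun h => (w.not_lt hxz).1 (n1 w hw h), fun h => (w.not_lt hxy).1 (n2 w hw h)⟩

/-- **Colour rule** (blueprint section 7). -/
theorem colour_rule {S : Set (LOrd X)} (hS : MaxCD S) {s t : LOrd X} (h : Edge S s t) {x y z : X}
    (hc : Cross S s t x y) (hyz : Dis s t y z) (hxz : ¬ Dis s t x z) :
    ∀ u ∈ S, (Dis s u x y ↔ Dis s u x z) := by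
  obtain ⟨hxy, ⟨u₁, hu₁, hside₁, hd₁⟩, ⟨u₂, hu₂, hside₂, hd₂⟩⟩ := hc
  have nxy : x ≠ y := hd₁.ne
  have nyz : y ≠ z := hyz.ne
  have nxz : x ≠ z := by rintro rfl; exact hxy hyz.symm
  have e1 := not_dis_iff.1 hxy
  have e2 := not_dis_iff.1 hxz
  have f1 := hside₁ y z hyz
  have f2 := hside₂ y z hyz
  intro u hu
  rw [dis_iff nxy, dis_iff nxz]
  rcases s.total x y nxy with sxy | syx
  · have txy : t.lt x y := e1.1 sxy
    have a2 : u₁.lt y x := by
      rcases hd₁ with h' | h'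
      · exact h'.2
      · exact absurd h'.1 (s.asymm sxy)
    have b2 : u₂.lt y x := by
      rcases hd₂ with h' | h'
      · exact h'.2
      · exact absurd h'.1 (s.asymm sxy)
    rcases hyz with ⟨syz, tzy⟩ | ⟨szy, tyz⟩
    · have sxz : s.lt x z := s.tr sxy syz
      have txz : t.lt x z := e2.1 sxz
      have a1 : u₁.lt y z := (not_dis_iff.1 f1).1 syz
      have b1 : u₂.lt z y := by
        rcases f2 with h' | h'
        · exact h'.2
        · exact absurd h'.1 (s.asymm syz)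
      have := colour_aux1 hS.1 h.1 h.2.1 hu₁ hu₂ sxy syz txz tzy a1 a2 b1 b2 u hu
      have g1 := u.not_lt nxy
      have g2 := u.not_lt nxz
      simp only [sxy, sxz, true_iff]
      rw [g1, g2]
      exact this
    · have txz : t.lt x z := t.tr txy tyz
      have sxz : s.lt x z := e2.2 txz
      have a1 : u₁.lt z y := (not_dis_iff.1 (fun h' => f1 h'.symm)).1 szy
      have b1 : u₂.lt y z := by
        rcases f2 with h' | h'
        · exact absurd h'.1 (s.asymm szy)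
        · exact h'.2
      have := colour_aux1 hS.1 h.2.1 h.1 hu₂ hu₁ txy tyz sxz szy b1 b2 a1 a2 u hu
      have g1 := u.not_lt nxy
      have g2 := u.not_lt nxz
      simp only [sxy, sxz, true_iff]
      rw [g1, g2]
      exact this
  · have nsxy : ¬ s.lt x y := s.asymm syx
    have tyx : t.lt y x := (t.not_lt nxy).1 (fun h' => nsxy (e1.2 h'))
    have a2 : u₁.lt x y := by
      rcases hd₁ with h' | h'
      · exact absurd h'.1 nsxy
      · exact h'.2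
    have b2 : u₂.lt x y := by
      rcases hd₂ with h' | h'
      · exact absurd h'.1 nsxy
      · exact h'.2
    rcases hyz with ⟨syz, tzy⟩ | ⟨szy, tyz⟩
    · have tzx : t.lt z x := t.tr tzy tyx
      have nsxz : ¬ s.lt x z := fun h' => t.asymm tzx (e2.1 h')
      have szx : s.lt z x := (s.not_lt nxz).1 nsxz
      have a1 : u₁.lt y z := (not_dis_iff.1 f1).1 syz
      have b1 : u₂.lt z y := by
        rcases f2 with h' | h'
        · exact h'.2
        · exact absurd h'.1 (s.asymm syz)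
      have := colour_aux2 hS.1 h.1 h.2.1 hu₁ hu₂ syz szx tzy tyx a1 a2 b1 b2 u hu
      simp only [nsxy, nsxz, false_iff, not_not]
      exact this
    · have szx : s.lt z x := s.tr szy syx
      have nsxz : ¬ s.lt x z := s.asymm szx
      have tzx : t.lt z x := (t.not_lt nxz).1 (fun h' => nsxz (e2.2 h'))
      have a1 : u₁.lt z y := (not_dis_iff.1 (fun h' => f1 h'.symm)).1 szy
      have b1 : u₂.lt y z := by
        rcases f2 with h' | h'
        · exact absurd h'.1 (s.asymm szy)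
        · exact h'.2
      have := colour_aux2 hS.1 h.2.1 h.1 hu₂ hu₁ tyz tzx szy syx b1 b2 a1 a2 u hu
      simp only [nsxy, nsxz, false_iff, not_not]
      exact this

end Pool.Agent.CDI
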