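import Pool.Agent.CDI.Base

/-!
# Cube insertion step (blueprint section 3)
-/

namespace Pool.Agent.CDI

open LOrd

variable {X : Type*}

/-- `S` contains a `q`-cube: all orders obtained from a base order `o` by swapping some of the `q`
disjoint adjacent pairs `(a l, b l)`. -/
def HasCube (q : ℕ) (S : Set (LOrd X)) : Prop :=
  ∃ (o : LOrd X) (a b : Fin q → X),
    (∀ l, o.lt (a l) (b l)) ∧
    (∀ l z, ¬ (o.lt (a l) z ∧ o.lt z (b l))) ∧
    (∀ l l', l ≠ l' → a l ≠ a l' ∧ b l ≠ b l' ∧ a l ≠ b l') ∧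
    ∀ f : Fin q → Prop, ∀ u : LOrd X,
      (∀ x y, u.lt x y ↔ ((o.lt x y ∧ ¬ ∃ l, f l ∧ x = a l ∧ y = b l) ∨
        ∃ l, f l ∧ x = b l ∧ y = a l)) → u ∈ S

namespace Cube

/-- Insert the new point `none` just below the initial segment `U` of `r`. -/
def insAt (r : LOrd X) (U : Set X) (hU : ∀ x y, r.lt x y → y ∈ U → x ∈ U) : LOrd (Option X) where
  lt A B := match A, B with
    | some x, some y => r.lt x y
    | some x, none => x ∈ U
    | none, some x => x ∉ U
    | none, none => False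
  irrefl A := by
    cases A
    · simp
    · simp [r.irrefl]
  trans A B C := by
    rcases A with _ | x <;> rcases B with _ | y <;> rcases C with _ | z <;> simp only
    · exact fun h _ => h
    · exact fun h _ => h.elim
    · exact fun h h' => h h'
    · exact fun h h' hz => h (hU _ _ h' hz)
    · exact fun _ h' => h'.elim
    · intro hx hz
      by_contra hxz
      by_cases hne : x = z
      · exact hz (hne ▸ hx)
      · exact hz (hU _ _ ((r.not_lt hne).1 hxz) hx)
    · exact fun h h' => hU _ _ h h'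
    · exact r.trans x y z
  total A B := by
    rcases A with _ | x <;> rcases B with _ | y <;> simp only
    · intro h; exact absurd rfl h
    · intro _; exact (em (y ∈ U)).symm
    · intro _; exact em (x ∈ U)
    · intro h; exact r.total x y (fun h' => h (by rw [h']))

@[simp] theorem insAt_ss (r : LOrd X) (U : Set X) (hU) (x y : X) :
    (insAt r U hU).lt (some x) (some y) ↔ r.lt x y := Iff.rfl
@[simp] theorem insAt_sn (r : LOrd X) (U : Set X) (hU) (x : X) :
    (insAt r U hU).lt (some x) none ↔ x ∈ U := Iff.rfl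
@[simp] theorem insAt_ns (r : LOrd X) (U : Set X) (hU) (x : X) :
    (insAt r U hU).lt none (some x) ↔ x ∉ U := Iff.rfl

/-- The new point on top. -/
def top (r : LOrd X) : LOrd (Option X) := insAt r ∅ (fun _ _ _ h => h)

@[simp] theorem top_ss (r : LOrd X) (x y : X) : (top r).lt (some x) (some y) ↔ r.lt x y := Iff.rfl
@[simp] theorem top_ns (r : LOrd X) (x : X) : (top r).lt none (some x) := by simp [top]
@[simp] theorem top_sn (r : LOrd X) (x : X) : ¬ (top r).lt (some x) none := by simp [top]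

/-- The restriction to the old points. -/
def old (u : LOrd (Option X)) : LOrd X := u.comap some (Option.some_injective X)

@[simp] theorem old_lt (u : LOrd (Option X)) (x y : X) :
    (old u).lt x y ↔ u.lt (some x) (some y) := Iff.rfl

@[simp] theorem old_insAt (r : LOrd X) (U : Set X) (hU) : old (insAt r U hU) = r := by
  ext x y; simp

@[simp] theorem old_top (r : LOrd X) : old (top r) = r := by
  ext x y; simp

/-- An order with `none` above everything is `top` of its restriction. -/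
theorem eq_top (u : LOrd (Option X)) (h : ∀ x, u.lt none (some x)) : u = top (old u) := by
  refine ext_imp ?_
  intro A B hAB
  rcases A with _ | x <;> rcases B with _ | y
  · exact (u.irrefl _ hAB).elim
  · simp
  · exact (u.asymm hAB (h x)).elim
  · simpa using hAB

open Classical in
/-- The order with the adjacent pair `a b` swapped. -/
noncomputable def sw (o : LOrd X) (a b : X) : LOrd X :=
  o.comap (Equiv.swap a b) (Equiv.swap a b).injective

theorem sw_lt {o : LOrd X} {a b : X} (hab : o.lt a b) (hadj : ∀ z, ¬ (o.lt a z ∧ o.lt z b))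
    (x y : X) : (sw o a b).lt x y ↔ (o.lt x y ∧ ¬ (x = a ∧ y = b)) ∨ (x = b ∧ y = a) := by
  classical
  have hne : a ≠ b := o.ne hab
  have h1 : ∀ z, z ≠ a → z ≠ b → (o.lt a z ↔ o.lt b z) := by
    intro z h1 h2
    constructor
    · intro h
      by_contra hc
      exact hadj z ⟨h, (o.not_lt (Ne.symm h2)).1 hc⟩
    · intro h; exact o.tr hab h
  have h2 : ∀ z, z ≠ a → z ≠ b → (o.lt z a ↔ o.lt z b) := by
    intro z h1 h2
    constructor
    · intro h; exact o.tr h hab
    · intro h
      by_contra hc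
      exact hadj z ⟨(o.not_lt h1).1 hc, h⟩
  have hba : ¬ o.lt b a := o.asymm hab
  simp only [sw, comap_lt]
  by_cases hxa : x = a
  · subst hxa
    rw [Equiv.swap_apply_left]
    by_cases hya : y = x
    · subst hya; simp [o.irrefl, hne]
    · by_cases hyb : y = b
      · subst hyb; simp [hba, hya]
      · rw [Equiv.swap_apply_of_ne_of_ne hya hyb, ← h1 y hya hyb]
        simp [hyb, hne]
  · by_cases hxb : x = b
    · subst hxb
      rw [Equiv.swap_apply_right]
      by_cases hya : y = a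
      · subst hya; simp [hab]
      · by_cases hyb : y = x
        · subst hyb; simp [o.irrefl, hya]
        · rw [Equiv.swap_apply_of_ne_of_ne hya hyb, h1 y hya hyb]
          simp [hxa, hya]
    · rw [Equiv.swap_apply_of_ne_of_ne hxa hxb]
      by_cases hya : y = a
      · subst hya
        rw [Equiv.swap_apply_left, ← h2 x hxa hxb]
        simp [hxa, hxb]
      · by_cases hyb : y = b
        · subst hyb
          rw [Equiv.swap_apply_right, h2 x hxa hxb]
          simp [hxa, hya]
        · rw [Equiv.swap_apply_of_ne_of_ne hya hyb]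
          simp [hxa, hxb]

/-- A cube with a base order in `S`. -/
structure Data {q : ℕ} (S : Set (LOrd X)) (o : LOrd X) (a b : Fin q → X) : Prop where
  hab : ∀ l, o.lt (a l) (b l)
  hadj : ∀ l z, ¬ (o.lt (a l) z ∧ o.lt z (b l))
  hdis : ∀ l l', l ≠ l' → a l ≠ a l' ∧ b l ≠ b l' ∧ a l ≠ b l'
  hmem : ∀ f : Fin q → Prop, ∀ u : LOrd X,
      (∀ x y, u.lt x y ↔ ((o.lt x y ∧ ¬ ∃ l, f l ∧ x = a l ∧ y = b l) ∨
        ∃ l, f l ∧ x = b l ∧ y = a l)) → u ∈ S

variable {q : ℕ} {S : Set (LOrd X)} {o : LOrd X} {a b : Fin q → X}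

theorem Data.base (h : Data S o a b) : o ∈ S := by
  refine h.hmem (fun _ => False) o ?_
  intro x y; simp

theorem Data.swap (h : Data S o a b) (l : Fin q) : sw o (a l) (b l) ∈ S := by
  refine h.hmem (fun l' => l' = l) _ ?_
  intro x y
  rw [sw_lt (h.hab l) (h.hadj l)]
  simp

/-- Up-set of the order with `*` between `a l` and `b l`. -/
def U1 (o : LOrd X) (b : X) : Set X := {x | o.lt x b}

/-- Up-set for `*` just below the swapped pair. -/
def U2 (o : LOrd X) (b : X) : Set X := {x | x = b ∨ o.lt x b}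

theorem hU1 (o : LOrd X) (b : X) : ∀ x y, o.lt x y → y ∈ U1 o b → x ∈ U1 o b :=
  fun _ _ h h' => o.tr h h'

theorem hU2 {a b : X} (hab : o.lt a b) (hadj : ∀ z, ¬ (o.lt a z ∧ o.lt z b)) :
    ∀ x y, (sw o a b).lt x y → y ∈ U2 o b → x ∈ U2 o b := by
  intro x y h h'
  rw [sw_lt hab hadj] at h
  rcases h with ⟨h, -⟩ | ⟨rfl, -⟩
  · rcases h' with rfl | h'
    · exact Or.inr h
    · exact Or.inr (o.tr h h')
  · exact Or.inl rfl

/-- The domain `S_J`. -/
def SJ (h : Data S o a b) (J : Set (Fin q)) : Set (LOrd (Option X)) :=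
  {u | (∃ r ∈ S, u = top r) ∨ (∃ l ∈ J, u = insAt o (U1 o (b l)) (hU1 o (b l))) ∨
    (∃ l, l ∉ J ∧ u = insAt (sw o (a l) (b l)) (U2 o (b l)) (hU2 (h.hab l) (h.hadj l)))}

theorem SJ_old (h : Data S o a b) (J : Set (Fin q)) {u : LOrd (Option X)} (hu : u ∈ SJ h J) :
    old u ∈ S := by
  rcases hu with ⟨r, hr, rfl⟩ | ⟨l, _, rfl⟩ | ⟨l, _, rfl⟩
  · rwa [old_top]
  · rw [old_insAt]; exact h.base
  · rw [old_insAt]; exact h.swap l

/-- No Latin triple through the new point. -/
theorem no_latin (h : Data S o a b) (J : Set (Fin q)) {v w : LOrd (Option X)}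
    (hv : v ∈ SJ h J) (hw : w ∈ SJ h J) (x y : X) (hv1 : v.lt (some x) (some y))
    (hv2 : v.lt (some y) none) (hw1 : w.lt (some y) none) (hw2 : w.lt none (some x)) : False := by
  have hyx : w.lt (some y) (some x) := w.tr hw1 hw2
  rcases hw with ⟨r, hr, rfl⟩ | ⟨l, hl, rfl⟩ | ⟨l, hl, rfl⟩
  · exact top_sn _ _ hw1
  · -- `w = o` with `*` between `a l`, `b l`
    simp only [insAt_ss, insAt_sn, insAt_ns, U1, Set.mem_ofPred_eq] at hyx hw1 hw2
    rcases hv with ⟨r, hr, rfl⟩ | ⟨m, hm, rfl⟩ | ⟨m, hm, rfl⟩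
    · exact top_sn _ _ hv2
    · exact o.asymm hv1 hyx
    · rw [insAt_ss, sw_lt (h.hab m) (h.hadj m)] at hv1
      rcases hv1 with ⟨h1, -⟩ | ⟨rfl, rfl⟩
      · exact o.asymm h1 hyx
      · -- `y = a m`, `x = b m`
        have hlm : l ≠ m := by rintro rfl; exact hm hl
        have h3 : b m ≠ b l := fun hc => (h.hdis l m hlm).2.1 hc.symm
        have h4 : o.lt (b l) (b m) := (o.not_lt h3).1 hw2
        exact h.hadj m (b l) ⟨hw1, h4⟩
  · simp only [insAt_ss, insAt_sn, insAt_ns, U2, Set.mem_ofPred_eq, not_or] at hyx hw1 hw2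
    have h5 : o.lt (b l) x := (o.not_lt hw2.1).1 hw2.2
    have h6 : o.lt y x := by
      rcases hw1 with rfl | hw1
      · exact h5
      · exact o.tr hw1 h5
    rcases hv with ⟨r, hr, rfl⟩ | ⟨m, hm, rfl⟩ | ⟨m, hm, rfl⟩
    · exact top_sn _ _ hv2
    · exact o.asymm hv1 h6
    · rw [insAt_ss, sw_lt (h.hab m) (h.hadj m)] at hv1
      rcases hv1 with ⟨h1, -⟩ | ⟨rfl, rfl⟩
      · exact o.asymm h1 h6
      · rcases hw1 with h7 | h7
        · by_cases hml : m = l
          · subst hml; exact o.ne (h.hab m) h7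
          · exact (h.hdis m l hml).2.2 h7
        · exact h.hadj m (b l) ⟨h7, h5⟩

theorem SJ_cd (hS : IsCD S) (h : Data S o a b) (J : Set (Fin q)) : IsCD (SJ h J) := by
  intro u hu v hv w hw A B C hL
  rcases A with _ | x
  · rcases B with _ | y
    · exact u.irrefl _ hL.1.1
    · rcases C with _ | z
      · exact v.irrefl _ hL.2.1.2 |>.elim
      · -- u : * y z, v : y z *, w : z * y
        exact no_latin h J hv hw y z hL.2.1.1 hL.2.1.2 hL.2.2.1 hL.2.2.2
  · rcases B with _ | y
    · rcases C with _ | z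
      · exact u.irrefl _ hL.1.2
      · -- rotate: (none, z, x): v : * z x, w : z x *, u : x * z
        exact no_latin h J hw hu z x hL.2.2.1 hL.2.2.2 hL.1.1 hL.1.2
    · rcases C with _ | z
      · -- (none, x, y): w : * x y, u : x y *, v : y * x
        exact no_latin h J hu hv x y hL.1.1 hL.1.2 hL.2.1.1 hL.2.1.2
      · exact hS _ (SJ_old h J hu) _ (SJ_old h J hv) _ (SJ_old h J hw) x y z hL

/-- Restriction of a domain containing all `top r`. -/
theorem old_image (hS : MaxCD S) {E : Set (LOrd (Option X))} (hE : IsCD E)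
    (hSE : ∀ r ∈ S, top r ∈ E) : old '' E = S := by
  refine hS.eq_of_subset ?_ ?_
  · rintro _ ⟨r, hr, rfl⟩ _ ⟨s, hs, rfl⟩ _ ⟨t, ht, rfl⟩ x y z hL
    exact hE r hr s hs t ht (some x) (some y) (some z) hL
  · intro r hr
    exact ⟨top r, hSE r hr, old_top r⟩

theorem hasCube_ext (h : Data S o a b) {E : Set (LOrd (Option X))}
    (hSE : ∀ r ∈ S, top r ∈ E) : HasCube q E := by
  refine ⟨top o, fun l => some (a l), fun l => some (b l), fun l => by simpa using h.hab l, ?_,
    ?_, ?_⟩
  · rintro l (_ | z)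
    · rintro ⟨h1, -⟩; exact top_sn _ _ h1
    · simpa using h.hadj l z
  · intro l l' hll
    have := h.hdis l l' hll
    simpa using this
  · intro f u hu
    have h1 : ∀ x, u.lt none (some x) := by
      intro x
      rw [hu]
      left
      simp
    rw [eq_top u h1]
    refine hSE _ (h.hmem f _ ?_)
    intro x y
    rw [old_lt, hu]
    simp

/-- `J` can be read off. -/
theorem mem_J_iff (h : Data S o a b) (J : Set (Fin q)) {E : Set (LOrd (Option X))} (hE : IsCD E)
    (hJE : SJ h J ⊆ E) (l : Fin q) :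
    l ∈ J ↔ ∃ r ∈ E, r.lt (some (a l)) none ∧ r.lt none (some (b l)) := by
  constructor
  · intro hl
    refine ⟨_, hJE (Or.inr (Or.inl ⟨l, hl, rfl⟩)), ?_, ?_⟩
    · simpa [U1] using h.hab l
    · simpa [U1] using o.irrefl (b l)
  · rintro ⟨r, hr, h1, h2⟩
    by_contra hl
    have h3 : insAt (sw o (a l) (b l)) (U2 o (b l)) (hU2 (h.hab l) (h.hadj l)) ∈ E :=
      hJE (Or.inr (Or.inr ⟨l, hl, rfl⟩))
    have h4 : top (sw o (a l) (b l)) ∈ E := hJE (Or.inl ⟨_, h.swap l, rfl⟩)
    have h5 : (sw o (a l) (b l)).lt (b l) (a l) := by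
      rw [sw_lt (h.hab l) (h.hadj l)]; exact Or.inr ⟨rfl, rfl⟩
    refine hE _ h3 _ hr _ h4 (some (b l)) (some (a l)) none ⟨⟨?_, ?_⟩, ⟨h1, h2⟩, ⟨?_, ?_⟩⟩
    · simpa using h5
    · simpa [U2] using Or.inr (h.hab l)
    · simp
    · simpa using h5

end Cube

open Pool.Agent.CDI.Cube in
/-- One insertion step: blueprint section 3. -/
theorem cube_step {X : Type*} [Finite X] (q : ℕ) :
    2 ^ q * Nat.card {S : Set (LOrd X) // MaxCD S ∧ HasCube q S} ≤
      Nat.card {S : Set (LOrd (Option X)) // MaxCD S ∧ HasCube q S} := by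
  classical
  -- chosen cubes
  have hc : ∀ S : {S : Set (LOrd X) // MaxCD S ∧ HasCube q S},
      ∃ (o : LOrd X) (a b : Fin q → X), Data S.1 o a b := by
    rintro ⟨S, hS, o, a, b, h1, h2, h3, h4⟩
    exact ⟨o, a, b, h1, h2, h3, h4⟩
  choose o a b hD using hc
  have hE : ∀ p : Set (Fin q) × {S : Set (LOrd X) // MaxCD S ∧ HasCube q S},
      ∃ E : Set (LOrd (Option X)), MaxCD E ∧ SJ (hD p.2) p.1 ⊆ E :=
    fun p => (SJ_cd p.2.2.1.1 (hD p.2) p.1).exists_max
  choose E hmax hsub using hE
  have htop : ∀ p r, r ∈ p.2.1 → top r ∈ E p := fun p r hr => hsub p (Or.inl ⟨r, hr, rfl⟩)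
  have hcube : ∀ p, HasCube q (E p) := fun p => hasCube_ext (hD p.2) (htop p)
  let F : Set (Fin q) × {S : Set (LOrd X) // MaxCD S ∧ HasCube q S} →
      {S : Set (LOrd (Option X)) // MaxCD S ∧ HasCube q S} := fun p => ⟨E p, hmax p, hcube p⟩
  have hF : Function.Injective F := by
    rintro ⟨J, S⟩ ⟨J', S'⟩ h
    have h1 : E (J, S) = E (J', S') := congrArg Subtype.val h
    have h2 : S = S' := by
      apply Subtype.ext
      rw [← old_image S.2.1 (hmax (J, S)).1 (htop (J, S)),
        ← old_image S'.2.1 (hmax (J', S')).1 (htop (J', S')), h1]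
    subst h2
    have h3 : J = J' := by
      ext l
      rw [mem_J_iff (hD S) J (hmax (J, S)).1 (hsub (J, S)) l,
        mem_J_iff (hD S) J' (hmax (J', S)).1 (hsub (J', S)) l, h1]
    rw [h3]
  have := Nat.card_le_card_of_injective F hF
  rwa [Nat.card_prod, Nat.card_eq_fintype_card (α := Set (Fin q)), Fintype.card_set,
    Fintype.card_fin] at this

end Pool.Agent.CDI
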