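import Pool.Agent.CDI.Block

/-!
# Reducible domains are substitutions (blueprint section 1)
-/

namespace Pool.Agent.CDI

open LOrd

variable {X : Type*}

namespace Decomp

theorem conv_lt {r : LOrd X} {B : Set X} (h : r.Conv B) {y y' z : X} (hy : y ∈ B) (hy' : y' ∈ B)
    (hz : z ∉ B) (h1 : r.lt y z) : r.lt y' z := by
  have hne : z ≠ y' := fun h' => hz (h' ▸ hy')
  by_contra hc
  have h2 : r.lt z y' := (r.not_lt hne.symm).1 hc
  exact hz (h y hy y' hy' z h1 h2)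

theorem conv_gt {r : LOrd X} {B : Set X} (h : r.Conv B) {y y' z : X} (hy : y ∈ B) (hy' : y' ∈ B)
    (hz : z ∉ B) (h1 : r.lt z y) : r.lt z y' := by
  have hne : z ≠ y' := fun h' => hz (h' ▸ hy')
  by_contra hc
  have h2 : r.lt y' z := (r.not_lt hne).1 hc
  exact hz (h y' hy' y hy z h2 h1)

/-- The combined bijection. -/
theorem exists_comb [Finite X] {B B' : Set X} {y y' : X} (hy : y ∈ B)
    (φ : ↥(insert y Bᶜ) ≃ ↥(insert y' B'ᶜ)) (ψ : ↥B ≃ ↥B')
    (hφ : φ ⟨y, Set.mem_insert _ _⟩ = ⟨y', Set.mem_insert _ _⟩) :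
    ∃ τ : X ≃ X, (∀ x (hx : x ∈ B), τ x = ψ ⟨x, hx⟩) ∧
      (∀ x (hx : x ∉ B), τ x = φ ⟨x, Set.mem_insert_of_mem _ hx⟩) ∧
      (∀ x, τ x ∈ B' ↔ x ∈ B) := by
  classical
  let f : X → X := fun x => if hx : x ∈ B then ψ ⟨x, hx⟩ else φ ⟨x, Set.mem_insert_of_mem _ hx⟩
  have f1 : ∀ x (hx : x ∈ B), f x = ψ ⟨x, hx⟩ := fun x hx => by simp [f, hx]
  have f2 : ∀ x (hx : x ∉ B), f x = φ ⟨x, Set.mem_insert_of_mem _ hx⟩ := fun x hx => by
    simp [f, hx]
  have m1 : ∀ x, x ∈ B → f x ∈ B' := fun x hx => by rw [f1 x hx]; exact (ψ ⟨x, hx⟩).2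
  have m2 : ∀ x, x ∉ B → f x ∉ B' := by
    intro x hx
    rw [f2 x hx]
    have h1 := (φ ⟨x, Set.mem_insert_of_mem _ hx⟩).2
    rcases h1 with h1 | h1
    · exfalso
      have h2 : φ ⟨x, Set.mem_insert_of_mem _ hx⟩ = φ ⟨y, Set.mem_insert _ _⟩ := by
        rw [hφ]; exact Subtype.ext h1
      have h3 := congrArg Subtype.val (φ.injective h2)
      simp only at h3
      exact hx (h3 ▸ hy)
    · exact h1
  have hinj : Function.Injective f := by
    intro a b hab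
    by_cases ha : a ∈ B <;> by_cases hb : b ∈ B
    · rw [f1 a ha, f1 b hb] at hab
      have := congrArg Subtype.val (ψ.injective (Subtype.ext hab))
      exact this
    · exact absurd (hab ▸ m1 a ha) (m2 b hb)
    · exact absurd (hab ▸ m2 a ha) (not_not.2 (m1 b hb))
    · rw [f2 a ha, f2 b hb] at hab
      have := congrArg Subtype.val (φ.injective (Subtype.ext hab))
      exact this
  refine ⟨Equiv.ofBijective f ((Finite.injective_iff_bijective).1 hinj), f1, f2, ?_⟩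
  intro x
  constructor
  · intro h
    by_contra hx
    exact m2 x hx h
  · exact m1 x

/-- Two reducible domains with isomorphic pieces are isomorphic. -/
theorem iso_of_pieces [Finite X] {S S' : Set (LOrd X)} (hS : MaxCD S) (hS' : MaxCD S')
    {B B' : Set X} (hB : ∀ r ∈ S, r.Conv B) (hB' : ∀ r ∈ S', r.Conv B')
    {y y' : X} (hy : y ∈ B) (hy' : y' ∈ B')
    (φ : ↥(insert y Bᶜ) ≃ ↥(insert y' B'ᶜ)) (ψ : ↥B ≃ ↥B')
    (hφ : φ ⟨y, Set.mem_insert _ _⟩ = ⟨y', Set.mem_insert _ _⟩)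
    (h1 : LOrd.map φ '' (LOrd.restr (insert y Bᶜ) '' S) = LOrd.restr (insert y' B'ᶜ) '' S')
    (h2 : LOrd.map ψ '' (LOrd.restr B '' S) = LOrd.restr B' '' S') :
    ∃ τ : X ≃ X, S' = LOrd.map τ '' S := by
  obtain ⟨τ, t1, t2, t3⟩ := exists_comb hy φ ψ hφ
  refine ⟨τ, (maxCD_image τ hS).eq_of_subset hS'.1 ?_⟩
  rintro _ ⟨r, hr, rfl⟩
  have hc := hB r hr
  rw [(block_structure hS' hB' hy').2.2]
  have t4 : ∀ x, τ.symm x ∈ B ↔ x ∈ B' := fun x => by rw [← t3, Equiv.apply_symm_apply]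
  have s1 : ∀ b : ↥B', (τ.symm b.1) = (ψ.symm b).1 := by
    intro b
    rw [Equiv.symm_apply_eq, t1 _ (ψ.symm b).2]
    simp
  have s2 : ∀ b : ↥(insert y' B'ᶜ), b.1 ∉ B' → τ.symm b.1 = (φ.symm b).1 := by
    intro b hb
    have hb' : (φ.symm b).1 ∉ B := by
      intro h
      have h3 := (φ.symm b).2
      rcases h3 with h3 | h3
      · have h4 : φ.symm b = ⟨y, Set.mem_insert _ _⟩ := Subtype.ext h3
        rw [Equiv.symm_apply_eq, hφ] at h4
        rw [h4] at hb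
        exact hb hy'
      · exact h3 h
    rw [Equiv.symm_apply_eq, t2 _ hb']
    simp
  refine ⟨?_, ?_, ?_⟩
  · intro x hx z hz w hxw hwz
    rw [LOrd.map_lt] at hxw hwz
    rw [← t4] at hx hz ⊢
    exact hc _ hx _ hz _ hxw hwz
  · rw [← h1]
    refine ⟨LOrd.restr _ r, ⟨r, hr, rfl⟩, ?_⟩
    apply LOrd.ext_imp
    intro a b hab
    rw [LOrd.map_lt, LOrd.restr_lt] at hab
    rw [LOrd.restr_lt, LOrd.map_lt]
    have key : ∀ c : ↥(insert y' B'ᶜ), c.1 ∈ B' → (φ.symm c).1 = y ∧ τ.symm c.1 ∈ B := by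
      intro c hc'
      refine ⟨?_, (t4 _).2 hc'⟩
      have h3 := c.2
      rcases h3 with h3 | h3
      · have h4 : c = ⟨y', Set.mem_insert _ _⟩ := Subtype.ext h3
        rw [h4, ← hφ]
        simp
      · exact absurd hc' h3
    by_cases ha : a.1 ∈ B' <;> by_cases hb : b.1 ∈ B'
    · obtain ⟨k1, -⟩ := key a ha
      obtain ⟨k2, -⟩ := key b hb
      rw [k1, k2] at hab
      exact absurd hab (r.irrefl _)
    · obtain ⟨k1, k2⟩ := key a ha
      rw [k1, ← s2 b hb] at hab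
      exact conv_lt hc hy k2 (fun h => hb ((t4 _).1 h)) hab
    · obtain ⟨k1, k2⟩ := key b hb
      rw [k1, ← s2 a ha] at hab
      exact conv_gt hc hy k2 (fun h => ha ((t4 _).1 h)) hab
    · rw [← s2 a ha, ← s2 b hb] at hab
      exact hab
  · rw [← h2]
    refine ⟨LOrd.restr _ r, ⟨r, hr, rfl⟩, ?_⟩
    apply LOrd.ext_imp
    intro a b hab
    rw [LOrd.map_lt, LOrd.restr_lt] at hab
    rw [LOrd.restr_lt, LOrd.map_lt, s1, s1]
    exact hab

/-- The relation between a reducible class and its code. -/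
def Code {n : ℕ} (q : Cls n) (b : ℕ) (i : Fin (n - b + 1)) (q1 : Cls (n - b + 1)) (q2 : Cls b) :
    Prop :=
  ∃ (S : DomM n) (B : Set (Fin n)) (y : Fin n) (_ : y ∈ B)
    (α : Fin (n - b + 1) ≃ ↥(insert y Bᶜ)) (β : Fin b ≃ ↥B),
    Quotient.mk (isoSetoid n) S = q ∧ (∀ r ∈ S.1, r.Conv B) ∧
    α i = ⟨y, Set.mem_insert _ _⟩ ∧
    LOrd.map α '' (Quotient.out q1).1 = LOrd.restr (insert y Bᶜ) '' S.1 ∧
    LOrd.map β '' (Quotient.out q2).1 = LOrd.restr B '' S.1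

theorem Code.unique {n : ℕ} {q q' : Cls n} {b : ℕ} {i : Fin (n - b + 1)} {q1 : Cls (n - b + 1)}
    {q2 : Cls b} (h : Code q b i q1 q2) (h' : Code q' b i q1 q2) : q = q' := by
  obtain ⟨S, B, y, hy, α, β, hq, hB, hi, h1, h2⟩ := h
  obtain ⟨S', B', y', hy', α', β', hq', hB', hi', h1', h2'⟩ := h'
  rw [← hq, ← hq', iso_iff]
  refine iso_of_pieces S.2 S'.2 hB hB' hy hy' (α.symm.trans α') (β.symm.trans β') ?_ ?_ ?_
  · rw [Equiv.trans_apply, ← hi, Equiv.symm_apply_apply, hi']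
  · rw [← h1, ← h1', image_map_map]
    congr 2
    ext x
    simp
  · rw [← h2, ← h2', image_map_map]
    congr 2
    ext x
    simp

theorem exists_rep {A : Type*} [Finite A] {T : Set (LOrd A)} (hT : MaxCD T) {p : ℕ}
    (hp : Nat.card A = p) :
    ∃ (q : Cls p) (α : Fin p ≃ A), LOrd.map α '' (Quotient.out q).1 = T := by
  obtain ⟨α₀⟩ : Nonempty (Fin p ≃ A) := ⟨(Finite.equivFinOfCardEq hp).symm⟩
  let C : DomM p := ⟨LOrd.map α₀.symm '' T, maxCD_image _ hT⟩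
  have h := Quotient.out_eq (Quotient.mk (isoSetoid p) C)
  obtain ⟨π, hπ⟩ := (iso_iff _ _).1 h
  refine ⟨Quotient.mk (isoSetoid p) C, π.trans α₀, ?_⟩
  rw [← image_map_map, ← hπ]
  exact image_image_symm _ _

theorem exists_code {n : ℕ} (q : Cls n)
    (h : ∃ S : DomM n, Quotient.mk (isoSetoid n) S = q ∧ Reducible S.1) :
    ∃ b ∈ Finset.Icc 2 (n - 1), ∃ i q1 q2, Code q b i q1 q2 := by
  obtain ⟨S, hq, B, hne, h2, hB⟩ := h
  have hpos : 0 < B.ncard := by omega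
  obtain ⟨y, hy⟩ := (Set.ncard_pos).1 hpos
  have hlt : B.ncard < n := by
    have h3 : B ⊂ Set.univ := Set.ssubset_univ_iff.2 hne
    have h4 := Set.ncard_lt_ncard h3
    rwa [Set.ncard_univ, Nat.card_fin] at h4
  have hc : (insert y Bᶜ).ncard = n - B.ncard + 1 := by
    have h5 : y ∉ Bᶜ := fun h => h hy
    rw [Set.ncard_insert_of_notMem h5 (Set.toFinite _), Set.ncard_compl, Nat.card_fin]
  obtain ⟨b1, b2, -⟩ := block_structure S.2 hB hy
  obtain ⟨q1, α, hα⟩ := exists_rep b1 (p := n - B.ncard + 1) (by rw [← hc]; rfl)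
  obtain ⟨q2, β, hβ⟩ := exists_rep b2 (p := B.ncard) rfl
  refine ⟨B.ncard, Finset.mem_Icc.2 ⟨h2, by omega⟩, α.symm ⟨y, Set.mem_insert _ _⟩, q1, q2,
    S, B, y, hy, α, β, hq, hB, by simp, hα, hβ⟩

end Decomp

/-- The number of reducible classes. -/
theorem rr_le (n : ℕ) :
    rr n ≤ ∑ b ∈ Finset.Icc 2 (n - 1), (n - b + 1) * mm (n - b + 1) * mm b := by
  classical
  have hcode : ∀ q : {q : Cls n // ∃ S : DomM n, Quotient.mk (isoSetoid n) S = q ∧
      Reducible S.1}, ∃ c : (Σ b : ↥(Finset.Icc 2 (n - 1)),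
        Fin (n - b.1 + 1) × Cls (n - b.1 + 1) × Cls b.1),
        Decomp.Code q.1 c.1.1 c.2.1 c.2.2.1 c.2.2.2 := by
    rintro ⟨q, hq⟩
    obtain ⟨b, hb, i, q1, q2, h⟩ := Decomp.exists_code q hq
    exact ⟨⟨⟨b, hb⟩, i, q1, q2⟩, h⟩
  choose f hf using hcode
  have hinj : Function.Injective f := by
    intro q q' h
    have h1 := hf q
    rw [h] at h1
    exact Subtype.ext (h1.unique (hf q'))
  have h1 := Nat.card_le_card_of_injective f hinj
  unfold rr
  refine h1.trans (le_of_eq ?_)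
  rw [Nat.card_sigma, ← Finset.sum_coe_sort (Finset.Icc 2 (n - 1))]
  refine Finset.sum_congr rfl fun b _ => ?_
  rw [Nat.card_prod, Nat.card_prod, Nat.card_fin, mul_assoc]
  rfl

end Pool.Agent.CDI
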