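import Pool.Agent.CDI.CardLL

/-!
# Elementary relations between `mm`, `LL`, `Oo`
-/

namespace Pool.Agent.CDI

open LOrd

theorem Oo_eq {n : ℕ} (S : DomM n) : Oo (Quotient.mk (isoSetoid n) S) =
    Set.ncard {T : Set (LOrd (Fin n)) | idOrd n ∈ T ∧
      ∃ π : Equiv.Perm (Fin n), T = LOrd.map π '' S.1} := by
  rw [← Nat.card_coe_set_eq]
  refine Nat.card_congr ?_
  exact
    { toFun := fun T => ⟨T.1.1, T.2.2, (iso_iff S T.1).1 T.2.1.symm⟩
      invFun := fun T => ⟨⟨T.1, by
        obtain ⟨π, hπ⟩ := T.2.2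
        rw [hπ]
        exact maxCD_image π S.2⟩, ((iso_iff S _).2 T.2.2).symm, T.2.1⟩
      left_inv := fun T => rfl
      right_inv := fun T => rfl }

theorem Oo_pos {n : ℕ} (q : Cls n) : 1 ≤ Oo q := by
  obtain ⟨S, rfl⟩ := Quotient.exists_rep q
  have hne : Nonempty (LOrd (Fin n)) := ⟨idOrd n⟩
  obtain ⟨r, hr⟩ := S.2.nonempty
  obtain ⟨e, he⟩ := exists_map_eq_idOrd r (n := n) (by simp)
  have hfin : Finite {S' : DomM n // Quotient.mk (isoSetoid n) S' = Quotient.mk (isoSetoid n) S ∧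
      idOrd n ∈ S'.1} := inferInstance
  have hnon : Nonempty {S' : DomM n // Quotient.mk (isoSetoid n) S' = Quotient.mk (isoSetoid n) S ∧
      idOrd n ∈ S'.1} := by
    refine ⟨⟨⟨LOrd.map e '' S.1, maxCD_image e S.2⟩, ?_, ?_⟩⟩
    · exact ((iso_iff S _).2 ⟨e, rfl⟩).symm
    · rw [← he]
      exact Set.mem_image_of_mem _ hr
  exact Nat.card_pos

theorem mm_pos (n : ℕ) : 1 ≤ mm n := by
  obtain ⟨T, hT, -⟩ := (isCD_singleton (idOrd n)).exists_max
  have : Nonempty (Cls n) := ⟨Quotient.mk (isoSetoid n) ⟨T, hT⟩⟩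
  exact Nat.card_pos

open Classical in
theorem LL_eq_sum (n : ℕ) : LL n = ∑ᶠ q : Cls n, Oo q := by
  have : Fintype (Cls n) := Fintype.ofFinite _
  rw [finsum_eq_sum_of_fintype]
  have h1 : LL n = Nat.card (Σ q : Cls n, {S : DomM n // Quotient.mk (isoSetoid n) S = q ∧
      idOrd n ∈ S.1}) := by
    refine Nat.card_congr ?_
    exact
      { toFun := fun S => ⟨Quotient.mk (isoSetoid n) S.1, S.1, rfl, S.2⟩
        invFun := fun S => ⟨S.2.1, S.2.2.2⟩
        left_inv := fun S => rfl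
        right_inv := by
          rintro ⟨q, S, rfl, hS⟩
          rfl }
  rw [h1, Nat.card_sigma]
  rfl

theorem mm_le_LL (n : ℕ) : mm n ≤ LL n := by
  classical
  have : Fintype (Cls n) := Fintype.ofFinite _
  rw [LL_eq_sum, finsum_eq_sum_of_fintype, mm, Nat.card_eq_fintype_card, Fintype.card_eq_sum_ones]
  exact Finset.sum_le_sum fun q _ => Oo_pos q

/-- If at most half of the classes have `Oo q ≤ x`, then `x * mm n ≤ 2 * LL n`. -/
theorem LL_ge (n x : ℕ) (h : 2 * Nat.card {q : Cls n // Oo q ≤ x} ≤ mm n) :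
    x * mm n ≤ 2 * LL n := by
  classical
  have : Fintype (Cls n) := Fintype.ofFinite _
  have h1 : Nat.card {q : Cls n // Oo q ≤ x} =
      (Finset.univ.filter fun q : Cls n => Oo q ≤ x).card := by
    rw [Nat.card_eq_fintype_card, Fintype.card_subtype]
  have h2 : mm n = (Finset.univ.filter fun q : Cls n => Oo q ≤ x).card +
      (Finset.univ.filter fun q : Cls n => ¬ Oo q ≤ x).card := by
    rw [Finset.card_filter_add_card_filter_not, Finset.card_univ, mm, Nat.card_eq_fintype_card]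
  have h3 : (Finset.univ.filter fun q : Cls n => ¬ Oo q ≤ x).card * x ≤ LL n := by
    rw [LL_eq_sum, finsum_eq_sum_of_fintype]
    calc (Finset.univ.filter fun q : Cls n => ¬ Oo q ≤ x).card * x ≤
        ∑ q ∈ Finset.univ.filter (fun q : Cls n => ¬ Oo q ≤ x), Oo q := by
          rw [← smul_eq_mul]
          refine Finset.card_nsmul_le_sum _ _ _ fun q hq => ?_
          have := (Finset.mem_filter.1 hq).2
          omega
      _ ≤ ∑ q, Oo q := Finset.sum_le_univ_sum_of_nonneg (fun q => Nat.zero_le _)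
  rw [h1] at h
  have h4 : mm n ≤ 2 * (Finset.univ.filter fun q : Cls n => ¬ Oo q ≤ x).card := by omega
  calc x * mm n ≤ x * (2 * (Finset.univ.filter fun q : Cls n => ¬ Oo q ≤ x).card) :=
        Nat.mul_le_mul_left _ h4
    _ = 2 * ((Finset.univ.filter fun q : Cls n => ¬ Oo q ≤ x).card * x) := by ring
    _ ≤ 2 * LL n := Nat.mul_le_mul_left _ h3

end Pool.Agent.CDI
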