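import Pool.Agent.CDI.Cnt
import Pool.Agent.CDI.LLBase

/-!
# Few classes have few orbits (blueprint section 12)
-/

namespace Pool.Agent.CDI

open LOrd

/-- Few classes with few orbits. -/
theorem few (m x L R : ℕ) (hm : 1 ≤ m) (hL : m.factorial ≤ 2 ^ L)
    (hR : 3 * (x + L) * m ^ 2 ≤ R ^ 2) :
    Nat.card {q : Cls m // Oo q ≤ x} ≤
      (x + L + 1) ^ (x + L + 1) * (((x + L + 1) ^ 2 * (m + 1)) ^ (x + L) * m ^ (x + L + R)) := by
  classical
  set V : Set (Fin (x + L + 1) → LOrd (Fin m)) := {v | v 0 = idOrd m ∧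
      ∃ S : Set (LOrd (Fin m)), MaxCD S ∧ TreeSeq S (x + L) v} with hV
  have hcount : Set.ncard V ≤ ((x + L + 1) ^ 2 * (m + 1)) ^ (x + L) * m ^ (x + L + R) :=
    treeSeq_count m (x + L) R hm hR
  have key : ∀ q : {q : Cls m // Oo q ≤ x},
      ∃ p : (Fin (x + L + 1) → Fin (x + L + 1)) × V, ∃ S : DomM m,
        Quotient.mk (isoSetoid m) S = q.1 ∧ S.1 = genSet p.2.1 p.1 := by
    rintro ⟨q, hq⟩
    -- a representative containing the identity order
    have hpos := Oo_pos q
    unfold Oo at hpos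
    have hne : Nonempty {S : DomM m // Quotient.mk (isoSetoid m) S = q ∧ idOrd m ∈ S.1} := by
      by_contra hc
      rw [not_nonempty_iff] at hc
      rw [Nat.card_of_isEmpty] at hpos
      omega
    obtain ⟨S, hSq, hSe⟩ := hne
    have hx : Set.ncard {T : Set (LOrd (Fin m)) | idOrd m ∈ T ∧
        ∃ π : Equiv.Perm (Fin m), T = LOrd.map π '' S.1} ≤ x := by
      rw [← Oo_eq S, hSq]
      exact hq
    obtain ⟨v, ℓ, hv0, hvT, hvS⟩ := exists_treeSeq S.2 hSe x L hx (by rwa [Nat.card_fin])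
    exact ⟨(ℓ, ⟨v, hv0, S.1, S.2, hvT⟩), S, hSq, hvS⟩
  choose f S hSq hSf using key
  have hinj : Function.Injective f := by
    intro q q' h
    have h1 : (S q).1 = (S q').1 := by rw [hSf q, hSf q', h]
    have h2 : S q = S q' := Subtype.ext h1
    apply Subtype.ext
    rw [← hSq q, ← hSq q', h2]
  have : Finite V := Subtype.finite
  calc Nat.card {q : Cls m // Oo q ≤ x}
      ≤ Nat.card ((Fin (x + L + 1) → Fin (x + L + 1)) × V) :=
        Nat.card_le_card_of_injective f hinj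
    _ = (x + L + 1) ^ (x + L + 1) * Set.ncard V := by
        rw [Nat.card_prod, Nat.card_fun, Nat.card_fin, Nat.card_coe_set_eq]
    _ ≤ _ := Nat.mul_le_mul_left _ hcount

end Pool.Agent.CDI
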