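import Pool.Agent.CDI.Cube

/-!
# Many maximal domains (blueprint section 3)
-/

namespace Pool.Agent.CDI

open LOrd

/-- The number of labelled maximal domains is at most `mm n * n!`. -/
theorem card_dom_le (n : ℕ) : Nat.card (DomM n) ≤ mm n * n.factorial := by
  classical
  have hex : ∀ S : DomM n, ∃ π : Equiv.Perm (Fin n),
      S.1 = LOrd.map π '' (Quotient.out (Quotient.mk (isoSetoid n) S)).1 := by
    intro S
    exact (iso_iff _ S).1 (Quotient.out_eq _)
  choose π hπ using hex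
  have hinj : Function.Injective
      (fun S : DomM n => ((Quotient.mk (isoSetoid n) S : Cls n), π S)) := by
    intro S T h
    simp only [Prod.mk.injEq] at h
    have h1 := hπ S
    have h2 := hπ T
    rw [h.1, h.2] at h1
    exact Subtype.ext (h1.trans h2.symm)
  have h := Nat.card_le_card_of_injective _ hinj
  rwa [Nat.card_prod, Nat.card_perm, Nat.card_eq_fintype_card (α := Fin n), Fintype.card_fin] at h

namespace Lower

variable {X Y : Type*}

theorem hasCube_image {q : ℕ} (e : X ≃ Y) {S : Set (LOrd X)} (h : HasCube q S) :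
    HasCube q (LOrd.map e '' S) := by
  obtain ⟨o, a, b, h1, h2, h3, h4⟩ := h
  refine ⟨o.map e, e ∘ a, e ∘ b, ?_, ?_, ?_, ?_⟩
  · intro l
    exact (map_lt' e o _ _).2 (h1 l)
  · rintro l z ⟨h5, h6⟩
    refine h2 l (e.symm z) ⟨?_, ?_⟩
    · simpa using h5
    · simpa using h6
  · intro l l' hl
    obtain ⟨h5, h6, h7⟩ := h3 l l' hl
    exact ⟨e.injective.ne h5, e.injective.ne h6, e.injective.ne h7⟩
  · intro f u hu
    rw [mem_image_map_iff]
    refine h4 f _ fun x y => ?_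
    have h5 := hu (e x) (e y)
    simp only [map_lt, Equiv.symm_apply_apply, Function.comp_apply,
      EmbeddingLike.apply_eq_iff_eq, Equiv.symm_symm] at h5 ⊢
    exact h5

/-- number of labelled maximal domains containing a `q`-cube -/
noncomputable def CC (q : ℕ) (X : Type*) : ℕ :=
  Nat.card {S : Set (LOrd X) // MaxCD S ∧ HasCube q S}

theorem CC_le [Finite Y] (q : ℕ) (e : X ≃ Y) : CC q X ≤ CC q Y := by
  refine Nat.card_le_card_of_injective
    (fun S : {S : Set (LOrd X) // MaxCD S ∧ HasCube q S} =>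
      (⟨LOrd.map e '' S.1, maxCD_image e S.2.1, hasCube_image e S.2.2⟩ :
        {S : Set (LOrd Y) // MaxCD S ∧ HasCube q S})) ?_
  intro S T h
  have h1 : LOrd.map e '' S.1 = LOrd.map e '' T.1 := congrArg Subtype.val h
  refine Subtype.ext ?_
  rw [← image_symm_image e S.1, h1, image_symm_image]

theorem CC_step (q n : ℕ) : 2 ^ q * CC q (Fin n) ≤ CC q (Fin (n + 1)) :=
  (cube_step (X := Fin n) q).trans (CC_le q (finSuccEquiv n).symm)

theorem CC_steps (q n k : ℕ) : 2 ^ (q * k) * CC q (Fin n) ≤ CC q (Fin (n + k)) := by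
  induction k with
  | zero => simp
  | succ k ih =>
    calc 2 ^ (q * (k + 1)) * CC q (Fin n) = 2 ^ q * (2 ^ (q * k) * CC q (Fin n)) := by
          rw [mul_add, mul_one, pow_add]; ring
      _ ≤ 2 ^ q * CC q (Fin (n + k)) := Nat.mul_le_mul_left _ ih
      _ ≤ CC q (Fin (n + (k + 1))) := CC_step q (n + k)

/-- upper elements of the pairs -/
def pa (q : ℕ) (l : Fin q) : Fin (2 * q) := ⟨2 * l.1, by have := l.2; omega⟩

/-- lower elements of the pairs -/
def pb (q : ℕ) (l : Fin q) : Fin (2 * q) := ⟨2 * l.1 + 1, by have := l.2; omega⟩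

/-- the cube on `Fin (2 q)` -/
def cube0 (q : ℕ) : Set (LOrd (Fin (2 * q))) :=
  {u | ∃ f : Fin q → Prop, ∀ x y, u.lt x y ↔
    (((idOrd (2 * q)).lt x y ∧ ¬ ∃ l, f l ∧ x = pa q l ∧ y = pb q l) ∨
      ∃ l, f l ∧ x = pb q l ∧ y = pa q l)}

theorem pair_of_dis {q : ℕ} {u v : LOrd (Fin (2 * q))} (hu : u ∈ cube0 q) (hv : v ∈ cube0 q)
    {x y : Fin (2 * q)} (h1 : u.lt x y) (h2 : v.lt y x) : x.1 / 2 = y.1 / 2 := by
  obtain ⟨f, hf⟩ := hu
  obtain ⟨g, hg⟩ := hv
  rw [hf] at h1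
  rw [hg] at h2
  rcases h1 with ⟨h1, -⟩ | ⟨l, -, rfl, rfl⟩
  · rcases h2 with ⟨h2, -⟩ | ⟨l, -, rfl, rfl⟩
    · exact absurd h2 (lt_asymm h1)
    · simp only [pa, pb]; omega
  · simp only [pa, pb]; omega

theorem isCD_cube0 (q : ℕ) : IsCD (cube0 q) := by
  intro r hr s hs t ht a b c hL
  obtain ⟨⟨h1, h2⟩, ⟨h3, h4⟩, ⟨h5, h6⟩⟩ := hL
  have e1 : a.1 / 2 = b.1 / 2 := pair_of_dis hr hs h1 (s.tr h3 h4)
  have e2 : b.1 / 2 = c.1 / 2 := pair_of_dis hr ht h2 (t.tr h5 h6)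
  have n1 : a.1 ≠ b.1 := fun h => r.ne h1 (Fin.ext h)
  have n2 : b.1 ≠ c.1 := fun h => r.ne h2 (Fin.ext h)
  have n3 : c.1 ≠ a.1 := fun h => s.ne h4 (Fin.ext h)
  omega

theorem CC_base (q : ℕ) : 1 ≤ CC q (Fin (2 * q)) := by
  obtain ⟨T, hT, hsub⟩ := (isCD_cube0 q).exists_max
  have hc : HasCube q T := by
    refine ⟨idOrd (2 * q), pa q, pb q, ?_, ?_, ?_, ?_⟩
    · intro l
      simp only [idOrd_lt, pa, pb, Fin.lt_def]
      omega
    · rintro l z ⟨h1, h2⟩
      simp only [idOrd_lt, pa, pb, Fin.lt_def] at h1 h2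
      omega
    · intro l l' hl
      have hl' : l.1 ≠ l'.1 := fun h => hl (Fin.ext h)
      simp only [pa, pb, ne_eq, Fin.mk.injEq]
      omega
    · intro f u hu
      exact hsub ⟨f, hu⟩
  unfold CC
  have : Nonempty {S : Set (LOrd (Fin (2 * q))) // MaxCD S ∧ HasCube q S} := ⟨⟨T, hT, hc⟩⟩
  exact Nat.card_pos

end Lower

open Lower in
/-- **Lower bound.** -/
theorem two_pow_le (n : ℕ) : 2 ^ ((n / 3) ^ 2) ≤ mm n * n.factorial := by
  refine le_trans ?_ (card_dom_le n)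
  set q := n / 3 with hq
  have hn : 2 * q + (n - 2 * q) = n := by omega
  have h1 := CC_steps q (2 * q) (n - 2 * q)
  rw [hn] at h1
  have h2 : 2 ^ (q ^ 2) ≤ 2 ^ (q * (n - 2 * q)) := by
    refine Nat.pow_le_pow_right (by norm_num) ?_
    rw [sq]
    exact Nat.mul_le_mul_left _ (by omega)
  have h3 : CC q (Fin n) ≤ Nat.card (DomM n) := by
    refine Nat.card_le_card_of_injective
      (fun S : {S : Set (LOrd (Fin n)) // MaxCD S ∧ HasCube q S} =>
        (⟨S.1, S.2.1⟩ : DomM n)) ?_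
    intro S T h
    have h4 : S.1 = T.1 := congrArg (fun D : DomM n => D.1) h
    exact Subtype.ext h4
  calc 2 ^ (q ^ 2) ≤ 2 ^ (q * (n - 2 * q)) := h2
    _ = 2 ^ (q * (n - 2 * q)) * 1 := (mul_one _).symm
    _ ≤ 2 ^ (q * (n - 2 * q)) * CC q (Fin (2 * q)) := Nat.mul_le_mul_left _ (CC_base q)
    _ ≤ CC q (Fin n) := h1
    _ ≤ Nat.card (DomM n) := h3

end Pool.Agent.CDI
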