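import Pool.Agent.CDI.Amal
import Pool.Agent.CDI.CardLL

/-!
# The key inequality `LL p * LL b ≤ 2 * mm (p + b - 1)` (blueprint section 2, Star)
-/

namespace Pool.Agent.CDI

open LOrd

/-- a permutation is determined by the pulled back order -/
theorem star_perm_eq {n : ℕ} {τ τ' : Equiv.Perm (Fin n)}
    (h : (idOrd n).map τ.symm = (idOrd n).map τ'.symm) : τ = τ' := by
  have h1 : ∀ a b, τ a < τ b ↔ τ' a < τ' b := by
    intro a b
    have h2 := congrArg (fun r : LOrd (Fin n) => r.lt a b) h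
    exact iff_of_eq h2
  let f : Fin n ≃o Fin n :=
    { toEquiv := τ.symm.trans τ'
      map_rel_iff' := by
        intro a b
        have h3 := h1 (τ.symm b) (τ.symm a)
        rw [Equiv.apply_symm_apply, Equiv.apply_symm_apply] at h3
        change τ' (τ.symm a) ≤ τ' (τ.symm b) ↔ a ≤ b
        rw [← _root_.not_lt, ← _root_.not_lt, h3] }
  have h2 : f = OrderIso.refl (Fin n) := Subsingleton.elim _ _
  ext x
  have h3 : f (τ x) = τ x := by rw [h2]; rfl
  have h4 : f (τ x) = τ' x := by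
    change τ' (τ.symm (τ x)) = τ' x
    rw [Equiv.symm_apply_apply]
  rw [← h3, h4]

/-- at most two members of a class have a good decomposition at the identity -/
theorem star_fiber {n k : ℕ} (hk : 1 ≤ k) (P : Set (Fin n)) (y a : Fin n) (D : DomM n)
    {E₁ E₂ E₃ : Set (LOrd (Fin n))} {τ₁ τ₂ τ₃ : Equiv.Perm (Fin n)}
    (e₁ : E₁ = LOrd.map τ₁ '' D.1) (e₂ : E₂ = LOrd.map τ₂ '' D.1) (e₃ : E₃ = LOrd.map τ₃ '' D.1)
    (h₁ : Good k E₁ (idOrd n) P y a) (h₂ : Good k E₂ (idOrd n) P y a)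
    (h₃ : Good k E₃ (idOrd n) P y a) : E₁ = E₂ ∨ E₁ = E₃ ∨ E₂ = E₃ := by
  have g₁ := h₁.map τ₁.symm
  have g₂ := h₂.map τ₂.symm
  have g₃ := h₃.map τ₃.symm
  rw [e₁, image_symm_image] at g₁
  rw [e₂, image_symm_image] at g₂
  rw [e₃, image_symm_image] at g₃
  rcases good_three hk D.2.1 g₁ g₂ g₃ with h | h | h
  · left; rw [e₁, e₂, star_perm_eq h]
  · right; left; rw [e₁, e₃, star_perm_eq h]
  · right; right; rw [e₂, e₃, star_perm_eq h]

theorem star_le {n k : ℕ} (hk : 1 ≤ k) (P : Set (Fin n)) (y a : Fin n) :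
    Nat.card {E : DomM n // Good k E.1 (idOrd n) P y a} ≤ 2 * mm n := by
  classical
  have := Fintype.ofFinite {E : DomM n // Good k E.1 (idOrd n) P y a}
  have := Fintype.ofFinite (Cls n)
  let f : {E : DomM n // Good k E.1 (idOrd n) P y a} → Cls n :=
    fun E => Quotient.mk (isoSetoid n) E.1
  rw [Nat.card_eq_fintype_card, mm, Nat.card_eq_fintype_card, ← Finset.card_univ]
  refine (Finset.card_le_mul_card_image (f := f) Finset.univ 2 ?_).trans ?_
  · intro q _
    by_contra hcon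
    rw [not_le, Finset.two_lt_card] at hcon
    obtain ⟨E₁, m₁, E₂, m₂, E₃, m₃, n₁, n₂, n₃⟩ := hcon
    rw [Finset.mem_filter] at m₁ m₂ m₃
    obtain ⟨D, rfl⟩ := Quotient.exists_rep q
    have hx : ∀ E : {E : DomM n // Good k E.1 (idOrd n) P y a},
        f E = Quotient.mk (isoSetoid n) D → ∃ τ : Equiv.Perm (Fin n), E.1.1 = LOrd.map τ '' D.1 := by
      intro E hE
      exact (iso_iff D E.1).1 hE.symm
    obtain ⟨τ₁, e₁⟩ := hx E₁ m₁.2
    obtain ⟨τ₂, e₂⟩ := hx E₂ m₂.2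
    obtain ⟨τ₃, e₃⟩ := hx E₃ m₃.2
    rcases star_fiber hk P y a D e₁ e₂ e₃ E₁.2 E₂.2 E₃.2 with h | h | h
    · exact n₁ (Subtype.ext (Subtype.ext h))
    · exact n₂ (Subtype.ext (Subtype.ext h))
    · exact n₃ (Subtype.ext (Subtype.ext h))
  · exact Nat.mul_le_mul_left _ (Finset.card_le_univ _)

/-- **Star.**  `X = Fin n`, `n = p + b - 1`, `P` = first `b - 1` elements, `a` the next one, `y` the last.
`exists_amalgam` gives an injection from `{MaxCD on Pᶜ containing e} × {MaxCD on P + y containing e}`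
into `{E MaxCD on Fin n with e ∈ E and Good (b-1) E e P y a}`; each isomorphism class `q` (with a fixed
member `D`) contains at most two such `E`: `E = map τ '' D`, and `E ↦ e.map τ⁻¹` is injective into
`{r : ∃ P y a, Good (b-1) D r P y a}`, which has at most two elements by `good_three`. -/
theorem star (p b : ℕ) (hp : 2 ≤ p) (hb : 2 ≤ b) : LL p * LL b ≤ 2 * mm (p + b - 1) := by
  classical
  obtain ⟨n, hn⟩ : ∃ n, n = p + b - 1 := ⟨_, rfl⟩
  rw [← hn]
  have hbn : b - 1 ≤ n := by omega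
  obtain ⟨P, hP⟩ : ∃ P : Set (Fin n), P = {x : Fin n | (x : ℕ) < b - 1} := ⟨_, rfl⟩
  obtain ⟨y, hy⟩ : ∃ y : Fin n, (y : ℕ) = n - 1 := ⟨⟨n - 1, by omega⟩, rfl⟩
  obtain ⟨a, ha⟩ : ∃ a : Fin n, (a : ℕ) = b - 1 := ⟨⟨b - 1, by omega⟩, rfl⟩
  have hmem : ∀ x, x ∈ P ↔ (x : ℕ) < b - 1 := by intro x; rw [hP]; rfl
  have hyP : y ∉ P := by rw [hmem]; omega
  have haP : a ∉ P := by rw [hmem]; omega
  have hPcard : P.ncard = b - 1 := by
    have h1 : P = (Fin.castLE hbn) '' (Set.univ : Set (Fin (b - 1))) := by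
      ext x
      rw [hmem, Set.image_univ, Set.mem_range]
      constructor
      · intro hx; exact ⟨⟨x, hx⟩, rfl⟩
      · rintro ⟨z, rfl⟩; exact z.2
    rw [h1, Set.ncard_image_of_injective _ (Fin.castLE_injective hbn), Set.ncard_univ, Nat.card_fin]
  have hc1 : Nat.card ↥(Pᶜ) = p := by
    rw [Nat.card_coe_set_eq, Set.ncard_compl, hPcard, Nat.card_fin]
    omega
  have hc2 : Nat.card ↥(insert y P) = b := by
    rw [Nat.card_coe_set_eq, Set.ncard_insert_of_notMem hyP, hPcard]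
    omega
  have hcard : LL p * LL b =
      Nat.card ({S : Set (LOrd ↥(Pᶜ)) // MaxCD S ∧ (idOrd n).restr Pᶜ ∈ S} ×
        {S : Set (LOrd ↥(insert y P)) // MaxCD S ∧ (idOrd n).restr (insert y P) ∈ S}) := by
    rw [Nat.card_prod, card_LL_eq, card_LL_eq, hc1, hc2]
  rw [hcard]
  refine le_trans ?_ (star_le (k := b - 1) (by omega) P y a)
  have hex : ∀ C : ({S : Set (LOrd ↥(Pᶜ)) // MaxCD S ∧ (idOrd n).restr Pᶜ ∈ S} ×
        {S : Set (LOrd ↥(insert y P)) // MaxCD S ∧ (idOrd n).restr (insert y P) ∈ S}),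
      ∃ E : Set (LOrd (Fin n)), MaxCD E ∧ Good P.ncard E (idOrd n) P y a ∧
        LOrd.restr Pᶜ '' E = C.1.1 ∧ LOrd.restr (insert y P) '' E = C.2.1 := by
    intro C
    refine exists_amalgam (idOrd n) P y a ?_ hyP haP ?_ ?_ ?_ C.1.1 C.2.1 C.1.2.1 C.2.2.1
      C.1.2.2 C.2.2.2
    · intro b' hb' x hx
      rw [hmem] at hb' hx
      rw [idOrd_lt, Fin.lt_def]
      omega
    · intro x hx
      rw [idOrd_lt, Fin.lt_def]
      have := x.2
      have : (x : ℕ) ≠ y := fun h => hx (Fin.ext h)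
      omega
    · intro x hx hxa
      rw [hmem] at hx
      rw [idOrd_lt, Fin.lt_def]
      have : (x : ℕ) ≠ a := fun h => hxa (Fin.ext h)
      omega
    · intro h
      have := congrArg Fin.val h
      omega
  choose E hE hG hE1 hE2 using hex
  rw [hPcard] at hG
  let g : ({S : Set (LOrd ↥(Pᶜ)) // MaxCD S ∧ (idOrd n).restr Pᶜ ∈ S} ×
        {S : Set (LOrd ↥(insert y P)) // MaxCD S ∧ (idOrd n).restr (insert y P) ∈ S}) →
      {E : DomM n // Good (b - 1) E.1 (idOrd n) P y a} := fun C => ⟨⟨E C, hE C⟩, hG C⟩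
  have hg : Function.Injective g := by
    intro C C' h
    have h1 : E C = E C' := congrArg (fun e => e.1.1) h
    refine Prod.ext (Subtype.ext ?_) (Subtype.ext ?_)
    · rw [← hE1 C, ← hE1 C', h1]
    · rw [← hE2 C, ← hE2 C', h1]
  exact Nat.card_le_card_of_injective g hg

end Pool.Agent.CDI
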