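import Mathlib

/-!
# The analytic ending (blueprint section 13)
-/

namespace Pool.Agent.CDI

open Filter Topology

/-- `√m ≤ 2 * Nat.sqrt m` for `m ≥ 1`. -/
theorem sqrt_le_two_mul {m : ℕ} (hm : 1 ≤ m) : Real.sqrt m ≤ 2 * Nat.sqrt m := by
  have h1 : 1 ≤ Nat.sqrt m := Nat.sqrt_pos.2 hm
  have h2 : m < (Nat.sqrt m + 1) ^ 2 := Nat.lt_succ_sqrt' m
  rw [Real.sqrt_le_left (by positivity)]
  have h3 : m ≤ (2 * Nat.sqrt m) ^ 2 := by nlinarith
  exact_mod_cast h3

/-- The analytic ending: abstract form.  `g m = mm m / LL m`. -/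
theorem tail_sum (g : ℕ → ℝ) (h0 : ∀ m, 0 ≤ g m) (h1 : ∀ m, g m ≤ 1)
    (m₀ : ℕ) (h2 : ∀ m ≥ m₀, g m * (m * Nat.sqrt m : ℕ) ≤ 2) :
    Tendsto (fun n : ℕ => ∑ b ∈ Finset.Icc 2 (n - 1),
      ((n - b + 1 : ℕ) : ℝ) * g (n - b + 1) * g b) atTop (𝓝 0) := by
  -- `a * g a` is bounded
  have hb : ∀ a : ℕ, (a : ℝ) * g a ≤ m₀ + 2 := by
    intro a
    rcases Nat.lt_or_ge a m₀ with h | h
    · have h3 : (a : ℝ) ≤ m₀ := by exact_mod_cast h.le
      have h4 : (a : ℝ) * g a ≤ a * 1 := mul_le_mul_of_nonneg_left (h1 a) (Nat.cast_nonneg a)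
      linarith
    · rcases Nat.eq_zero_or_pos a with rfl | ha
      · simp only [Nat.cast_zero, zero_mul]; positivity
      · have h3 := h2 a h
        have h4 : (1 : ℝ) ≤ Nat.sqrt a := by exact_mod_cast Nat.sqrt_pos.2 ha
        push_cast at h3
        have h5 : 0 ≤ (a : ℝ) * g a := mul_nonneg (Nat.cast_nonneg a) (h0 a)
        have h6 : (0 : ℝ) ≤ m₀ := Nat.cast_nonneg m₀
        nlinarith
  -- `a * g a → 0`
  have hz : Tendsto (fun a : ℕ => (a : ℝ) * g a) atTop (𝓝 0) := by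
    have h3 : Tendsto (fun a : ℕ => 4 / Real.sqrt a) atTop (𝓝 0) :=
      Tendsto.div_atTop tendsto_const_nhds
        (Real.tendsto_sqrt_atTop.comp tendsto_natCast_atTop_atTop)
    refine squeeze_zero' (Eventually.of_forall fun a => mul_nonneg (Nat.cast_nonneg a) (h0 a))
      ?_ h3
    filter_upwards [eventually_ge_atTop (max m₀ 1)] with a ha
    have ha0 := le_trans (le_max_left _ _) ha
    have ha1 : 1 ≤ a := le_trans (le_max_right _ _) ha
    have hs : 0 < Real.sqrt a := Real.sqrt_pos.2 (by exact_mod_cast ha1)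
    rw [le_div_iff₀ hs]
    have h4 := h2 a ha0
    push_cast at h4
    have h5 := sqrt_le_two_mul ha1
    have h6 : 0 ≤ (a : ℝ) * g a := mul_nonneg (Nat.cast_nonneg a) (h0 a)
    nlinarith
  -- `g` is summable
  have hsum : Summable g := by
    have h3 : Summable (fun a : ℕ => 4 * (1 / (a : ℝ) ^ (3 / 2 : ℝ))) :=
      (Real.summable_one_div_nat_rpow.2 (by norm_num)).mul_left 4
    refine Summable.of_norm_bounded_eventually h3 ?_
    rw [Nat.cofinite_eq_atTop]
    filter_upwards [eventually_ge_atTop (max m₀ 1)] with a ha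
    have ha0 := le_trans (le_max_left _ _) ha
    have ha1 : 1 ≤ a := le_trans (le_max_right _ _) ha
    have hap : (0 : ℝ) < a := by exact_mod_cast ha1
    have hs : 0 < Real.sqrt a := Real.sqrt_pos.2 hap
    rw [Real.norm_eq_abs, abs_of_nonneg (h0 a), mul_one_div]
    have h7 : (a : ℝ) ^ (3 / 2 : ℝ) = a * Real.sqrt a := by
      rw [Real.sqrt_eq_rpow]
      nth_rewrite 2 [← Real.rpow_one (a : ℝ)]
      rw [← Real.rpow_add hap]; norm_num
    rw [h7, le_div_iff₀ (by positivity)]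
    have h4 := h2 a ha0
    push_cast at h4
    have h5 := sqrt_le_two_mul ha1
    have h6 : 0 ≤ (a : ℝ) * g a := mul_nonneg (Nat.cast_nonneg a) (h0 a)
    nlinarith
  -- dominated convergence
  set F : ℕ → ℕ → ℝ := fun n b => if b ∈ Finset.Icc 2 (n - 1) then
    ((n - b + 1 : ℕ) : ℝ) * g (n - b + 1) * g b else 0 with hF
  have hFs : ∀ n : ℕ, ∑ b ∈ Finset.Icc 2 (n - 1),
      ((n - b + 1 : ℕ) : ℝ) * g (n - b + 1) * g b = ∑' b, F n b := by
    intro n
    rw [tsum_eq_sum (s := Finset.Icc 2 (n - 1)) (fun b hb => if_neg hb)]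
    exact Finset.sum_congr rfl fun b hb => (if_pos hb).symm
  simp only [hFs]
  have hlim : Tendsto (fun n : ℕ => ∑' b, F n b) atTop (𝓝 (∑' _b : ℕ, (0 : ℝ))) := by
    refine tendsto_tsum_of_dominated_convergence (bound := fun b => ((m₀ : ℝ) + 2) * g b)
      (hsum.mul_left _) ?_ ?_
    · intro b
      have h3 : Tendsto (fun n : ℕ => n - b + 1) atTop atTop :=
        tendsto_atTop_mono (fun n => Nat.le_succ (n - b)) (tendsto_sub_atTop_nat b)
      have h4 : Tendsto (fun n : ℕ => ((n - b + 1 : ℕ) : ℝ) * g (n - b + 1) * g b) atTop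
          (𝓝 0) := by
        have := (hz.comp h3).mul_const (g b)
        rwa [zero_mul] at this
      refine squeeze_zero (fun n => ?_) (fun n => ?_) h4
      · simp only [hF]
        split_ifs
        · exact mul_nonneg (mul_nonneg (Nat.cast_nonneg _) (h0 _)) (h0 _)
        · exact le_rfl
      · simp only [hF]
        split_ifs
        · exact le_rfl
        · exact mul_nonneg (mul_nonneg (Nat.cast_nonneg _) (h0 _)) (h0 _)
    · refine Eventually.of_forall fun n b => ?_
      simp only [hF]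
      have hnn : 0 ≤ ((n - b + 1 : ℕ) : ℝ) * g (n - b + 1) * g b :=
        mul_nonneg (mul_nonneg (Nat.cast_nonneg _) (h0 _)) (h0 _)
      split_ifs
      · rw [Real.norm_eq_abs, abs_of_nonneg hnn]
        exact mul_le_mul_of_nonneg_right (hb _) (h0 b)
      · rw [norm_zero]
        exact mul_nonneg (by positivity) (h0 b)
  simpa using hlim

end Pool.Agent.CDI
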