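import Pool.Agent.CDI.Asy
import Pool.Agent.CDI.Tail
import Pool.Agent.CDI.Few
import Pool.Agent.CDI.Lower
import Pool.Agent.CDI.Decomp
import Pool.Agent.CDI.Star

/-!
# Assembly (blueprint section 13)
-/

namespace Pool.Agent.CDI

open Filter Topology

/-- Half of the classes have more than `m * √m` orbits. -/
theorem LL_large : ∃ m₀ : ℕ, ∀ m ≥ m₀, (m * Nat.sqrt m) * mm m ≤ 2 * LL m := by
  obtain ⟨m₀, h⟩ := numeric
  refine ⟨max m₀ 1, fun m hm => ?_⟩
  obtain ⟨L, R, hL, hR, hbig⟩ := h m (le_trans (le_max_left _ _) hm)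
  have hm1 : 1 ≤ m := le_trans (le_max_right _ _) hm
  apply LL_ge
  have h1 := few m (m * Nat.sqrt m) L R hm1 hL hR
  have h2 := two_pow_le m
  have h3 : 2 * Nat.card {q : Cls m // Oo q ≤ m * Nat.sqrt m} * m.factorial ≤
      mm m * m.factorial := by
    refine le_trans ?_ (hbig.trans h2)
    gcongr
  exact Nat.le_of_mul_le_mul_right h3 (Nat.factorial_pos m)

/-- **Main theorem.** -/
theorem main : Tendsto (fun n : ℕ => (rr n : ℝ) / (mm n : ℝ)) atTop (𝓝 0) := by
  have hmm : ∀ n, (0 : ℝ) < mm n := fun n => by exact_mod_cast mm_pos n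
  have hLL : ∀ n, (0 : ℝ) < LL n := fun n => by
    exact_mod_cast lt_of_lt_of_le (mm_pos n) (mm_le_LL n)
  obtain ⟨m₀, hm₀⟩ := LL_large
  set g : ℕ → ℝ := fun m => (mm m : ℝ) / LL m with hg
  have ht := tail_sum g (fun m => div_nonneg (hmm m).le (hLL m).le)
    (fun m => (div_le_one (hLL m)).2 (by exact_mod_cast mm_le_LL m)) m₀ (fun m hm => by
      have h1 := hm₀ m hm
      have h2 : ((m * Nat.sqrt m : ℕ) : ℝ) * mm m ≤ 2 * LL m := by exact_mod_cast h1
      simp only [hg]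
      rw [div_mul_eq_mul_div, div_le_iff₀ (hLL m)]
      linarith)
  have ht2 := ht.const_mul 2
  rw [mul_zero] at ht2
  refine squeeze_zero (fun n => div_nonneg (Nat.cast_nonneg _) (hmm n).le) (fun n => ?_) ht2
  rw [div_le_iff₀ (hmm n)]
  have h1 : (rr n : ℝ) ≤ ∑ b ∈ Finset.Icc 2 (n - 1),
      ((n - b + 1 : ℕ) : ℝ) * mm (n - b + 1) * mm b := by
    exact_mod_cast rr_le n
  refine h1.trans ?_
  rw [mul_assoc, Finset.sum_mul, Finset.mul_sum]
  refine Finset.sum_le_sum fun b hb => ?_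
  rw [Finset.mem_Icc] at hb
  have h2 := star (n - b + 1) b (by omega) hb.1
  rw [show n - b + 1 + b - 1 = n by omega] at h2
  have h3 : (LL (n - b + 1) : ℝ) * LL b ≤ 2 * mm n := by exact_mod_cast h2
  have hp1 := hLL (n - b + 1)
  have hp2 := hLL b
  simp only [hg]
  have h4 : 2 * (((n - b + 1 : ℕ) : ℝ) * ((mm (n - b + 1) : ℝ) / LL (n - b + 1))
      * ((mm b : ℝ) / LL b) * mm n)
      = (((n - b + 1 : ℕ) : ℝ) * mm (n - b + 1) * mm b)
        * ((2 * mm n) / (LL (n - b + 1) * LL b)) := by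
    field_simp
  rw [h4]
  refine le_mul_of_one_le_right ?_ ?_
  · have := hmm (n - b + 1)
    have := hmm b
    positivity
  · rw [one_le_div (by positivity)]; exact h3

end Pool.Agent.CDI
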