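import Pool.Agent.CDI.Base

/-!
# Uniqueness of good decompositions (blueprint section 2)
-/

namespace Pool.Agent.CDI

open LOrd

variable {X : Type*}

/-- `(P, y, a)` is a good decomposition at the member `r` of `D`:
`P` (of size `k`) is on top of `r`, `a` comes next, `y` is last, and
* (F2a) for `σ ∈ D`: [`P` in `r`-order] ++ `σ` outside `P` is in `D`;
* (F2b) for an initial part `U` of the rest of `r` (`y ∉ U`): `U ++ P ++ rest` is in `D`;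
* (F3) for an initial part `B` of `P`: `B ++ a ++ (P \ B) ++ rest` is in `D`;
* (F4) for `σ ∈ D`: [`Pᶜ \ y` in `r`-order] ++ [`P + y` in `σ`-order] is in `D`. -/
structure Good (k : ℕ) (D : Set (LOrd X)) (r : LOrd X) (P : Set X) (y a : X) : Prop where
  mem : r ∈ D
  card : P.ncard = k
  top : ∀ b ∈ P, ∀ x, x ∉ P → r.lt b x
  y_notMem : y ∉ P
  a_notMem : a ∉ P
  y_last : ∀ x, x ≠ y → r.lt x y
  a_first : ∀ x, x ∉ P → x ≠ a → r.lt a x
  a_ne_y : a ≠ y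
  F2a : ∀ σ ∈ D, ∀ u : LOrd X,
    (∀ x, x ∉ P → ∀ x', x' ∉ P → (u.lt x x' ↔ σ.lt x x')) →
    (∀ b ∈ P, ∀ b' ∈ P, (u.lt b b' ↔ r.lt b b')) →
    (∀ b ∈ P, ∀ x, x ∉ P → u.lt b x) → u ∈ D
  F2b : ∀ U : Set X, (∀ x ∈ U, x ∉ P) → y ∉ U →
    (∀ x ∈ U, ∀ x', x' ∉ P → r.lt x' x → x' ∈ U) → ∀ u : LOrd X,
    (∀ x, x ∉ P → ∀ x', x' ∉ P → (u.lt x x' ↔ r.lt x x')) →
    (∀ b ∈ P, ∀ b' ∈ P, (u.lt b b' ↔ r.lt b b')) →
    (∀ x, x ∉ P → ∀ b ∈ P, (u.lt x b ↔ x ∈ U)) → u ∈ D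
  F3 : ∀ B : Set X, B ⊆ P → (∀ b ∈ B, ∀ b' ∈ P, r.lt b' b → b' ∈ B) → ∀ u : LOrd X,
    (∀ x, x ∉ P → ∀ x', x' ∉ P → (u.lt x x' ↔ r.lt x x')) →
    (∀ b ∈ P, ∀ b' ∈ P, (u.lt b b' ↔ r.lt b b')) →
    (∀ x, x ∉ P → ∀ b ∈ P, (u.lt x b ↔ (x = a ∧ b ∉ B))) → u ∈ D
  F4 : ∀ σ ∈ D, ∀ u : LOrd X,
    (∀ x, x ∉ P → ∀ x', x' ∉ P → (u.lt x x' ↔ r.lt x x')) →
    (∀ b ∈ P, ∀ b' ∈ P, (u.lt b b' ↔ σ.lt b b')) →
    (∀ x, x ∉ P → ∀ b ∈ P, (u.lt x b ↔ (x ≠ y ∨ σ.lt y b))) → u ∈ D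

/-- F2b with `U` = the part of `Pᶜ` down to `x`. -/
theorem good1_F2b {k : ℕ} {D : Set (LOrd X)} {r : LOrd X} {P : Set X} {y a : X}
    (h : Good k D r P y a) {x : X} (hxy : x ≠ y) :
    ∃ u ∈ D, (∀ z, z ∉ P → ∀ z', z' ∉ P → (u.lt z z' ↔ r.lt z z')) ∧
      (∀ b, b ∈ P → ∀ b', b' ∈ P → (u.lt b b' ↔ r.lt b b')) ∧
      (∀ z, z ∉ P → ∀ b, b ∈ P → (u.lt z b ↔ (z = x ∨ r.lt z x))) ∧
      (∀ z, z ∉ P → ∀ b, b ∈ P → (u.lt b z ↔ ¬ (z = x ∨ r.lt z x))) := by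
  obtain ⟨u, h1, h2, h3, h4⟩ := exists_glue r r P (fun z _ => z = x ∨ r.lt z x)
    (by
      intro z hz z' hz' b hb hlt hzx
      rcases hzx with rfl | hzx
      · exact Or.inr hlt
      · exact Or.inr (r.tr hlt hzx))
    (by
      intro z hz b hb b' hb' hlt hzx
      exact hzx)
  refine ⟨u, ?_, h1, h2, h3, h4⟩
  refine h.F2b {z | z ∉ P ∧ (z = x ∨ r.lt z x)} (fun z hz => hz.1) ?_ ?_ u h1
    (fun b hb b' hb' => h2 b hb b' hb') ?_
  · rintro ⟨-, hy | hy⟩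
    · exact hxy hy.symm
    · exact r.asymm hy (h.y_last x hxy)
  · rintro z ⟨hz, hzx⟩ z' hz' hlt
    refine ⟨hz', ?_⟩
    rcases hzx with rfl | hzx
    · exact Or.inr hlt
    · exact Or.inr (r.tr hlt hzx)
  · intro z hz b hb
    rw [h3 z hz b hb]
    simp only [Set.mem_setOf_eq]
    tauto

/-- F2a. -/
theorem good1_F2a {k : ℕ} {D : Set (LOrd X)} {r : LOrd X} {P : Set X} {y a : X}
    (h : Good k D r P y a) {σ : LOrd X} (hσ : σ ∈ D) :
    ∃ u ∈ D, (∀ z, z ∉ P → ∀ z', z' ∉ P → (u.lt z z' ↔ σ.lt z z')) ∧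
      (∀ b, b ∈ P → ∀ b', b' ∈ P → (u.lt b b' ↔ r.lt b b')) ∧
      (∀ b, b ∈ P → ∀ z, z ∉ P → u.lt b z) := by
  obtain ⟨u, h1, h2, h3, h4⟩ := exists_glue σ r P (fun _ _ => False)
    (by intro z hz z' hz' b hb hlt hf; exact hf)
    (by intro z hz b hb b' hb' hlt hf; exact hf)
  have h5 : ∀ b, b ∈ P → ∀ z, z ∉ P → u.lt b z := by
    intro b hb z hz
    rw [h4 z hz b hb]
    exact not_false
  exact ⟨u, h.F2a σ hσ u h1 (fun b hb b' hb' => h2 b hb b' hb') (fun b hb z hz => h5 b hb z hz),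
    h1, h2, h5⟩

/-- F3. -/
theorem good1_F3 {k : ℕ} {D : Set (LOrd X)} {r : LOrd X} {P : Set X} {y a : X}
    (h : Good k D r P y a) (B : Set X) (hB : B ⊆ P)
    (hB' : ∀ b ∈ B, ∀ b' ∈ P, r.lt b' b → b' ∈ B) :
    ∃ u ∈ D, (∀ z, z ∉ P → ∀ z', z' ∉ P → (u.lt z z' ↔ r.lt z z')) ∧
      (∀ b, b ∈ P → ∀ b', b' ∈ P → (u.lt b b' ↔ r.lt b b')) ∧
      (∀ z, z ∉ P → ∀ b, b ∈ P → (u.lt z b ↔ (z = a ∧ b ∉ B))) ∧
      (∀ z, z ∉ P → ∀ b, b ∈ P → (u.lt b z ↔ ¬ (z = a ∧ b ∉ B))) := by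
  obtain ⟨u, h1, h2, h3, h4⟩ := exists_glue r r P (fun z b => z = a ∧ b ∉ B)
    (by
      rintro z hz z' hz' b hb hlt ⟨rfl, hbB⟩
      refine ⟨?_, hbB⟩
      by_contra hne
      exact r.asymm hlt (h.a_first z' hz' hne))
    (by
      rintro z hz b hb b' hb' hlt ⟨rfl, hbB⟩
      exact ⟨rfl, fun hb'B => hbB (hB' b' hb'B b hb hlt)⟩)
  exact ⟨u, h.F3 B hB hB' u h1 (fun b hb b' hb' => h2 b hb b' hb')
    (fun z hz b hb => h3 z hz b hb), h1, h2, h3, h4⟩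

/-- F4. -/
theorem good1_F4 {k : ℕ} {D : Set (LOrd X)} {r : LOrd X} {P : Set X} {y a : X}
    (h : Good k D r P y a) {σ : LOrd X} (hσ : σ ∈ D) :
    ∃ u ∈ D, (∀ z, z ∉ P → ∀ z', z' ∉ P → (u.lt z z' ↔ r.lt z z')) ∧
      (∀ b, b ∈ P → ∀ b', b' ∈ P → (u.lt b b' ↔ σ.lt b b')) ∧
      (∀ z, z ∉ P → ∀ b, b ∈ P → (u.lt z b ↔ (z ≠ y ∨ σ.lt y b))) ∧
      (∀ z, z ∉ P → ∀ b, b ∈ P → (u.lt b z ↔ ¬ (z ≠ y ∨ σ.lt y b))) := by
  obtain ⟨u, h1, h2, h3, h4⟩ := exists_glue r σ P (fun z b => z ≠ y ∨ σ.lt y b)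
    (by
      rintro z hz z' hz' b hb hlt hzy
      left
      rintro rfl
      exact r.asymm hlt (h.y_last z (r.ne hlt).symm))
    (by
      rintro z hz b hb b' hb' hlt hzy
      rcases hzy with hzy | hzy
      · exact Or.inl hzy
      · exact Or.inr (σ.tr hzy hlt))
  exact ⟨u, h.F4 σ hσ u h1 (fun b hb b' hb' => h2 b hb b' hb')
    (fun z hz b hb => h3 z hz b hb), h1, h2, h3, h4⟩

/-- (1) of the blueprint. -/
theorem good1_y_eq {k : ℕ} (hk : 1 ≤ k) {D : Set (LOrd X)} (hD : IsCD D) {r r' : LOrd X}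
    {P : Set X} {y a y' a' : X} (h : Good k D r P y a) (h' : Good k D r' P y' a') : y = y' := by
  by_contra hne
  obtain ⟨b, hb⟩ : P.Nonempty := by
    apply Set.nonempty_of_ncard_ne_zero
    rw [h.card]; omega
  obtain ⟨u1, hu1, -, -, h13, h14⟩ := good1_F2b h (x := y') (Ne.symm hne)
  obtain ⟨u2, hu2, -, -, h23, -⟩ := good1_F4 h h.mem
  obtain ⟨u3, hu3, h31, -, h33, -⟩ := good1_F4 h' hu2
  refine hD u3 hu3 u1 hu1 r' h'.mem y y' b ⟨⟨?_, ?_⟩, ⟨?_, ?_⟩, ⟨?_, ?_⟩⟩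
  · rw [h31 y h.y_notMem y' h'.y_notMem]
    exact h'.y_last y hne
  · rw [h33 y' h'.y_notMem b hb]
    right
    rw [h23 y' h'.y_notMem b hb]
    exact Or.inl (Ne.symm hne)
  · rw [h13 y' h'.y_notMem b hb]
    exact Or.inl rfl
  · rw [h14 y h.y_notMem b hb]
    rintro (hy | hy)
    · exact hne hy
    · exact r.asymm hy (h.y_last y' (Ne.symm hne))
  · exact h'.top b hb y h.y_notMem
  · exact h'.y_last y hne

/-- (1)+(2) of the blueprint: the same `P` forces the same order.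
First `y = y'`: otherwise take `b ∈ P`; F2b of `r` with `U` = the part of `Pᶜ` down to `y'` gives
`y' b y`; `r'` is `b y y'`; F4 of `r'` applied to (F4 of `r` applied to `r`, in which `y'` is above `b`)
gives `y y' b`: Latin.
`r, r'` agree on `P`: otherwise `b` above `b'` in `r`, `b'` above `b` in `r'`: `a b' b` (F4 of `r'`
applied to `r'`), `b' b a` (`r'`), `b a b'` (F3 of `r`, `B` = elements of `P` down to `b`): Latin.
`r, r'` agree outside `P`: otherwise `x` above `x'` in `r`, `x'` above `x` in `r'` (both `≠ y`), `b ∈ P`: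
`x' x b` (F4 of `r'` applied to `r'`), `x b x'` (F2b of `r`, `U` = down to `x`), `b x' x` (`r'`). -/
theorem good_same_P [Finite X] {k : ℕ} (hk : 1 ≤ k) {D : Set (LOrd X)} (hD : IsCD D) {r r' : LOrd X}
    {P : Set X} {y a y' a' : X} (h : Good k D r P y a) (h' : Good k D r' P y' a') : r = r' := by
  obtain rfl : y = y' := good1_y_eq hk hD h h'
  obtain ⟨b0, hb0⟩ : P.Nonempty := by
    apply Set.nonempty_of_ncard_ne_zero
    rw [h.card]; omega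
  apply LOrd.ext_imp
  intro s t hst
  by_contra hst'
  have hts' : r'.lt t s := (r'.not_lt (r.ne hst)).1 hst'
  obtain ⟨u1, hu1, h11, h12, h13, h14⟩ := good1_F4 h' h'.mem
  by_cases hs : s ∈ P
  · by_cases ht : t ∈ P
    · -- inside `P`
      obtain ⟨u2, hu2, -, -, h23, h24⟩ := good1_F3 h {c | c ∈ P ∧ (c = s ∨ r.lt c s)}
        (fun c hc => hc.1) (by
          rintro c ⟨hc, hcs⟩ c' hc' hlt
          refine ⟨hc', ?_⟩
          rcases hcs with rfl | hcs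
          · exact Or.inr hlt
          · exact Or.inr (r.tr hlt hcs))
      refine hD u1 hu1 r' h'.mem u2 hu2 a t s ⟨⟨?_, ?_⟩, ⟨?_, ?_⟩, ⟨?_, ?_⟩⟩
      · rw [h13 a h.a_notMem t ht]
        exact Or.inl h.a_ne_y
      · rw [h12 t ht s hs]
        exact hts'
      · exact hts'
      · exact h'.top s hs a h.a_notMem
      · rw [h24 a h.a_notMem s hs]
        rintro ⟨-, hsB⟩
        exact hsB ⟨hs, Or.inl rfl⟩
      · rw [h23 a h.a_notMem t ht]
        refine ⟨rfl, ?_⟩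
        rintro ⟨-, hts | hts⟩
        · exact r.ne hst hts.symm
        · exact r.asymm hst hts
    · exact hst' (h'.top s hs t ht)
  · by_cases ht : t ∈ P
    · exact r.asymm hst (h.top t ht s hs)
    · -- outside `P`
      have hsy : s ≠ y := by
        rintro rfl
        exact r.asymm hst (h.y_last t (r.ne hst).symm)
      have hty : t ≠ y := by
        rintro rfl
        exact r'.asymm hts' (h'.y_last s (r.ne hst))
      obtain ⟨u2, hu2, -, -, h23, h24⟩ := good1_F2b h (x := s) hsy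
      refine hD u1 hu1 u2 hu2 r' h'.mem t s b0 ⟨⟨?_, ?_⟩, ⟨?_, ?_⟩, ⟨?_, ?_⟩⟩
      · rw [h11 t ht s hs]
        exact hts'
      · rw [h13 s hs b0 hb0]
        exact Or.inl hsy
      · rw [h23 s hs b0 hb0]
        exact Or.inl rfl
      · rw [h24 t ht b0 hb0]
        rintro (hts | hts)
        · exact r.ne hst hts.symm
        · exact r.asymm hst hts
      · exact h'.top b0 hb0 t ht
      · exact hts'

/-- (3) of the blueprint: `P ≠ P'` forces `a ∈ P'`.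
Take `p ∈ P \ P'`, `q ∈ P' \ P` (same size).  Suppose `a ∉ P'`.  `r`: `p a q`; F3 of `r` with `B = ∅`:
`a p q` (call it `σ`).  If `r'` has `p` above `a`: F2b of `r'` (`U` = down to `p`): `p q a`, F2a of `r'`
on `σ`: `q a p`; Latin with `a p q`.  If `r'` has `a` above `p`: F2b of `r'` (`U` = down to `a`): `a q p`,
F2a of `r'` on `r`: `q p a`; Latin with `p a q`. -/
theorem good_a_mem [Finite X] {k : ℕ} {D : Set (LOrd X)} (hD : IsCD D) {r r' : LOrd X}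
    {P P' : Set X} {y a y' a' : X} (h : Good k D r P y a) (h' : Good k D r' P' y' a')
    (hne : P ≠ P') : a ∈ P' := by
  by_contra haP'
  obtain ⟨p, hp, hp'⟩ : ∃ p ∈ P, p ∉ P' := by
    by_contra hc
    push Not at hc
    exact hne (Set.eq_of_subset_of_ncard_le hc (by rw [h.card, h'.card]) (Set.toFinite _))
  obtain ⟨q, hq', hq⟩ : ∃ q ∈ P', q ∉ P := by
    by_contra hc
    push Not at hc
    exact hne (Set.eq_of_subset_of_ncard_le hc (by rw [h.card, h'.card]) (Set.toFinite _)).symm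
  have hpa : p ≠ a := by
    rintro rfl
    exact h.a_notMem hp
  have hqa : q ≠ a := by
    rintro rfl
    exact haP' hq'
  have hraq : r.lt a q := h.a_first q hq hqa
  have hrpa : r.lt p a := h.top p hp a h.a_notMem
  rcases r'.total p a hpa with hpa' | hap'
  · -- `r'` has `p` above `a`
    obtain ⟨u1, hu1, h11, h12, h13, h14⟩ := good1_F3 h ∅ (Set.empty_subset _)
      (fun b hb => absurd hb (Set.notMem_empty b))
    have hpy' : p ≠ y' := by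
      rintro rfl
      exact r'.asymm hpa' (h'.y_last a (Ne.symm hpa))
    have hu1ap : u1.lt a p := by
      rw [h13 a h.a_notMem p hp]
      exact ⟨rfl, Set.notMem_empty p⟩
    obtain ⟨u2, hu2, -, -, h23, h24⟩ := good1_F2b h' (x := p) hpy'
    obtain ⟨u3, hu3, h31, -, h33⟩ := good1_F2a h' hu1
    refine hD u1 hu1 u2 hu2 u3 hu3 a p q ⟨⟨hu1ap, ?_⟩, ⟨?_, ?_⟩, ⟨?_, ?_⟩⟩
    · rw [h14 q hq p hp]
      rintro ⟨hqa', -⟩
      exact hqa hqa'
    · rw [h23 p hp' q hq']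
      exact Or.inl rfl
    · rw [h24 a haP' q hq']
      rintro (hap | hap)
      · exact hpa hap.symm
      · exact r'.asymm hap hpa'
    · exact h33 q hq' a haP'
    · rw [h31 a haP' p hp']
      exact hu1ap
  · -- `r'` has `a` above `p`
    have hay' : a ≠ y' := by
      rintro rfl
      exact r'.asymm hap' (h'.y_last p hpa)
    obtain ⟨u2, hu2, -, -, h23, h24⟩ := good1_F2b h' (x := a) hay'
    obtain ⟨u3, hu3, h31, -, h33⟩ := good1_F2a h' h.mem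
    refine hD r h.mem u2 hu2 u3 hu3 p a q ⟨⟨hrpa, hraq⟩, ⟨?_, ?_⟩, ⟨?_, ?_⟩⟩
    · rw [h23 a haP' q hq']
      exact Or.inl rfl
    · rw [h24 p hp' q hq']
      rintro (hpa'' | hpa'')
      · exact hpa hpa''
      · exact r'.asymm hpa'' hap'
    · exact h33 q hq' p hp'
    · rw [h31 p hp' a haP']
      exact hrpa

end Pool.Agent.CDI
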