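import Pool.Agent.CDI.GoodBase

/-!
# At most two good orders (blueprint section 2, (4)), relabelling
-/

namespace Pool.Agent.CDI

open LOrd

variable {X : Type*}

/-- the orders (F3) exist -/
theorem Good.exists_F3 {k : ℕ} {D : Set (LOrd X)} {r : LOrd X} {P : Set X} {y a : X}
    (h : Good k D r P y a) (B : Set X) (hB : B ⊆ P)
    (hBi : ∀ b ∈ B, ∀ b' ∈ P, r.lt b' b → b' ∈ B) :
    ∃ u ∈ D, (∀ b ∈ P, ∀ b' ∈ P, (u.lt b b' ↔ r.lt b b')) ∧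
      (∀ b ∈ P, (u.lt a b ↔ b ∉ B)) ∧ (∀ b ∈ P, (u.lt b a ↔ b ∈ B)) := by
  obtain ⟨u, h1, h2, h3, h4⟩ := exists_glue r r P (fun x b => x = a ∧ b ∉ B) (by
    intro x hx x' hx' b _ hlt hxb
    obtain ⟨rfl, hb⟩ := hxb
    by_cases hc : x' = x
    · exact ⟨hc, hb⟩
    · exact absurd hlt (r.asymm (h.a_first x' hx' hc))) (by
    intro x _ b hb b' hb' hlt hxb
    exact ⟨hxb.1, fun hc => hxb.2 (hBi b' hc b hb hlt)⟩)
  refine ⟨u, h.F3 B hB hBi u h1 (fun b hb b' hb' => h2 b hb b' hb') h3,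
    fun b hb b' hb' => h2 b hb b' hb', fun b hb => ?_, fun b hb => ?_⟩
  · rw [h3 a h.a_notMem b hb]
    simp
  · rw [h4 a h.a_notMem b hb]
    simp

/-- the three positions of `a` relative to two elements of `P` -/
theorem Good.three {k : ℕ} {D : Set (LOrd X)} {r : LOrd X} {P : Set X} {y a : X}
    (h : Good k D r P y a) {x z : X} (hx : x ∈ P) (hz : z ∈ P) (hxz : r.lt x z) :
    (∃ u ∈ D, u.lt x z ∧ u.lt z a) ∧ (∃ u ∈ D, u.lt x a ∧ u.lt a z) ∧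
      (∃ u ∈ D, u.lt a x ∧ u.lt x z) := by
  refine ⟨?_, ?_, ?_⟩
  · obtain ⟨u, hu, h1, -, h3⟩ := h.exists_F3 P subset_rfl (fun b _ b' hb' _ => hb')
    exact ⟨u, hu, (h1 x hx z hz).2 hxz, (h3 z hz).2 hz⟩
  · obtain ⟨u, hu, -, h2, h3⟩ := h.exists_F3 {b ∈ P | b = x ∨ r.lt b x} (fun b hb => hb.1)
      (by
        rintro b ⟨_, hb⟩ b' hb' hlt
        refine ⟨hb', Or.inr ?_⟩
        rcases hb with rfl | hb
        · exact hlt
        · exact r.tr hlt hb)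
    refine ⟨u, hu, (h3 x hx).2 ⟨hx, Or.inl rfl⟩, (h2 z hz).2 ?_⟩
    rintro ⟨_, h4 | h4⟩
    · exact r.ne hxz h4.symm
    · exact r.asymm hxz h4
  · obtain ⟨u, hu, h1, h2, -⟩ := h.exists_F3 ∅ (Set.empty_subset _) (fun b hb => absurd hb (by simp))
    exact ⟨u, hu, (h2 x hx).2 (by simp), (h1 x hx z hz).2 hxz⟩

/-- **Among three good orders two are equal.**  See blueprint section 2 (4): with pairwise distinct
`P₁, P₂, P₃` one has `aᵢ ∈ Pⱼ` for `i ≠ j`; F3 (with `B = ∅`, `B` = down to `x`, `B = P`) gives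
`aᵢ x z`, `x aᵢ z`, `x z aᵢ` for `x` above `z` in `rᵢ`, `{x, z} = {aⱼ, aₖ}`, and each of the eight
orientations yields a Latin triple. -/
theorem good_three [Finite X] {k : ℕ} (hk : 1 ≤ k) {D : Set (LOrd X)} (hD : IsCD D)
    {r₁ r₂ r₃ : LOrd X} {P₁ P₂ P₃ : Set X} {y₁ y₂ y₃ a₁ a₂ a₃ : X}
    (h₁ : Good k D r₁ P₁ y₁ a₁) (h₂ : Good k D r₂ P₂ y₂ a₂) (h₃ : Good k D r₃ P₃ y₃ a₃) :
    r₁ = r₂ ∨ r₁ = r₃ ∨ r₂ = r₃ := by
  by_cases h12 : P₁ = P₂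
  · subst h12
    exact Or.inl (good_same_P hk hD h₁ h₂)
  by_cases h13 : P₁ = P₃
  · subst h13
    exact Or.inr (Or.inl (good_same_P hk hD h₁ h₃))
  by_cases h23 : P₂ = P₃
  · subst h23
    exact Or.inr (Or.inr (good_same_P hk hD h₂ h₃))
  exfalso
  have m12 := good_a_mem hD h₁ h₂ h12
  have m13 := good_a_mem hD h₁ h₃ h13
  have m21 := good_a_mem hD h₂ h₁ (Ne.symm h12)
  have m23 := good_a_mem hD h₂ h₃ h23
  have m31 := good_a_mem hD h₃ h₁ (Ne.symm h13)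
  have m32 := good_a_mem hD h₃ h₂ (Ne.symm h23)
  have n12 : a₁ ≠ a₂ := fun h => h₁.a_notMem (h ▸ m21)
  have n13 : a₁ ≠ a₃ := fun h => h₁.a_notMem (h ▸ m31)
  have n23 : a₂ ≠ a₃ := fun h => h₂.a_notMem (h ▸ m32)
  have E : (∃ u ∈ D, u.lt a₁ a₂ ∧ u.lt a₂ a₃) → (∃ u ∈ D, u.lt a₂ a₃ ∧ u.lt a₃ a₁) →
      (∃ u ∈ D, u.lt a₃ a₁ ∧ u.lt a₁ a₂) → False := by
    rintro ⟨u, hu, hu'⟩ ⟨v, hv, hv'⟩ ⟨w, hw, hw'⟩
    exact hD u hu v hv w hw a₁ a₂ a₃ ⟨hu', hv', hw'⟩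
  have O : (∃ u ∈ D, u.lt a₁ a₃ ∧ u.lt a₃ a₂) → (∃ u ∈ D, u.lt a₃ a₂ ∧ u.lt a₂ a₁) →
      (∃ u ∈ D, u.lt a₂ a₁ ∧ u.lt a₁ a₃) → False := by
    rintro ⟨u, hu, hu'⟩ ⟨v, hv, hv'⟩ ⟨w, hw, hw'⟩
    exact hD u hu v hv w hw a₁ a₃ a₂ ⟨hu', hv', hw'⟩
  rcases r₁.total a₂ a₃ n23 with o1 | o1 <;> rcases r₂.total a₁ a₃ n13 with o2 | o2 <;>
    rcases r₃.total a₁ a₂ n12 with o3 | o3
  · obtain ⟨q1, q2, q3⟩ := h₁.three m21 m31 o1
    obtain ⟨s1, s2, s3⟩ := h₂.three m12 m32 o2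
    obtain ⟨t1, t2, t3⟩ := h₃.three m13 m23 o3
    exact E q3 q1 t3
  · obtain ⟨q1, q2, q3⟩ := h₁.three m21 m31 o1
    obtain ⟨s1, s2, s3⟩ := h₂.three m12 m32 o2
    obtain ⟨t1, t2, t3⟩ := h₃.three m23 m13 o3
    exact O s1 t3 q2
  · obtain ⟨q1, q2, q3⟩ := h₁.three m21 m31 o1
    obtain ⟨s1, s2, s3⟩ := h₂.three m32 m12 o2
    obtain ⟨t1, t2, t3⟩ := h₃.three m13 m23 o3
    exact E q3 q1 t3
  · obtain ⟨q1, q2, q3⟩ := h₁.three m21 m31 o1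
    obtain ⟨s1, s2, s3⟩ := h₂.three m32 m12 o2
    obtain ⟨t1, t2, t3⟩ := h₃.three m23 m13 o3
    exact E q3 q1 s1
  · obtain ⟨q1, q2, q3⟩ := h₁.three m31 m21 o1
    obtain ⟨s1, s2, s3⟩ := h₂.three m12 m32 o2
    obtain ⟨t1, t2, t3⟩ := h₃.three m13 m23 o3
    exact O q3 q1 s3
  · obtain ⟨q1, q2, q3⟩ := h₁.three m31 m21 o1
    obtain ⟨s1, s2, s3⟩ := h₂.three m12 m32 o2
    obtain ⟨t1, t2, t3⟩ := h₃.three m23 m13 o3
    exact O q3 q1 s3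
  · obtain ⟨q1, q2, q3⟩ := h₁.three m31 m21 o1
    obtain ⟨s1, s2, s3⟩ := h₂.three m32 m12 o2
    obtain ⟨t1, t2, t3⟩ := h₃.three m13 m23 o3
    exact E t1 s3 q2
  · obtain ⟨q1, q2, q3⟩ := h₁.three m31 m21 o1
    obtain ⟨s1, s2, s3⟩ := h₂.three m32 m12 o2
    obtain ⟨t1, t2, t3⟩ := h₃.three m23 m13 o3
    exact O q3 q1 t1

/-- Relabelling a good decomposition. -/
theorem Good.map {Y : Type*} {k : ℕ} {D : Set (LOrd X)} {r : LOrd X} {P : Set X} {y a : X}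
    (h : Good k D r P y a) (π : X ≃ Y) :
    Good k (LOrd.map π '' D) (r.map π) (π '' P) (π y) (π a) := by
  have hm : ∀ x, π x ∈ π '' P ↔ x ∈ P := fun x => π.injective.mem_set_image
  have hs : ∀ (u : LOrd Y) (x x' : X), (u.map π.symm).lt x x' ↔ u.lt (π x) (π x') := by
    intro u x x'
    simp
  refine ⟨Set.mem_image_of_mem _ h.mem, ?_, ?_, ?_, ?_, ?_, ?_, ?_, ?_, ?_, ?_, ?_⟩
  · rw [Set.ncard_image_of_injective _ π.injective, h.card]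
  · rintro _ ⟨b, hb, rfl⟩ x hx
    obtain ⟨x, rfl⟩ := π.surjective x
    rw [hm] at hx
    rw [map_lt']
    exact h.top b hb x hx
  · rw [hm]
    exact h.y_notMem
  · rw [hm]
    exact h.a_notMem
  · intro x hx
    obtain ⟨x, rfl⟩ := π.surjective x
    rw [map_lt']
    exact h.y_last x (fun hc => hx (by rw [hc]))
  · intro x hx hxa
    obtain ⟨x, rfl⟩ := π.surjective x
    rw [hm] at hx
    rw [map_lt']
    exact h.a_first x hx (fun hc => hxa (by rw [hc]))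
  · exact fun hc => h.a_ne_y (π.injective hc)
  · rintro _ ⟨σ, hσ, rfl⟩ u h1 h2 h3
    rw [mem_image_map_iff]
    refine h.F2a σ hσ _ ?_ ?_ ?_
    · intro x hx x' hx'
      rw [hs, h1 _ ((hm x).not.2 hx) _ ((hm x').not.2 hx'), map_lt']
    · intro b hb b' hb'
      rw [hs, h2 _ ((hm b).2 hb) _ ((hm b').2 hb'), map_lt']
    · intro b hb x hx
      rw [hs]
      exact h3 _ ((hm b).2 hb) _ ((hm x).not.2 hx)
  · intro U hU hyU hUi u h1 h2 h3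
    rw [mem_image_map_iff]
    refine h.F2b (π ⁻¹' U) ?_ hyU ?_ _ ?_ ?_ ?_
    · intro x hx hxP
      exact hU _ hx ((hm x).2 hxP)
    · intro x hx x' hx' hlt
      refine hUi (π x) hx (π x') ((hm x').not.2 hx') ?_
      rw [map_lt']
      exact hlt
    · intro x hx x' hx'
      rw [hs, h1 _ ((hm x).not.2 hx) _ ((hm x').not.2 hx'), map_lt']
    · intro b hb b' hb'
      rw [hs, h2 _ ((hm b).2 hb) _ ((hm b').2 hb'), map_lt']
    · intro x hx b hb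
      rw [hs, h3 _ ((hm x).not.2 hx) _ ((hm b).2 hb)]
      rfl
  · intro B hB hBi u h1 h2 h3
    rw [mem_image_map_iff]
    refine h.F3 (π ⁻¹' B) ?_ ?_ _ ?_ ?_ ?_
    · intro x hx
      exact (hm x).1 (hB hx)
    · intro b hb b' hb' hlt
      refine hBi (π b) hb (π b') ((hm b').2 hb') ?_
      rw [map_lt']
      exact hlt
    · intro x hx x' hx'
      rw [hs, h1 _ ((hm x).not.2 hx) _ ((hm x').not.2 hx'), map_lt']
    · intro b hb b' hb'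
      rw [hs, h2 _ ((hm b).2 hb) _ ((hm b').2 hb'), map_lt']
    · intro x hx b hb
      rw [hs, h3 _ ((hm x).not.2 hx) _ ((hm b).2 hb), π.injective.eq_iff]
      rfl
  · rintro _ ⟨σ, hσ, rfl⟩ u h1 h2 h3
    rw [mem_image_map_iff]
    refine h.F4 σ hσ _ ?_ ?_ ?_
    · intro x hx x' hx'
      rw [hs, h1 _ ((hm x).not.2 hx) _ ((hm x').not.2 hx'), map_lt']
    · intro b hb b' hb'
      rw [hs, h2 _ ((hm b).2 hb) _ ((hm b').2 hb'), map_lt']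
    · intro x hx b hb
      rw [hs, h3 _ ((hm x).not.2 hx) _ ((hm b).2 hb), map_lt', Ne, π.injective.eq_iff]

end Pool.Agent.CDI
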