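import Pool.Agent.CDI.Base

/-!
# Linear orders on a finite set: relabellings are unique and transitive
-/

namespace Pool.Agent.CDI

open LOrd

variable {X : Type*}

/-- the linear order (in the sense of Mathlib) attached to `r`; `a < b` iff `r.lt a b` -/
noncomputable def LOrd.toLin (r : LOrd X) : LinearOrder X where
  le a b := a = b ∨ r.lt a b
  lt a b := r.lt a b
  le_refl a := Or.inl rfl
  le_trans a b c := by
    rintro (rfl | h) (rfl | h')
    · exact Or.inl rfl
    · exact Or.inr h'
    · exact Or.inr h
    · exact Or.inr (r.tr h h')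
  lt_iff_le_not_ge a b := by
    constructor
    · intro h
      refine ⟨Or.inr h, ?_⟩
      rintro (rfl | h')
      · exact r.irrefl _ h
      · exact r.asymm h h'
    · rintro ⟨rfl | h, h'⟩
      · exact absurd (Or.inl rfl) h'
      · exact h
  le_antisymm a b := by
    rintro (rfl | h) (h' | h')
    · rfl
    · rfl
    · exact h'.symm
    · exact absurd h' (r.asymm h)
  le_total a b := by
    by_cases h : a = b
    · exact Or.inl (Or.inl h)
    · rcases r.total a b h with h | h
      · exact Or.inl (Or.inr h)
      · exact Or.inr (Or.inr h)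
  toDecidableLE := Classical.decRel _

/-- A finite linear order is a relabelling of the standard one. -/
theorem exists_equiv_idOrd [Finite X] (r : LOrd X) :
    ∃ f : X ≃ Fin (Nat.card X), ∀ a b, r.lt a b ↔ f a < f b := by
  classical
  have := Fintype.ofFinite X
  letI := r.toLin
  have e : Fin (Nat.card X) ≃o X := Fintype.orderIsoFinOfCardEq X (Nat.card_eq_fintype_card).symm
  refine ⟨e.symm.toEquiv, fun a b => ?_⟩
  exact (e.symm.lt_iff_lt (x := a) (y := b)).symm

/-- Any two linear orders on a finite set are relabellings of each other. -/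
theorem exists_map_eq [Finite X] (r s : LOrd X) : ∃ π : Equiv.Perm X, r.map π = s := by
  obtain ⟨f, hf⟩ := exists_equiv_idOrd r
  obtain ⟨g, hg⟩ := exists_equiv_idOrd s
  refine ⟨f.trans g.symm, ?_⟩
  ext a b
  rw [map_lt, hf, hg]
  simp

/-- Automorphisms of finite linear orders are trivial. -/
theorem eq_refl_of_map_eq [Finite X] {r : LOrd X} {π : Equiv.Perm X} (h : r.map π = r) :
    π = Equiv.refl X := by
  classical
  have := Fintype.ofFinite X
  letI := r.toLin
  have h1 : ∀ a b, π a < π b ↔ a < b := by
    intro a b
    have h2 := map_lt' π r a b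
    rw [h] at h2
    exact h2
  let e : X ≃o X := ⟨π, by
    intro a b
    rw [← _root_.not_lt, ← _root_.not_lt]
    exact not_congr (h1 b a)⟩
  have h3 : e = OrderIso.refl X := Subsingleton.elim _ _
  ext a
  exact congrArg (fun f : X ≃o X => f a) h3

/-- Relabellings are determined by their effect on one order. -/
theorem perm_eq_of_map_eq [Finite X] {r : LOrd X} {π ρ : Equiv.Perm X} (h : r.map π = r.map ρ) :
    π = ρ := by
  have h1 : r.map (π.trans ρ.symm) = r := by
    rw [← map_map, h, map_symm_map]
  have h2 := eq_refl_of_map_eq h1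
  ext a
  have h3 := congrArg (fun f : Equiv.Perm X => ρ (f a)) h2
  simpa using h3

end Pool.Agent.CDI
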