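import Pool.Agent.CDI.Median
import Pool.Agent.CDI.Iso

/-!
# Tree sequences generating a domain (blueprint section 10)
-/

namespace Pool.Agent.CDI

open LOrd

variable {X : Type*}

/-- Every term after the first repeats, or is adjacent in `S` to, an earlier term. -/
def TreeSeq (S : Set (LOrd X)) (J : ℕ) (v : Fin (J + 1) → LOrd X) : Prop :=
  (∀ j, v j ∈ S) ∧ ∀ j, j ≠ 0 → ∃ i < j, v j = v i ∨ Edge S (v i) (v j)

/-- The set generated from a labelled sequence. -/
def genSet {J : ℕ} (v : Fin (J + 1) → LOrd X) (ℓ : Fin (J + 1) → Fin (J + 1)) : Set (LOrd X) :=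
  {r | ∃ j, ∃ h ∈ Subgroup.closure {g : Equiv.Perm X | ∃ i j, ℓ i = ℓ j ∧ (v i).map g = v j},
    r = (v j).map h}

namespace Grp

theorem mapMul (g h : Equiv.Perm X) (r : LOrd X) : r.map (g * h) = (r.map h).map g :=
  (LOrd.map_map h g r).symm

theorem mapOne (r : LOrd X) : r.map (1 : Equiv.Perm X) = r := LOrd.map_refl r

theorem map_inv_map (g : Equiv.Perm X) (r : LOrd X) : (r.map g).map g⁻¹ = r :=
  LOrd.map_symm_map g r

theorem map_map_inv (g : Equiv.Perm X) (r : LOrd X) : (r.map g⁻¹).map g = r :=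
  LOrd.map_map_symm g r

/-- the automorphism group of a set of orders -/
def aut (S : Set (LOrd X)) : Subgroup (Equiv.Perm X) where
  carrier := {h | LOrd.map h '' S = S}
  mul_mem' := by
    intro a b ha hb
    change LOrd.map (b.trans a) '' S = S
    rw [← image_map_map]
    have hb' : LOrd.map b '' S = S := hb
    rw [hb']
    exact ha
  one_mem' := image_map_refl S
  inv_mem' := by
    intro a ha
    have ha' : LOrd.map a '' S = S := ha
    have h := image_symm_image a S
    rw [ha'] at h
    exact h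

theorem mem_aut {S : Set (LOrd X)} {h : Equiv.Perm X} : h ∈ aut S ↔ LOrd.map h '' S = S := Iff.rfl

theorem aut_map_mem {S : Set (LOrd X)} {h : Equiv.Perm X} (hh : h ∈ aut S) {r : LOrd X}
    (hr : r ∈ S) : r.map h ∈ S := by
  have : LOrd.map h '' S = S := hh
  rw [← this]
  exact ⟨r, hr, rfl⟩

theorem edge_map {S : Set (LOrd X)} {h : Equiv.Perm X} (hh : h ∈ aut S) {s t : LOrd X}
    (hst : Edge S s t) : Edge S (s.map h) (t.map h) := by
  obtain ⟨hs, ht, hne, hb⟩ := hst
  refine ⟨aut_map_mem hh hs, aut_map_mem hh ht, fun he => hne (LOrd.map_injective h he), ?_⟩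
  intro w hw hbt
  have h1 : w.map h⁻¹ ∈ S := aut_map_mem ((aut S).inv_mem hh) hw
  have h2 : Btw s t (w.map h⁻¹) := by
    intro x y hsx htx
    have h3 := hbt (h x) (h y) (by rw [map_lt']; exact hsx) (by rw [map_lt']; exact htx)
    exact h3
  rcases hb _ h1 h2 with h3 | h3
  · left; rw [← h3, map_map_inv]
  · right; rw [← h3, map_map_inv]

/-- A subset of a finite domain closed under adjacency is everything. -/
theorem connected [Finite X] {S U : Set (LOrd X)} {e : LOrd X} (he : e ∈ S) (heU : e ∈ U)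
    (hU : ∀ s ∈ U, ∀ t, Edge S s t → t ∈ U) : S ⊆ U := by
  intro t ht
  have key : ∀ n : ℕ, ∀ s ∈ S, s ∈ U → {p : X × X | Dis s t p.1 p.2}.ncard = n → t ∈ U := by
    intro n
    induction n using Nat.strong_induction_on with
    | _ n ih =>
      intro s hs hsU hn
      by_cases hst : s = t
      · exact hst ▸ hsU
      obtain ⟨w, hw, hb⟩ := exists_edge hs ht hst
      refine ih _ ?_ w hw.2.1 (hU s hsU w hw) rfl
      rw [← hn]
      apply Set.ncard_lt_ncard
      · rw [Set.ssubset_iff_exists]
        refine ⟨?_, ?_⟩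
        · rintro ⟨x, y⟩ hxy
          change Dis w t x y at hxy
          change Dis s t x y
          by_contra hcon
          rw [not_dis_iff] at hcon
          rcases hxy with ⟨h1, h2⟩ | ⟨h1, h2⟩
          · rcases s.total x y (w.ne h1) with h3 | h3
            · exact t.asymm h2 (hcon.1 h3)
            · exact w.asymm h1 (hb _ _ h3 h2)
          · rcases s.total x y (w.ne h1).symm with h3 | h3
            · exact w.asymm h1 (hb _ _ h3 h2)
            · exact s.asymm h3 (hcon.2 h2)
        · obtain ⟨x, y, hxy⟩ := exists_dis_of_ne hw.2.2.1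
          refine ⟨(x, y), ?_, ?_⟩
          · change Dis s t x y
            by_contra hcon
            rw [not_dis_iff] at hcon
            rcases hxy with ⟨h1, h2⟩ | ⟨h1, h2⟩
            · exact w.asymm h2 (hb _ _ h1 (hcon.1 h1))
            · refine w.asymm h2 (hb _ _ h1 ?_)
              rcases t.total x y (s.ne h1).symm with h3 | h3
              · exact absurd (hcon.2 h3) (s.asymm h1)
              · exact h3
          · change ¬ Dis w t x y
            rw [not_dis_iff]
            rcases hxy with ⟨h1, h2⟩ | ⟨h1, h2⟩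
            · refine ⟨fun h3 => absurd h3 (w.asymm h2), fun h3 => ?_⟩
              exact hb _ _ h1 h3
            · refine ⟨fun _ => ?_, fun _ => h2⟩
              by_contra h3
              have h4 := (t.not_lt (w.ne h2)).1 h3
              exact w.asymm h2 (hb _ _ h1 h4)
      · exact Set.toFinite _
  exact key _ e he heU rfl

/-- Generation of a finite group by few elements of a generating set. -/
theorem exists_gens {G : Type*} [Group G] [Finite G] (A : Set G) (h1 : (1 : G) ∈ A) (L : ℕ)
    (hL : Nat.card G ≤ 2 ^ L) : ∃ g : ℕ → G, (∀ m, g m ∈ A) ∧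
      Subgroup.closure {y | ∃ m < L, g m = y} = Subgroup.closure A := by
  classical
  have key : ∀ n : ℕ, ∃ g : ℕ → G, (∀ m, g m ∈ A) ∧
      (Subgroup.closure {y | ∃ m < n, g m = y} = Subgroup.closure A ∨
        2 ^ n ≤ Nat.card (Subgroup.closure {y | ∃ m < n, g m = y})) := by
    intro n
    induction n with
    | zero =>
      refine ⟨fun _ => 1, fun _ => h1, Or.inr ?_⟩
      rw [pow_zero]
      exact Nat.one_le_iff_ne_zero.2 Nat.card_pos.ne'
    | succ n ih =>
      obtain ⟨g, hg, hor⟩ := ih
      have hsub : ∀ g' : ℕ → G, (∀ m, g' m ∈ A) → ∀ k,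
          Subgroup.closure {y | ∃ m < k, g' m = y} ≤ Subgroup.closure A := by
        intro g' hg' k
        apply Subgroup.closure_mono
        rintro y ⟨m, _, rfl⟩
        exact hg' m
      by_cases heq : Subgroup.closure {y | ∃ m < n, g m = y} = Subgroup.closure A
      · refine ⟨g, hg, Or.inl (le_antisymm (hsub g hg _) ?_)⟩
        rw [← heq]
        apply Subgroup.closure_mono
        rintro y ⟨m, hm, rfl⟩
        exact ⟨m, by omega, rfl⟩
      · have hcard := hor.resolve_left heq
        obtain ⟨a, ha, haK⟩ : ∃ a ∈ A, a ∉ Subgroup.closure {y | ∃ m < n, g m = y} := by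
          by_contra hcon
          push Not at hcon
          apply heq
          refine le_antisymm (hsub g hg _) ?_
          rw [Subgroup.closure_le]
          exact hcon
        set g' : ℕ → G := fun m => if m < n then g m else a with hg'
        have hg'A : ∀ m, g' m ∈ A := by
          intro m
          by_cases hm : m < n
          · simp only [hg', hm, if_true]; exact hg m
          · simp only [hg', hm, if_false]; exact ha
        have hle : Subgroup.closure {y | ∃ m < n, g m = y} ≤
            Subgroup.closure {y | ∃ m < n + 1, g' m = y} := by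
          apply Subgroup.closure_mono
          rintro y ⟨m, hm, rfl⟩
          exact ⟨m, by omega, by simp only [hg', hm, if_true]⟩
        have haK' : a ∈ Subgroup.closure {y | ∃ m < n + 1, g' m = y} :=
          Subgroup.subset_closure ⟨n, by omega, by simp [hg']⟩
        refine ⟨g', hg'A, Or.inr ?_⟩
        have hdvd := Subgroup.card_dvd_of_le hle
        obtain ⟨q, hq⟩ := hdvd
        have hpos : 0 < Nat.card (Subgroup.closure {y | ∃ m < n + 1, g' m = y}) := Nat.card_pos
        have hne : Nat.card (Subgroup.closure {y | ∃ m < n + 1, g' m = y}) ≠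
            Nat.card (Subgroup.closure {y | ∃ m < n, g m = y}) := by
          intro h2
          apply haK
          have h3 := Subgroup.eq_of_le_of_card_ge hle h2.le
          rw [h3]; exact haK'
        have hq2 : 2 ≤ q := by
          rcases q with _ | _ | q
          · omega
          · rw [zero_add, mul_one] at hq; exact absurd hq hne
          · omega
        rw [hq, pow_succ]
        exact Nat.mul_le_mul hcard hq2
  obtain ⟨g, hg, hor⟩ := key L
  refine ⟨g, hg, ?_⟩
  rcases hor with h | h
  · exact h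
  · have h2 : Subgroup.closure {y | ∃ m < L, g m = y} = ⊤ :=
      Subgroup.eq_top_of_le_card _ (hL.trans h)
    rw [h2]
    symm
    rw [eq_top_iff, ← h2]
    apply Subgroup.closure_mono
    rintro y ⟨m, _, rfl⟩
    exact hg m

/-- sequences of members of distinct orbits, connected by edges -/
def TS (S : Set (LOrd X)) (e : LOrd X) (k : ℕ) (v : ℕ → LOrd X) : Prop :=
  v 0 = e ∧ (∀ j ≤ k, v j ∈ S) ∧ (∀ j ≤ k, j ≠ 0 → ∃ i < j, Edge S (v i) (v j)) ∧
    ∀ i ≤ k, ∀ j ≤ k, i ≠ j → ∀ h ∈ aut S, (v i).map h ≠ v j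

theorem TS.bound [Finite X] {S : Set (LOrd X)} {e : LOrd X} {k : ℕ} {v : ℕ → LOrd X}
    (h : TS S e k v) : k + 1 ≤
      Set.ncard {T : Set (LOrd X) | e ∈ T ∧ ∃ π : Equiv.Perm X, T = LOrd.map π '' S} := by
  obtain ⟨-, h2, -, h4⟩ := h
  have h5 : ∀ j : ℕ, ∃ π : Equiv.Perm X, (v j).map π = e := fun j => exists_map_eq _ _
  choose π hπ using h5
  let f : Fin (k + 1) → {T : Set (LOrd X) | e ∈ T ∧ ∃ π : Equiv.Perm X, T = LOrd.map π '' S} :=
    fun j => ⟨LOrd.map (π j) '' S, ⟨v j, h2 j (by omega), hπ j⟩, π j, rfl⟩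
  have hf : Function.Injective f := by
    intro i j hij
    by_contra hne
    have h6 : LOrd.map (π i) '' S = LOrd.map (π j) '' S := congrArg Subtype.val hij
    have h7 : (π i).trans (π j).symm ∈ aut S := by
      rw [mem_aut, ← image_map_map, h6, image_symm_image]
    refine h4 i (by omega) j (by omega) (fun h => hne (Fin.ext h)) _ h7 ?_
    rw [← LOrd.map_map, hπ i, ← hπ j, LOrd.map_symm_map]
  have h8 := Nat.card_le_card_of_injective f hf
  rwa [Nat.card_eq_fintype_card, Fintype.card_fin, Nat.card_coe_set_eq] at h8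

theorem TS.extend {S : Set (LOrd X)} {e : LOrd X} {k : ℕ} {v : ℕ → LOrd X}
    (h : TS S e k v) (hk : ¬ ∃ v', TS S e (k + 1) v') {i : ℕ} (hi : i ≤ k) {w : LOrd X}
    (hw : Edge S (v i) w) : ∃ j ≤ k, ∃ g ∈ aut S, (v j).map g = w := by
  classical
  by_contra hcon
  push Not at hcon
  apply hk
  obtain ⟨h1, h2, h3, h4⟩ := h
  have hv : ∀ j ≤ k, (fun j => if j ≤ k then v j else w) j = v j := by
    intro j hj
    simp only [hj, if_true]
  have hw' : (fun j => if j ≤ k then v j else w) (k + 1) = w := by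
    have : ¬ k + 1 ≤ k := by omega
    simp only [this, if_false]
  refine ⟨fun j => if j ≤ k then v j else w, ?_, ?_, ?_, ?_⟩
  · rw [hv 0 (Nat.zero_le _), h1]
  · intro j hj
    by_cases hjk : j ≤ k
    · rw [hv j hjk]; exact h2 j hjk
    · have : j = k + 1 := by omega
      subst this
      rw [hw']; exact hw.2.1
  · intro j hj hj0
    by_cases hjk : j ≤ k
    · obtain ⟨i', hi', he⟩ := h3 j hjk hj0
      exact ⟨i', hi', by rw [hv j hjk, hv i' (by omega)]; exact he⟩
    · have : j = k + 1 := by omega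
      subst this
      exact ⟨i, by omega, by rw [hv i hi, hw']; exact hw⟩
  · intro i' hi' j hj hij g hg
    by_cases hik : i' ≤ k
    · by_cases hjk : j ≤ k
      · rw [hv i' hik, hv j hjk]; exact h4 i' hik j hjk hij g hg
      · have : j = k + 1 := by omega
        subst this
        rw [hv i' hik, hw']
        exact hcon i' hik g hg
    · have : i' = k + 1 := by omega
      subst this
      have hjk : j ≤ k := by omega
      rw [hw', hv j hjk]
      intro hc
      refine hcon j hjk g⁻¹ ((aut S).inv_mem hg) ?_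
      rw [← hc, map_inv_map]

end Grp

open Grp in
/-- **Tree generation.**  `x` bounds the number of orbits of the automorphism group of `S` on `S`,
expressed as the number of relabellings of `S` containing `e`. -/
theorem exists_treeSeq [Finite X] {S : Set (LOrd X)} (hS : MaxCD S) {e : LOrd X} (he : e ∈ S)
    (x L : ℕ)
    (hx : Set.ncard {T : Set (LOrd X) | e ∈ T ∧ ∃ π : Equiv.Perm X, T = LOrd.map π '' S} ≤ x)
    (hL : (Nat.card X).factorial ≤ 2 ^ L) :
    ∃ (v : Fin (x + L + 1) → LOrd X) (ℓ : Fin (x + L + 1) → Fin (x + L + 1)),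
      v 0 = e ∧ TreeSeq S (x + L) v ∧ S = genSet v ℓ := by
  classical
  -- a maximal transversal sequence
  obtain ⟨k, ⟨v, hv⟩, hk⟩ : ∃ k, (∃ v, TS S e k v) ∧ ¬ ∃ v, TS S e (k + 1) v := by
    by_contra hcon
    push Not at hcon
    have hall : ∀ k, ∃ v, TS S e k v := by
      intro k
      induction k with
      | zero =>
        refine ⟨fun _ => e, rfl, fun _ _ => he, fun j hj hj0 => absurd (Nat.le_zero.1 hj) hj0, ?_⟩
        intro i hi j hj hij
        omega
      | succ k ih => exact hcon k ih
    obtain ⟨v, hv⟩ := hall x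
    have := hv.bound
    omega
  have hkx : k + 1 ≤ x := hv.bound.trans hx
  have hext : ∀ i ≤ k, ∀ w, Edge S (v i) w → ∃ j ≤ k, ∃ g ∈ aut S, (v j).map g = w :=
    fun i hi w hw => hv.extend hk hi hw
  obtain ⟨hv0, hvS, hvE, -⟩ := hv
  -- the generators
  set A : Set (Equiv.Perm X) := {g | g ∈ aut S ∧ ∃ c ≤ k, (v c).map g = v 0 ∨
    ∃ b ≤ k, Edge S (v b) ((v c).map g)} with hA
  have h1A : (1 : Equiv.Perm X) ∈ A :=
    ⟨(aut S).one_mem, 0, Nat.zero_le _, Or.inl (mapOne _)⟩
  have hcardX : Nat.card (Equiv.Perm X) ≤ 2 ^ L := by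
    have := Fintype.ofFinite X
    rw [Nat.card_eq_fintype_card, Fintype.card_perm]
    rwa [Nat.card_eq_fintype_card] at hL
  obtain ⟨g, hgA, hgcl⟩ := exists_gens A h1A L hcardX
  have hgaut : ∀ m, g m ∈ aut S := fun m => (hgA m).1
  choose c hck hc using fun m => (hgA m).2
  -- the final sequence
  let u : ℕ → LOrd X := fun j =>
    if j ≤ k then v j else if j ≤ k + L then (v (c (j - (k + 1)))).map (g (j - (k + 1))) else v 0
  let lab : ℕ → ℕ := fun j => if j ≤ k then j else if j ≤ k + L then c (j - (k + 1)) else 0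
  have hu1 : ∀ j ≤ k, u j = v j := fun j hj => by simp only [u, hj, if_true]
  have hu2 : ∀ m < L, u (k + 1 + m) = (v (c m)).map (g m) := by
    intro m hm
    have h1 : ¬ k + 1 + m ≤ k := by omega
    have h2 : k + 1 + m ≤ k + L := by omega
    simp only [u, h1, h2, if_true, if_false]
    rw [Nat.add_sub_cancel_left]
  have hu3 : ∀ j, k + L < j → u j = v 0 := by
    intro j hj
    have h1 : ¬ j ≤ k := by omega
    have h2 : ¬ j ≤ k + L := by omega
    simp only [u, h1, h2, if_false]
  have hl1 : ∀ j ≤ k, lab j = j := fun j hj => by simp only [lab, hj, if_true]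
  have hl2 : ∀ m < L, lab (k + 1 + m) = c m := by
    intro m hm
    have h1 : ¬ k + 1 + m ≤ k := by omega
    have h2 : k + 1 + m ≤ k + L := by omega
    simp only [lab, h1, h2, if_true, if_false]
    rw [Nat.add_sub_cancel_left]
  have hl3 : ∀ j, k + L < j → lab j = 0 := by
    intro j hj
    have h1 : ¬ j ≤ k := by omega
    have h2 : ¬ j ≤ k + L := by omega
    simp only [lab, h1, h2, if_false]
  have hcases : ∀ j, j ≤ k ∨ (∃ m < L, j = k + 1 + m) ∨ k + L < j := by
    intro j
    by_cases h1 : j ≤ k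
    · exact Or.inl h1
    · by_cases h2 : j ≤ k + L
      · exact Or.inr (Or.inl ⟨j - (k + 1), by omega, by omega⟩)
      · exact Or.inr (Or.inr (by omega))
  have hlabk : ∀ j, lab j ≤ k := by
    intro j
    rcases hcases j with h | ⟨m, hm, rfl⟩ | h
    · rw [hl1 j h]; exact h
    · rw [hl2 m hm]; exact hck m
    · rw [hl3 j h]; exact Nat.zero_le _
  have hrep : ∀ j, ∃ a ∈ aut S, u j = (v (lab j)).map a := by
    intro j
    rcases hcases j with h | ⟨m, hm, rfl⟩ | h
    · exact ⟨1, (aut S).one_mem, by rw [hl1 j h, hu1 j h, mapOne]⟩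
    · exact ⟨g m, hgaut m, by rw [hl2 m hm, hu2 m hm]⟩
    · exact ⟨1, (aut S).one_mem, by rw [hl3 j h, hu3 j h, mapOne]⟩
  have huS : ∀ j, u j ∈ S := by
    intro j
    obtain ⟨a, ha, haj⟩ := hrep j
    rw [haj]
    exact aut_map_mem ha (hvS _ (hlabk j))
  refine ⟨fun j => u j, fun j => ⟨lab j, by have := hlabk j; omega⟩, ?_, ⟨fun j => huS j, ?_⟩, ?_⟩
  · change u 0 = e
    rw [hu1 0 (Nat.zero_le _), hv0]
  · intro j hj0
    have hj0' : (j : ℕ) ≠ 0 := fun h => hj0 (Fin.ext h)
    rcases hcases j with h | ⟨m, hm, hjm⟩ | h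
    · obtain ⟨i, hi, hE⟩ := hvE j h hj0'
      refine ⟨⟨i, by omega⟩, hi, Or.inr ?_⟩
      change Edge S (u i) (u j)
      rw [hu1 i (by omega), hu1 j h]
      exact hE
    · rcases hc m with h1 | ⟨b, hb, hE⟩
      · refine ⟨0, Nat.pos_of_ne_zero hj0', Or.inl ?_⟩
        change u j = u 0
        rw [hjm, hu2 m hm, h1, hu1 0 (Nat.zero_le _)]
      · refine ⟨⟨b, by omega⟩, ?_, Or.inr ?_⟩
        · change b < (j : ℕ)
          omega
        · change Edge S (u b) (u j)
          rw [hu1 b hb, hjm, hu2 m hm]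
          exact hE
    · refine ⟨0, Nat.pos_of_ne_zero hj0', Or.inl ?_⟩
      change u j = u 0
      rw [hu3 j h, hu1 0 (Nat.zero_le _)]
  · -- generation
    set K : Subgroup (Equiv.Perm X) := Subgroup.closure {g : Equiv.Perm X |
      ∃ i j : Fin (x + L + 1), (⟨lab i, by have := hlabk i; omega⟩ : Fin (x + L + 1)) =
        ⟨lab j, by have := hlabk j; omega⟩ ∧ (u i).map g = u j} with hK
    have hKaut : K ≤ aut S := by
      rw [hK, Subgroup.closure_le]
      rintro g' ⟨i, j, hij, hg'⟩
      have hij' : lab i = lab j := congrArg Fin.val hij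
      obtain ⟨a, ha, hai⟩ := hrep i
      obtain ⟨b, hb, hbj⟩ := hrep j
      rw [hai, hbj, hij', ← mapMul] at hg'
      have h1 := perm_eq_of_map_eq hg'
      have h2 : g' = b * a⁻¹ := by rw [← h1]; group
      rw [h2]
      exact (aut S).mul_mem hb ((aut S).inv_mem ha)
    have hAK : Subgroup.closure A ≤ K := by
      rw [← hgcl, Subgroup.closure_le]
      rintro y ⟨m, hm, rfl⟩
      have hcm := hck m
      refine Subgroup.subset_closure ⟨⟨c m, by omega⟩, ⟨k + 1 + m, by omega⟩, ?_, ?_⟩
      · apply Fin.ext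
        change lab (c m) = lab (k + 1 + m)
        rw [hl1 _ hcm, hl2 m hm]
      · change (u (c m)).map (g m) = u (k + 1 + m)
        rw [hu1 _ hcm, hu2 m hm]
    apply Set.Subset.antisymm
    · -- everything is generated
      have h1 : S ⊆ {r | ∃ j ≤ k, ∃ h ∈ K, r = (v j).map h} := by
        apply connected he
        · exact ⟨0, Nat.zero_le _, 1, K.one_mem, by rw [hv0, mapOne]⟩
        · rintro s ⟨i, hi, h, hh, rfl⟩ t ht
          have h2 := edge_map ((aut S).inv_mem (hKaut hh)) ht
          rw [map_inv_map] at h2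
          obtain ⟨j, hj, g₀, hg₀, hg₀t⟩ := hext i hi _ h2
          have h3 : g₀ ∈ K := hAK (Subgroup.subset_closure
            ⟨hg₀, j, hj, Or.inr ⟨i, hi, by rw [hg₀t]; exact h2⟩⟩)
          refine ⟨j, hj, h * g₀, K.mul_mem hh h3, ?_⟩
          rw [mapMul, hg₀t, map_map_inv]
      intro r hr
      obtain ⟨j, hj, h, hh, rfl⟩ := h1 hr
      refine ⟨⟨j, by omega⟩, h, hh, ?_⟩
      change (v j).map h = (u j).map h
      rw [hu1 j hj]
    · rintro r ⟨j, h, hh, rfl⟩
      exact aut_map_mem (hKaut hh) (huS j)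

end Pool.Agent.CDI
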