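import Pool.Agent.CDI.Median

/-!
# Lemma A and its first consequences (blueprint section 4)
-/

namespace Pool.Agent.CDI

open LOrd

variable {X : Type*}

theorem CP.symm {s t : LOrd X} (h : CP s t) : CP t s := by
  intro R h1 h2 ⟨x, hx, y, hy, hd⟩ a b hab
  exact h R h2 h1 ⟨x, hx, y, hy, dis_comm.1 hd⟩ a b (dis_comm.1 hab)

/-- A point outside a convex set is above all of it or below all of it. -/
theorem Conv.out {r : LOrd X} {R : Set X} (h : r.Conv R) {z : X} (hz : z ∉ R) :
    (∀ x ∈ R, r.lt z x) ∨ (∀ x ∈ R, r.lt x z) := by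
  by_contra hc
  push Not at hc
  obtain ⟨⟨x, hx, h1⟩, ⟨y, hy, h2⟩⟩ := hc
  have hzx : z ≠ x := by rintro rfl; exact hz hx
  have hyz : y ≠ z := by rintro rfl; exact hz hy
  exact hz (h x hx y hy z ((r.not_lt hzx).1 h1) ((r.not_lt hyz).1 h2))

/-- `s` with the order on the convex set `R` replaced by that of `t`. -/
theorem exists_mix {s t : LOrd X} {R : Set X} (hs : s.Conv R) :
    ∃ u : LOrd X, (∀ x ∈ R, ∀ y ∈ R, (u.lt x y ↔ t.lt x y)) ∧
      (∀ x y, (x ∉ R ∨ y ∉ R) → (u.lt x y ↔ s.lt x y)) := by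
  obtain ⟨u, h1, h2, h3, h4⟩ := exists_glue s t R (fun x b => s.lt x b)
    (fun x _ x' _ b _ h h' => s.tr h h')
    (fun x hx b hb b' hb' _ h => by
      rcases Conv.out hs hx with h5 | h5
      · exact h5 b' hb'
      · exact absurd h (s.asymm (h5 b hb)))
  refine ⟨u, h2, fun x y hxy => ?_⟩
  by_cases hx : x ∈ R
  · have hy : y ∉ R := hxy.resolve_left (fun h => h hx)
    rw [h4 y hy x hx]
    have hne : y ≠ x := by rintro rfl; exact hy hx
    exact s.not_lt hne
  · by_cases hy : y ∈ R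
    · exact h3 x hx y hy
    · exact h1 x hx y hy

/-- **Lemma A.** -/
theorem Edge.cp {S : Set (LOrd X)} (hS : MaxCD S) {s t : LOrd X} (h : Edge S s t) : CP s t := by
  intro R hsR htR ⟨x, hx, y, hy, hd⟩
  obtain ⟨u, hin, hout⟩ := exists_mix (t := t) hsR
  have huS : u ∈ S := by
    apply hS.mem
    intro v hv w hw a b c hL
    obtain ⟨⟨hab, hbc⟩, ⟨v1, v2⟩, ⟨w1, w2⟩⟩ := hL
    have hac : u.lt a c := u.tr hab hbc
    have hs0 : ¬ (s.lt a b ∧ s.lt b c) := fun h' =>
      hS.1 s h.1 v hv w hw a b c ⟨h', ⟨v1, v2⟩, ⟨w1, w2⟩⟩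
    have ht0 : ¬ (t.lt a b ∧ t.lt b c) := fun h' =>
      hS.1 t h.2.1 v hv w hw a b c ⟨h', ⟨v1, v2⟩, ⟨w1, w2⟩⟩
    by_cases ha : a ∈ R
    · by_cases hb : b ∈ R
      · by_cases hc : c ∈ R
        · exact ht0 ⟨(hin a ha b hb).1 hab, (hin b hb c hc).1 hbc⟩
        · -- a b ∈ R, c ∉ R
          have s1 : s.lt b c := (hout b c (Or.inr hc)).1 hbc
          have s2 : s.lt a c := (hout a c (Or.inr hc)).1 hac
          have t1 : t.lt a b := (hin a ha b hb).1 hab
          have s3 : s.lt b a := by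
            refine (s.not_lt (u.ne hab)).1 fun h' => hs0 ⟨h', s1⟩
          -- `c` is above both in `t`
          have t2 : t.lt c b := (t.not_lt (u.ne hbc)).1 fun h' => ht0 ⟨t1, h'⟩
          have t3 : t.lt c a := by
            rcases Conv.out htR hc with h5 | h5
            · exact h5 a ha
            · exact absurd (h5 b hb) (t.asymm t2)
          -- `v` is `b c a`
          rcases h.side hS hv with h6 | h6
          · exact h6 a c (Or.inl ⟨s2, t3⟩) (Or.inl ⟨s2, v2⟩)
          · rcases h6 b c (Or.inl ⟨s1, t2⟩) with h7 | h7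
            · exact v.asymm v1 h7.2
            · exact s.asymm s1 h7.1
      · by_cases hc : c ∈ R
        · -- a, c ∈ R, b ∉ R between them in u: impossible
          have s1 : s.lt a b := (hout a b (Or.inr hb)).1 hab
          have s2 : s.lt b c := (hout b c (Or.inl hb)).1 hbc
          exact hb (hsR a ha c hc b s1 s2)
        · exact hs0 ⟨(hout a b (Or.inr hb)).1 hab, (hout b c (Or.inl hb)).1 hbc⟩
    · by_cases hb : b ∈ R
      · by_cases hc : c ∈ R
        · -- b c ∈ R, a ∉ R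
          have s1 : s.lt a b := (hout a b (Or.inl ha)).1 hab
          have s2 : s.lt a c := (hout a c (Or.inl ha)).1 hac
          have t1 : t.lt b c := (hin b hb c hc).1 hbc
          have s3 : s.lt c b := by
            refine (s.not_lt (u.ne hbc)).1 fun h' => hs0 ⟨s1, h'⟩
          have t2 : t.lt b a := (t.not_lt (u.ne hab)).1 fun h' => ht0 ⟨h', t1⟩
          have t3 : t.lt c a := by
            rcases Conv.out htR ha with h5 | h5
            · exact absurd (h5 b hb) (t.asymm t2)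
            · exact h5 c hc
          -- `w` is `c a b`
          rcases h.side hS hw with h6 | h6
          · exact h6 a c (Or.inl ⟨s2, t3⟩) (Or.inl ⟨s2, w1⟩)
          · rcases h6 a b (Or.inl ⟨s1, t2⟩) with h7 | h7
            · exact w.asymm w2 h7.2
            · exact s.asymm s1 h7.1
        · exact hs0 ⟨(hout a b (Or.inl ha)).1 hab, (hout b c (Or.inr hc)).1 hbc⟩
      · exact hs0 ⟨(hout a b (Or.inl ha)).1 hab, (hout b c (Or.inl hb)).1 hbc⟩
  have hbtw : Btw s t u := by
    intro p q h1 h2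
    by_cases hp : p ∈ R
    · by_cases hq : q ∈ R
      · exact (hin p hp q hq).2 h2
      · exact (hout p q (Or.inr hq)).2 h1
    · exact (hout p q (Or.inl hp)).2 h1
  rcases h.2.2.2 u huS hbtw with rfl | rfl
  · exfalso
    rcases hd with ⟨h1, h2⟩ | ⟨h1, h2⟩
    · exact t.asymm ((hin x hx y hy).1 h1) h2
    · exact t.asymm ((hin y hy x hx).1 h1) h2
  · intro p q hpq
    by_contra hc
    have hc' : p ∉ R ∨ q ∉ R := by
      by_contra h'
      push Not at h'
      exact hc h'
    rcases hpq with ⟨h1, h2⟩ | ⟨h1, h2⟩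
    · exact s.asymm h1 ((hout q p hc'.symm).1 h2)
    · exact s.asymm h1 ((hout p q hc').1 h2)

/-- H1: an unmoved point is above all moved points or below all of them, in both orders. -/
theorem CP.h1 {s t : LOrd X} (h : CP s t) {z : X} (hz : z ∉ Vs s t) :
    (∀ v ∈ Vs s t, s.lt z v ∧ t.lt z v) ∨ (∀ v ∈ Vs s t, s.lt v z ∧ t.lt v z) := by
  have hz' : ∀ y, ¬ Dis s t z y := fun y hy => hz ⟨y, hy⟩
  have hz1 : ∀ y, s.lt z y ↔ t.lt z y := fun y => not_dis_iff.1 (hz' y)
  have hz2 : ∀ y, s.lt y z ↔ t.lt y z := fun y => not_dis_iff.1 (fun hd => hz' y hd.symm)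
  by_cases hV : ∃ x y, Dis s t x y
  swap
  · left
    rintro v ⟨y, hy⟩
    exact absurd ⟨v, y, hy⟩ hV
  obtain ⟨x, y, hxy⟩ := hV
  have hxz : x ≠ z := by rintro rfl; exact hz' y hxy
  have hyz : y ≠ z := by rintro rfl; exact hz' x hxy.symm
  -- the two sides of `z`
  have convA : s.Conv {v | s.lt v z} ∧ t.Conv {v | s.lt v z} := by
    constructor
    · intro a _ b hb c _ h2
      exact s.tr h2 hb
    · intro a _ b hb c _ h2
      exact (hz2 c).2 (t.tr h2 ((hz2 b).1 hb))
  have convB : s.Conv {v | s.lt z v} ∧ t.Conv {v | s.lt z v} := by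
    constructor
    · intro a ha b _ c h1 _
      exact s.tr ha h1
    · intro a ha b _ c h1 _
      exact (hz1 c).2 (t.tr ((hz1 a).1 ha) h1)
  have caseA : s.lt x z → s.lt y z → ∀ v ∈ Vs s t, s.lt v z ∧ t.lt v z := by
    rintro h1 h2 v ⟨w, hw⟩
    have := (h _ convA.1 convA.2 ⟨x, h1, y, h2, hxy⟩ v w hw).1
    exact ⟨this, (hz2 v).1 this⟩
  have caseB : s.lt z x → s.lt z y → ∀ v ∈ Vs s t, s.lt z v ∧ t.lt z v := by
    rintro h1 h2 v ⟨w, hw⟩
    have := (h _ convB.1 convB.2 ⟨x, h1, y, h2, hxy⟩ v w hw).1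
    exact ⟨this, (hz1 v).1 this⟩
  rcases s.total x z hxz with h1 | h1 <;> rcases s.total y z hyz with h2 | h2
  · exact Or.inr (caseA h1 h2)
  · exfalso
    have h3 : s.lt x y := s.tr h1 h2
    have h4 : t.lt x y := t.tr ((hz2 x).1 h1) ((hz1 y).1 h2)
    exact not_dis_iff.2 (iff_of_true h3 h4) hxy
  · exfalso
    have h3 : s.lt y x := s.tr h2 h1
    have h4 : t.lt y x := t.tr ((hz2 y).1 h2) ((hz1 x).1 h1)
    exact not_dis_iff.2 (iff_of_true h3 h4) hxy.symm
  · exact Or.inl (caseB h1 h2)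

/-- H2: the set of moved points is convex. -/
theorem CP.conv_left {s t : LOrd X} (h : CP s t) : s.Conv (Vs s t) := by
  intro x hx z hz y h1 h2
  by_contra hy
  rcases h.h1 hy with h3 | h3
  · exact s.asymm h1 (h3 x hx).1
  · exact s.asymm h2 (h3 z hz).1

theorem CP.conv_right {s t : LOrd X} (h : CP s t) : t.Conv (Vs s t) := by
  intro x hx z hz y h1 h2
  by_contra hy
  rcases h.h1 hy with h3 | h3
  · exact t.asymm h1 (h3 x hx).2
  · exact t.asymm h2 (h3 z hz).2

end Pool.Agent.CDI
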