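import Pool.Agent.CDI.Base

/-!
# Median structure and Lemma A (blueprint section 4)
-/

namespace Pool.Agent.CDI

open LOrd

variable {X : Type*}

/-- G1: the majority of three members is a member. -/
theorem maj_mem {S : Set (LOrd X)} (hS : MaxCD S) {r s t : LOrd X} (hr : r ∈ S) (hs : s ∈ S)
    (ht : t ∈ S) : ∃ u ∈ S, ∀ x y, u.lt x y ↔ majRel r s t x y := by
  have hno : ∀ a b c, majRel r s t a b → majRel r s t b c → a ≠ c → ¬ majRel r s t a c → False := by
    intro a b c hab hbc hac hnac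
    have key : ∀ p q w : LOrd X, p ∈ S → q ∈ S → w ∈ S →
        p.lt a b → p.lt b c → q.lt b c → w.lt a b → (q.lt a c → False) → (w.lt a c → False) →
        False :=
      fun p q w hp hq hw h1 h2 h3 h4 h5 h6 =>
        hS.1 p hp q hq w hw a b c ⟨⟨h1, h2⟩, ⟨h3, (q.not_lt hac).1 h5⟩, ⟨(w.not_lt hac).1 h6, h4⟩⟩
    have m1 : r.lt a c → s.lt a c → False := fun h h' => hnac (Or.inl ⟨h, h'⟩)
    have m2 : r.lt a c → t.lt a c → False := fun h h' => hnac (Or.inr (Or.inl ⟨h, h'⟩))
    have m3 : s.lt a c → t.lt a c → False := fun h h' => hnac (Or.inr (Or.inr ⟨h, h'⟩))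
    rcases hab with ⟨h1, h2⟩ | ⟨h1, h2⟩ | ⟨h1, h2⟩ <;> rcases hbc with ⟨h3, h4⟩ | ⟨h3, h4⟩ | ⟨h3, h4⟩
    · exact m1 (r.tr h1 h3) (s.tr h2 h4)
    · exact key r t s hr ht hs h1 h3 h4 h2 (m2 (r.tr h1 h3)) (m1 (r.tr h1 h3))
    · exact key s t r hs ht hr h2 h3 h4 h1 (m3 (s.tr h2 h3)) (fun h => m1 h (s.tr h2 h3))
    · exact key r s t hr hs ht h1 h3 h4 h2 (m1 (r.tr h1 h3)) (m2 (r.tr h1 h3))
    · exact m2 (r.tr h1 h3) (t.tr h2 h4)
    · exact key t s r ht hs hr h2 h4 h3 h1 (fun h => m3 h (t.tr h2 h4)) (fun h => m2 h (t.tr h2 h4))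
    · exact key s r t hs hr ht h1 h4 h3 h2 (fun h => m1 h (s.tr h1 h4)) (m3 (s.tr h1 h4))
    · exact key t r s ht hr hs h2 h4 h3 h1 (fun h => m2 h (t.tr h2 h4)) (fun h => m3 h (t.tr h2 h4))
    · exact m3 (s.tr h1 h3) (t.tr h2 h4)
  have hasym : ∀ a b, majRel r s t a b → ¬ majRel r s t b a := by
    intro a b h h'
    have h1 : r.lt a b → ¬ r.lt b a := r.asymm
    have h2 : s.lt a b → ¬ s.lt b a := s.asymm
    have h3 : t.lt a b → ¬ t.lt b a := t.asymm
    unfold majRel at h h'
    tauto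
  let u : LOrd X := {
    lt := majRel r s t
    irrefl := by
      intro a h
      have h1 := r.irrefl a
      have h2 := s.irrefl a
      have h3 := t.irrefl a
      unfold majRel at h
      tauto
    trans := by
      intro a b c hab hbc
      by_contra h
      by_cases hac : a = c
      · subst hac
        exact hasym a b hab hbc
      · exact hno a b c hab hbc hac h
    total := by
      intro a b hab
      have h1 := r.total a b hab
      have h2 := s.total a b hab
      have h3 := t.total a b hab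
      unfold majRel
      tauto }
  refine ⟨u, ?_, fun x y => Iff.rfl⟩
  apply hS.mem
  intro v hv w hw a b c hL
  obtain ⟨⟨hab, hbc⟩, hv', hw'⟩ := hL
  change majRel r s t a b at hab
  change majRel r s t b c at hbc
  have key : ∀ p : LOrd X, p ∈ S → p.lt a b → p.lt b c → False :=
    fun p hp h1 h2 => hS.1 p hp v hv w hw a b c ⟨⟨h1, h2⟩, hv', hw'⟩
  rcases hab with ⟨h1, h2⟩ | ⟨h1, h2⟩ | ⟨h1, h2⟩ <;> rcases hbc with ⟨h3, h4⟩ | ⟨h3, h4⟩ | ⟨h3, h4⟩
  · exact key r hr h1 h3
  · exact key r hr h1 h3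
  · exact key s hs h2 h3
  · exact key r hr h1 h3
  · exact key r hr h1 h3
  · exact key t ht h2 h4
  · exact key s hs h1 h4
  · exact key t ht h2 h4
  · exact key s hs h1 h3

theorem btw_symm {s t w : LOrd X} (h : Btw s t w) : Btw t s w := fun x y h1 h2 => h x y h2 h1

theorem Edge.symm {S : Set (LOrd X)} {s t : LOrd X} (h : Edge S s t) : Edge S t s := by
  obtain ⟨h1, h2, h3, h4⟩ := h
  exact ⟨h2, h1, h3.symm, fun w hw hb => (h4 w hw (btw_symm hb)).symm⟩

/-- G2: every member is on the `s`-side or on the `t`-side of an edge. -/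
theorem Edge.side {S : Set (LOrd X)} (hS : MaxCD S) {s t : LOrd X} (h : Edge S s t) {u : LOrd X}
    (hu : u ∈ S) : (∀ a b, Dis s t a b → ¬ Dis s u a b) ∨ (∀ a b, Dis s t a b → Dis s u a b) := by
  obtain ⟨hs, ht, hne, hE⟩ := h
  obtain ⟨m, hm, hmaj⟩ := maj_mem hS hs ht hu
  have hb : Btw s t m := fun x y h1 h2 => (hmaj x y).2 (Or.inl ⟨h1, h2⟩)
  rcases hE m hm hb with rfl | rfl
  · left
    intro a b hab hau
    have h1 := hmaj a b
    have h2 := hmaj b a
    have a1 : m.lt a b → ¬ m.lt b a := m.asymm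
    have a2 : t.lt a b → ¬ t.lt b a := t.asymm
    have a3 : u.lt a b → ¬ u.lt b a := u.asymm
    unfold majRel at h1 h2
    unfold Dis at hab hau
    tauto
  · right
    intro a b hab
    have h1 := hmaj a b
    have h2 := hmaj b a
    have a1 : m.lt a b → ¬ m.lt b a := m.asymm
    have a2 : s.lt a b → ¬ s.lt b a := s.asymm
    have a3 : u.lt a b → ¬ u.lt b a := u.asymm
    unfold majRel at h1 h2
    unfold Dis at hab ⊢
    tauto

theorem dis_of_btw {s t w : LOrd X} (h : Btw s t w) {x y : X} (hd : Dis s w x y) : Dis s t x y := by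
  by_contra hn
  rw [not_dis_iff] at hn
  have hxy := hd.ne
  rcases hd with ⟨h1, h2⟩ | ⟨h1, h2⟩
  · exact w.asymm (h x y h1 (hn.1 h1)) h2
  · have h3 : ¬ s.lt x y := s.asymm h1
    have h4 : t.lt y x := (t.not_lt hxy).1 (fun h5 => h3 (hn.2 h5))
    exact w.asymm (h y x h1 h4) h2

theorem btw_iff {s t w : LOrd X} : Btw s t w ↔ ∀ x y, Dis s w x y → Dis s t x y := by
  refine ⟨fun h x y => dis_of_btw h, fun h x y h1 h2 => ?_⟩
  by_contra h3
  have hd : Dis s w x y := Or.inl ⟨h1, (w.not_lt (s.ne h1)).1 h3⟩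
  rcases h x y hd with h4 | h4
  · exact t.asymm h2 h4.2
  · exact s.asymm h1 h4.1

/-- G3: from `s` towards `t` there is an edge. -/
theorem exists_edge [Finite X] {S : Set (LOrd X)} {s t : LOrd X} (hs : s ∈ S) (ht : t ∈ S)
    (hne : s ≠ t) : ∃ w, Edge S s w ∧ Btw s t w := by
  classical
  -- choose `w` with the fewest disagreements
  obtain ⟨w, ⟨hw, hws, hb⟩, hmin⟩ := Set.exists_min_image
    {w : LOrd X | w ∈ S ∧ w ≠ s ∧ Btw s t w} (fun w => Set.ncard {p : X × X | Dis s w p.1 p.2})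
    (Set.toFinite _) ⟨t, ht, hne.symm, fun x y _ h => h⟩
  refine ⟨w, ⟨hs, hw, hws.symm, fun v hv hbv => ?_⟩, hb⟩
  by_contra hc
  push Not at hc
  obtain ⟨hvs, hvw⟩ := hc
  have hsub : ∀ x y, Dis s v x y → Dis s w x y := btw_iff.1 hbv
  have hb' : Btw s t v := btw_iff.2 fun x y h => btw_iff.1 hb x y (hsub x y h)
  have h1 := hmin v ⟨hv, hvs, hb'⟩
  have h2 : {p : X × X | Dis s v p.1 p.2} ⊆ {p : X × X | Dis s w p.1 p.2} := fun p hp =>
    hsub _ _ hp
  have h3 : {p : X × X | Dis s v p.1 p.2} = {p : X × X | Dis s w p.1 p.2} :=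
    Set.eq_of_subset_of_ncard_le h2 h1
  apply hvw
  ext x y
  have h4 : Dis s v x y ↔ Dis s w x y := by
    constructor
    · exact hsub x y
    · intro h
      have : (x, y) ∈ {p : X × X | Dis s w p.1 p.2} := h
      rw [← h3] at this
      exact this
  by_cases hxy : x = y
  · subst hxy; simp [v.irrefl, w.irrefl]
  · rw [dis_iff hxy, dis_iff hxy] at h4
    tauto

/-- Every pair on which two members disagree is in the class of some edge. -/
theorem exists_edge_of_dis [Finite X] {S : Set (LOrd X)} (_hS : MaxCD S) {r u : LOrd X}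
    (hr : r ∈ S)
    (hu : u ∈ S) {x y : X} (h : Dis r u x y) : ∃ s t, Edge S s t ∧ Dis s t x y := by
  classical
  -- choose `r` disagreeing with `u` on `(x,y)` with the fewest disagreements with `u`
  obtain ⟨s, ⟨hs, hd⟩, hmin⟩ := Set.exists_min_image
    {s : LOrd X | s ∈ S ∧ Dis s u x y} (fun s => Set.ncard {p : X × X | Dis s u p.1 p.2})
    (Set.toFinite _) ⟨r, hr, h⟩
  have hne : s ≠ u := by
    rintro rfl
    rcases hd with hd | hd <;> exact s.asymm hd.1 hd.2
  obtain ⟨w, hE, hb⟩ := exists_edge hs hu hne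
  refine ⟨s, w, hE, ?_⟩
  by_contra hn
  have hxy : x ≠ y := hd.ne
  have hwd : Dis w u x y := by
    rw [dis_iff hxy] at hd ⊢
    rw [not_dis_iff] at hn
    tauto
  have h1 := hmin w ⟨hE.2.1, hwd⟩
  have hsub : {p : X × X | Dis w u p.1 p.2} ⊆ {p : X × X | Dis s u p.1 p.2} := by
    rintro ⟨a, b⟩ hp
    have hp' : Dis w u a b := hp
    change Dis s u a b
    have hab := hp'.ne
    by_contra hc
    rw [not_dis_iff] at hc
    have hswn : ¬ Dis s w a b := by
      intro h5
      have := btw_iff.1 hb a b h5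
      rw [dis_iff hab] at this
      exact this hc
    rw [not_dis_iff] at hswn
    rw [dis_iff hab] at hp'
    tauto
  have h3 : {p : X × X | Dis w u p.1 p.2} = {p : X × X | Dis s u p.1 p.2} :=
    Set.eq_of_subset_of_ncard_le hsub h1
  apply hE.2.2.1
  ext a b
  have h4 : Dis w u a b ↔ Dis s u a b := by
    constructor
    · intro h; exact hsub (show (a, b) ∈ {p : X × X | Dis w u p.1 p.2} from h)
    · intro h
      have : (a, b) ∈ {p : X × X | Dis s u p.1 p.2} := h
      rw [← h3] at this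
      exact this
  by_cases hab : a = b
  · subst hab; simp [s.irrefl, w.irrefl]
  · rw [dis_iff hab, dis_iff hab] at h4
    tauto

/-- G4: classes of edges are equal or disjoint. -/
theorem Edge.dis_eq {S : Set (LOrd X)} (hS : MaxCD S) {s t s' t' : LOrd X} (h : Edge S s t)
    (h' : Edge S s' t') {x y : X} (h1 : Dis s t x y) (h2 : Dis s' t' x y) (a b : X) :
    Dis s t a b ↔ Dis s' t' a b := by
  -- one direction suffices
  have key : ∀ {s t s' t' : LOrd X}, Edge S s t → Edge S s' t' → Dis s t x y → Dis s' t' x y →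
      Dis s t a b → Dis s' t' a b := by
    intro s t s' t' h h' h1 h2 h3
    have hxy := h1.ne
    have hab := h3.ne
    have e1 := h.side hS h'.1
    have e2 := h.side hS h'.2.1
    -- `Dis s' t'` is the exclusive or of `Dis s s'` and `Dis s t'`
    have fx : ∀ {c d : X}, c ≠ d → (Dis s' t' c d ↔ ¬ (Dis s s' c d ↔ Dis s t' c d)) := by
      intro c d hcd
      rw [dis_iff hcd, dis_iff hcd, dis_iff hcd]
      by_cases p1 : s.lt c d <;> by_cases p2 : s'.lt c d <;> by_cases p3 : t'.lt c d <;>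
        simp [p1, p2, p3]
    rw [fx hxy] at h2
    rw [fx hab]
    rcases e1 with e1 | e1 <;> rcases e2 with e2 | e2
    · exact absurd (iff_of_false (e1 x y h1) (e2 x y h1)) h2
    · exact fun h => e1 a b h3 (h.2 (e2 a b h3))
    · exact fun h => e2 a b h3 (h.1 (e1 a b h3))
    · exact absurd (iff_of_true (e1 x y h1) (e2 x y h1)) h2
  exact ⟨key h h' h1 h2, key h' h h2 h1⟩

end Pool.Agent.CDI
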