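import Pool.Agent.CDI.LemA

/-!
# Module lemma and twins (blueprint section 5)
-/

namespace Pool.Agent.CDI

open LOrd

variable {X : Type*}

/-- The hull of `M` in `s` is convex in `s`. -/
theorem mod_hull_conv (s : LOrd X) (M : Set X) :
    s.Conv {z | z ∈ M ∨ ∃ x ∈ M, ∃ y ∈ M, s.lt x z ∧ s.lt z y} := by
  have up : ∀ x, (x ∈ M ∨ ∃ a ∈ M, ∃ b ∈ M, s.lt a x ∧ s.lt x b) → ∃ a ∈ M, a = x ∨ s.lt a x := by
    rintro x (h | ⟨a, ha, b, hb, h1, h2⟩)
    · exact ⟨x, h, Or.inl rfl⟩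
    · exact ⟨a, ha, Or.inr h1⟩
  have dn : ∀ x, (x ∈ M ∨ ∃ a ∈ M, ∃ b ∈ M, s.lt a x ∧ s.lt x b) → ∃ a ∈ M, a = x ∨ s.lt x a := by
    rintro x (h | ⟨a, ha, b, hb, h1, h2⟩)
    · exact ⟨x, h, Or.inl rfl⟩
    · exact ⟨b, hb, Or.inr h2⟩
  intro x hx z hz y hxy hyz
  obtain ⟨a, ha, ha'⟩ := up x hx
  obtain ⟨b, hb, hb'⟩ := dn z hz
  refine Or.inr ⟨a, ha, b, hb, ?_, ?_⟩
  · rcases ha' with rfl | ha'
    · exact hxy
    · exact s.tr ha' hxy
  · rcases hb' with rfl | hb'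
    · exact hyz
    · exact s.tr hyz hb'

theorem mod_hull_aux {s t : LOrd X} (h : CP s t) {M : Set X} (hM : M ⊆ Vs s t)
    (hmod : ∀ v ∈ Vs s t, v ∉ M → (∀ x ∈ M, Dis s t v x) ∨ (∀ x ∈ M, ¬ Dis s t v x))
    {z x y : X} (hzM : z ∉ M) (hx : x ∈ M) (hy : y ∈ M) (h1 : s.lt x z) (h2 : s.lt z y) :
    ∃ x' ∈ M, ∃ y' ∈ M, t.lt x' z ∧ t.lt z y' := by
  by_cases hz : z ∈ Vs s t
  · rcases hmod z hz hzM with hall | hnone
    · refine ⟨y, hy, x, hx, ?_, ?_⟩
      · rcases hall y hy with h | h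
        · exact h.2
        · exact absurd h2 (s.asymm h.1)
      · rcases hall x hx with h | h
        · exact absurd h1 (s.asymm h.1)
        · exact h.2
    · refine ⟨x, hx, y, hy, ?_, ?_⟩
      · have := not_dis_iff.1 (hnone x hx)
        refine (t.not_lt (s.ne h1).symm).1 fun h' => ?_
        exact s.asymm h1 (this.2 h')
      · exact (not_dis_iff.1 (hnone y hy)).1 h2
  · rcases h.h1 hz with h' | h'
    · exact absurd h1 (s.asymm (h' x (hM hx)).1)
    · exact absurd h2 (s.asymm (h' y (hM hy)).1)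

theorem mod_vs_comm (s t : LOrd X) : Vs s t = Vs t s := by
  ext x
  constructor
  · rintro ⟨y, hy⟩
    exact ⟨y, dis_comm.1 hy⟩
  · rintro ⟨y, hy⟩
    exact ⟨y, dis_comm.1 hy⟩

theorem mod_hull {s t : LOrd X} (h : CP s t) {M : Set X} (hM : M ⊆ Vs s t)
    (hadj : ∃ x ∈ M, ∃ y ∈ M, Dis s t x y)
    (hmod : ∀ v ∈ Vs s t, v ∉ M → (∀ x ∈ M, Dis s t v x) ∨ (∀ x ∈ M, ¬ Dis s t v x))
    {w : X} (hw : w ∈ Vs s t) (hwM : w ∉ M) : ∃ x ∈ M, ∃ y ∈ M, s.lt x w ∧ s.lt w y := by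
  have e : {z | z ∈ M ∨ ∃ x ∈ M, ∃ y ∈ M, s.lt x z ∧ s.lt z y} =
      {z | z ∈ M ∨ ∃ x ∈ M, ∃ y ∈ M, t.lt x z ∧ t.lt z y} := by
    ext z
    by_cases hz : z ∈ M
    · simp [hz]
    · simp only [Set.mem_ofPred_eq, hz, false_or]
      constructor
      · rintro ⟨x, hx, y, hy, h1, h2⟩
        exact mod_hull_aux h hM hmod hz hx hy h1 h2
      · rintro ⟨x, hx, y, hy, h1, h2⟩
        refine mod_hull_aux h.symm (by rw [← mod_vs_comm]; exact hM) ?_ hz hx hy h1 h2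
        intro v hv hvM
        rw [← mod_vs_comm] at hv
        rcases hmod v hv hvM with h' | h'
        · exact Or.inl fun x hx => dis_comm.1 (h' x hx)
        · exact Or.inr fun x hx hd => h' x hx (dis_comm.1 hd)
  have h1 := mod_hull_conv s M
  have h2 : t.Conv {z | z ∈ M ∨ ∃ x ∈ M, ∃ y ∈ M, s.lt x z ∧ s.lt z y} := by
    rw [e]; exact mod_hull_conv t M
  obtain ⟨x, hx, y, hy, hd⟩ := hadj
  obtain ⟨v, hv⟩ := hw
  have := (h _ h1 h2 ⟨x, Or.inl hx, y, Or.inl hy, hd⟩ w v hv).1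
  rcases this with h' | h'
  · exact absurd h' hwM
  · exact h'

/-- A nonempty set in a finite linear order has a first element. -/
theorem mod_exists_first [Finite X] (s : LOrd X) {V : Set X} (hV : V.Nonempty) :
    ∃ f ∈ V, ∀ v ∈ V, v ≠ f → s.lt f v := by
  have : IsTrans X s.lt := ⟨s.trans⟩
  have : Std.Irrefl s.lt := ⟨s.irrefl⟩
  have hwf : WellFounded s.lt := Finite.wellFounded_of_trans_of_irrefl s.lt
  refine ⟨hwf.min V hV, hwf.min_mem V hV, fun v hv hne => ?_⟩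
  exact (s.not_lt hne).1 (hwf.not_lt_min V hv)

/-- **Module lemma** (blueprint section 5). -/
theorem module_lemma [Finite X] {s t : LOrd X} (h : CP s t) (hB : ¬ Bip s t) {M : Set X}
    (hM : M ⊆ Vs s t) (hadj : ∃ x ∈ M, ∃ y ∈ M, Dis s t x y)
    (hmod : ∀ v ∈ Vs s t, v ∉ M → (∀ x ∈ M, Dis s t v x) ∨ (∀ x ∈ M, ¬ Dis s t v x)) :
    M = Vs s t := by
  by_contra hne
  obtain ⟨w₀, hw₀, hw₀M⟩ : ∃ w ∈ Vs s t, w ∉ M := by
    by_contra hc
    push Not at hc
    exact hne (hM.antisymm hc)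
  have hull : ∀ w ∈ Vs s t, w ∉ M → ∃ x ∈ M, ∃ y ∈ M, s.lt x w ∧ s.lt w y :=
    fun w hw hwM => mod_hull h hM hadj hmod hw hwM
  obtain ⟨f, hf, hfirst⟩ := mod_exists_first s (V := Vs s t) ⟨w₀, hw₀⟩
  have hfM : f ∈ M := by
    by_contra hfM
    obtain ⟨x, hx, y, hy, h1, h2⟩ := hull f hf hfM
    exact s.asymm h1 (hfirst x (hM hx) (s.ne h1))
  set I : Set X := {x | x ∈ M ∧ ∀ w ∈ Vs s t, w ∉ M → s.lt x w} with hI
  have hfI : f ∈ I := ⟨hfM, fun w hw hwM => hfirst w hw (fun e => hwM (e ▸ hfM))⟩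
  -- `I` is initial in `V` for `s`
  have hinit : ∀ x ∈ Vs s t, ∀ i ∈ I, s.lt x i → x ∈ I := by
    intro x hx i hi hxi
    have hxM : x ∈ M := by
      by_contra hxM
      exact s.asymm hxi (hi.2 x hx hxM)
    exact ⟨hxM, fun w hw hwM => s.tr hxi (hi.2 w hw hwM)⟩
  have hinit' : ∀ i ∈ I, ∀ x ∈ Vs s t, x ∉ I → s.lt i x := by
    intro i hi x hx hxI
    have : x ≠ i := fun e => hxI (e ▸ hi)
    rcases s.total x i this with h' | h'
    · exact absurd (hinit x hx i hi h') hxI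
    · exact h'
  have hconvs : s.Conv I := by
    intro x hx z hz y hxy hyz
    exact hinit y (h.conv_left x (hM hx.1) z (hM hz.1) y hxy hyz) z hz hyz
  by_cases h1 : ∃ v ∈ Vs s t, v ∉ M ∧ ∀ x ∈ M, Dis s t v x
  · by_cases h0 : ∃ v ∈ Vs s t, v ∉ M ∧ ∀ x ∈ M, ¬ Dis s t v x
    · obtain ⟨v, hv, hvM, hv1⟩ := h1
      obtain ⟨w, hw, hwM, hw0⟩ := h0
      obtain ⟨xv, hxv, yv, hyv, a1, a2⟩ := hull v hv hvM
      obtain ⟨xw, hxw, yw, hyw, b1, b2⟩ := hull w hw hwM
      -- common upper and lower points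
      obtain ⟨x, hx, x1, x2⟩ : ∃ x ∈ M, s.lt x v ∧ s.lt x w := by
        by_cases e : xv = xw
        · exact ⟨xv, hxv, a1, e ▸ b1⟩
        · rcases s.total _ _ e with h' | h'
          · exact ⟨xv, hxv, a1, s.tr h' b1⟩
          · exact ⟨xw, hxw, s.tr h' a1, b1⟩
      obtain ⟨y, hy, y1, y2⟩ : ∃ y ∈ M, s.lt v y ∧ s.lt w y := by
        by_cases e : yv = yw
        · exact ⟨yv, hyv, a2, e ▸ b2⟩
        · rcases s.total _ _ e with h' | h'
          · exact ⟨yw, hyw, s.tr a2 h', b2⟩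
          · exact ⟨yv, hyv, a2, s.tr b2 h'⟩
      have c1 : t.lt v x := by
        rcases hv1 x hx with h' | h'
        · exact absurd x1 (s.asymm h'.1)
        · exact h'.2
      have c2 : t.lt x w := by
        have := not_dis_iff.1 (fun hd => hw0 x hx (Dis.symm hd) : ¬ Dis s t x w)
        exact this.1 x2
      have c3 : t.lt w y := (not_dis_iff.1 (hw0 y hy)).1 y2
      have c4 : t.lt y v := by
        rcases hv1 y hy with h' | h'
        · exact h'.2
        · exact absurd y1 (s.asymm h'.1)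
      exact t.irrefl _ (t.tr (t.tr (t.tr c1 c2) c3) c4)
    · -- all outside points are adjacent to all of `M`
      have hall : ∀ v ∈ Vs s t, v ∉ M → ∀ x ∈ M, Dis s t v x := by
        intro v hv hvM
        rcases hmod v hv hvM with h' | h'
        · exact h'
        · exact absurd ⟨v, hv, hvM, h'⟩ h0
      have flip : ∀ x ∈ M, ∀ w ∈ Vs s t, w ∉ M → (s.lt x w ↔ t.lt w x) := by
        intro x hx w hw hwM
        rcases hall w hw hwM x hx with h' | h'
        · exact ⟨fun a => absurd a (s.asymm h'.1), fun a => absurd a (t.asymm h'.2)⟩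
        · exact ⟨fun _ => h'.2, fun _ => h'.1⟩
      have hfin : ∀ x ∈ Vs s t, ∀ i ∈ I, t.lt i x → x ∈ I := by
        intro x hx i hi hix
        have hxM : x ∈ M := by
          by_contra hxM
          exact t.asymm hix ((flip i hi.1 x hx hxM).1 (hi.2 x hx hxM))
        refine ⟨hxM, fun w hw hwM => (flip x hxM w hw hwM).2 ?_⟩
        exact t.tr ((flip i hi.1 w hw hwM).1 (hi.2 w hw hwM)) hix
      have hfin' : ∀ i ∈ I, ∀ x ∈ Vs s t, x ∉ I → t.lt x i := by
        intro i hi x hx hxI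
        have : x ≠ i := fun e => hxI (e ▸ hi)
        rcases t.total x i this with h' | h'
        · exact h'
        · exact absurd (hfin x hx i hi h') hxI
      have hconvt : t.Conv I := by
        intro x hx z hz y hxy hyz
        exact hfin y (h.conv_right x (hM hx.1) z (hM hz.1) y hxy hyz) x hx hxy
      have noI : ∀ x ∈ I, ∀ y ∈ I, ¬ Dis s t x y := by
        intro x hx y hy hd
        obtain ⟨z, hz⟩ := hw₀
        exact hw₀M (h I hconvs hconvt ⟨x, hx, y, hy, hd⟩ w₀ z hz).1.1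
      have hconvs' : s.Conv (Vs s t \ I) := by
        intro x hx z hz y hxy hyz
        refine ⟨h.conv_left x hx.1 z hz.1 y hxy hyz, fun hyI => ?_⟩
        exact hx.2 (hinit x hx.1 y hyI hxy)
      have hconvt' : t.Conv (Vs s t \ I) := by
        intro x hx z hz y hxy hyz
        refine ⟨h.conv_right x hx.1 z hz.1 y hxy hyz, fun hyI => ?_⟩
        exact hz.2 (hfin z hz.1 y hyI hyz)
      have noJ : ∀ x ∈ Vs s t, x ∉ I → ∀ y ∈ Vs s t, y ∉ I → ¬ Dis s t x y := by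
        intro x hx hxI y hy hyI hd
        obtain ⟨z, hz⟩ := hf
        exact (h (Vs s t \ I) hconvs' hconvt' ⟨x, ⟨hx, hxI⟩, y, ⟨hy, hyI⟩, hd⟩ f z hz).1.2 hfI
      refine hB ⟨I, fun x hx y hy => ⟨fun hd => ?_, ?_⟩⟩
      · by_cases hxI : x ∈ I
        · by_cases hyI : y ∈ I
          · exact absurd hd (noI x hxI y hyI)
          · exact Or.inl ⟨hxI, hyI⟩
        · by_cases hyI : y ∈ I
          · exact Or.inr ⟨hxI, hyI⟩
          · exact absurd hd (noJ x hx hxI y hy hyI)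
      · rintro (⟨hxI, hyI⟩ | ⟨hxI, hyI⟩)
        · exact Or.inl ⟨hinit' x hxI y hy hyI, hfin' x hxI y hy hyI⟩
        · exact Or.inr ⟨hinit' y hyI x hx hxI, hfin' y hyI x hx hxI⟩
  · -- all outside points are adjacent to nothing in `M`
    have hnone : ∀ v ∈ Vs s t, v ∉ M → ∀ x ∈ M, ¬ Dis s t v x := by
      intro v hv hvM
      rcases hmod v hv hvM with h' | h'
      · exact absurd ⟨v, hv, hvM, h'⟩ h1
      · exact h'
    have keep : ∀ x ∈ M, ∀ w ∈ Vs s t, w ∉ M → (s.lt x w ↔ t.lt x w) := by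
      intro x hx w hw hwM
      exact not_dis_iff.1 (fun hd => hnone w hw hwM x hx (Dis.symm hd))
    have hinitt : ∀ x ∈ Vs s t, ∀ i ∈ I, t.lt x i → x ∈ I := by
      intro x hx i hi hxi
      have hxM : x ∈ M := by
        by_contra hxM
        exact t.asymm hxi ((keep i hi.1 x hx hxM).1 (hi.2 x hx hxM))
      refine ⟨hxM, fun w hw hwM => (keep x hxM w hw hwM).2 ?_⟩
      exact t.tr hxi ((keep i hi.1 w hw hwM).1 (hi.2 w hw hwM))
    have hinitt' : ∀ i ∈ I, ∀ x ∈ Vs s t, x ∉ I → t.lt i x := by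
      intro i hi x hx hxI
      have : x ≠ i := fun e => hxI (e ▸ hi)
      rcases t.total x i this with h' | h'
      · exact absurd (hinitt x hx i hi h') hxI
      · exact h'
    have hconvt : t.Conv I := by
      intro x hx z hz y hxy hyz
      exact hinitt y (h.conv_right x (hM hx.1) z (hM hz.1) y hxy hyz) z hz hyz
    obtain ⟨n, hn⟩ := hf
    have hnV : n ∈ Vs s t := ⟨f, hn.symm⟩
    have hnI : n ∈ I := by
      by_contra hnI
      exact (not_dis_iff.2 (iff_of_true (hinit' f hfI n hnV hnI) (hinitt' f hfI n hnV hnI))) hn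
    obtain ⟨z, hz⟩ := hw₀
    exact hw₀M (h I hconvs hconvt ⟨f, hfI, n, hnI, hn⟩ w₀ z hz).1.1

theorem Twin.symm' {s t : LOrd X} {x y : X} (h : Twin s t x y) : Twin s t y x := fun z => (h z).symm

theorem Twin.swap {s t : LOrd X} {x y : X} (h : Twin s t x y) : Twin t s x y := fun z => by
  rw [dis_comm, dis_comm (s := t)]; exact h z

theorem Twin.mem {s t : LOrd X} {x y : X} (h : Twin s t x y) (hx : x ∈ Vs s t) : y ∈ Vs s t := by
  obtain ⟨z, hz⟩ := hx
  exact ⟨z, (h z).1 hz⟩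

theorem Twin.not_dis {s t : LOrd X} {x y : X} (h : Twin s t x y) : ¬ Dis s t x y := fun hd =>
  dis_irrefl ((h y).1 hd)

end Pool.Agent.CDI
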