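import Pool.Agent.CDI.Col

/-!
# The partner class (blueprint section 8)
-/

namespace Pool.Agent.CDI

open LOrd

variable {X : Type*}

/-- Disagreement of `a` and `b` in terms of a base order `s`. -/
theorem prt_dis_xor (s a b : LOrd X) (x y : X) :
    Dis a b x y ↔ ¬ (Dis s a x y ↔ Dis s b x y) := by
  by_cases hxy : x = y
  · subst hxy
    simp [dis_irrefl]
  · rw [dis_iff hxy, dis_iff hxy, dis_iff hxy]
    tauto

/-- Pairs with the same cut: an arbitrary pair of members disagrees on both or on none. -/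
theorem prt_transfer {S : Set (LOrd X)} {s a b : LOrd X} (ha : a ∈ S) (hb : b ∈ S) {x y x' y' : X}
    (h : ∀ u ∈ S, (Dis s u x y ↔ Dis s u x' y')) (hd : Dis a b x' y') : Dis a b x y := by
  rw [prt_dis_xor s] at hd ⊢
  rwa [h a ha, h b hb]

/-- The non-adjacent non-twin pairs cover the moved points. -/
theorem prt_cover [Finite X] {s t : LOrd X} (h : CP s t) (hB : ¬ Bip s t) {x : X}
    (hx : x ∈ Vs s t) : ∃ y ∈ Vs s t, ¬ Dis s t x y ∧ ¬ Twin s t x y := by
  by_contra hcon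
  push Not at hcon
  -- every other point is adjacent to `x` or a twin of `x`
  have hadj : ∀ y ∈ Vs s t, ¬ Twin s t x y → Dis s t x y := by
    intro y hy hT
    by_contra hd
    exact hT (hcon y hy hd)
  by_cases hM : ∃ a ∈ {v | v ∈ Vs s t ∧ ¬ Twin s t x v}, ∃ b ∈ {v | v ∈ Vs s t ∧ ¬ Twin s t x v},
      Dis s t a b
  · have := module_lemma h hB (M := {v | v ∈ Vs s t ∧ ¬ Twin s t x v}) (fun v hv => hv.1) hM
      (by
        intro v hv hvM
        left
        have hT : Twin s t x v := by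
          by_contra hT
          exact hvM ⟨hv, hT⟩
        intro z hz
        exact (hT z).1 (hadj z hz.1 hz.2))
    rw [← this] at hx
    exact hx.2 (fun z => Iff.rfl)
  · push Not at hM
    apply hB
    refine ⟨{v | Twin s t x v}, ?_⟩
    intro a ha b hb
    constructor
    · intro hd
      by_cases h1 : Twin s t x a
      · left
        refine ⟨h1, fun h2 => ?_⟩
        exact Twin.not_dis h2 ((h1 b).2 hd)
      · by_cases h2 : Twin s t x b
        · exact Or.inr ⟨h1, h2⟩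
        · exact absurd hd (hM a ⟨ha, h1⟩ b ⟨hb, h2⟩)
    · rintro (⟨h1, h2⟩ | ⟨h1, h2⟩)
      · exact (h1 b).1 (hadj b hb h2)
      · exact ((h2 a).1 (hadj a ha h1)).symm

/-- In a complete bipartite class, non-adjacent moved points are twins. -/
theorem prt_bip_twin {s t : LOrd X} (h : Bip s t) {y z : X} (hy : y ∈ Vs s t) (hz : z ∈ Vs s t)
    (hd : ¬ Dis s t y z) : Twin s t y z := by
  obtain ⟨A, hA⟩ := h
  have hyz := hA y hy z hz
  intro w
  constructor
  · intro hw
    have hwV : w ∈ Vs s t := ⟨y, hw.symm⟩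
    rw [hA z hz w hwV]
    rw [hA y hy w hwV] at hw
    tauto
  · intro hw
    have hwV : w ∈ Vs s t := ⟨z, hw.symm⟩
    rw [hA y hy w hwV]
    rw [hA z hz w hwV] at hw
    tauto

/-- **Partner.**  For a non-bipartite edge `(s,t)` there is a non-bipartite edge `(s',t')` whose class
contains all ordered non-adjacent non-twin pairs of `(s,t)`, and conversely the class `Dis s t` contains
all non-adjacent non-twin pairs of `(s',t')`, of which there is at least one. -/
theorem exists_partner [Finite X] {S : Set (LOrd X)} (hS : MaxCD S) {s t : LOrd X} (h : Edge S s t)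
    (hB : ¬ Bip s t) :
    ∃ s' t', Edge S s' t' ∧ ¬ Bip s' t' ∧
      (∀ x ∈ Vs s t, ∀ y ∈ Vs s t, ¬ Dis s t x y → ¬ Twin s t x y → Dis s' t' x y) ∧
      (∀ x ∈ Vs s' t', ∀ y ∈ Vs s' t', ¬ Dis s' t' x y → ¬ Twin s' t' x y → Dis s t x y) ∧
      (∃ x ∈ Vs s' t', ∃ y ∈ Vs s' t', ¬ Dis s' t' x y ∧ ¬ Twin s' t' x y) := by
  obtain ⟨x₀, hx₀, y₀, hy₀, hd₀, -, ⟨u, hu, hdu⟩, hcut⟩ := one_colour hS h hB
  have hcp : CP s t := h.cp hS
  obtain ⟨s', t', h', hd'⟩ := exists_edge_of_dis hS h.1 hu hdu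
  -- all pairs of `P` are in the class of `(s',t')`
  have hP : ∀ x ∈ Vs s t, ∀ y ∈ Vs s t, ¬ Dis s t x y → ¬ Twin s t x y → Dis s' t' x y :=
    fun x hx y hy h1 h2 => prt_transfer h'.1 h'.2.1 (hcut x hx y hy h1 h2) hd'
  have hVV : ∀ x ∈ Vs s t, x ∈ Vs s' t' := by
    intro x hx
    obtain ⟨y, hy, h1, h2⟩ := prt_cover hcp hB hx
    exact ⟨y, hP x hx y hy h1 h2⟩
  -- an adjacent pair that is not a pair of twins for `(s',t')`
  have hex : ∃ y z, Dis s t y z ∧ ¬ Twin s' t' y z := by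
    by_contra hcon
    push Not at hcon
    have hM := module_lemma hcp hB (M := {v | v ∈ Vs s t ∧ Twin s' t' x₀ v}) (fun v hv => hv.1)
      (by
        obtain ⟨y, hy⟩ := hx₀
        exact ⟨x₀, ⟨⟨y, hy⟩, fun z => Iff.rfl⟩, y, ⟨⟨x₀, hy.symm⟩, hcon x₀ y hy⟩, hy⟩)
      (by
        intro v hv hvM
        right
        intro m hm hd
        apply hvM
        refine ⟨hv, fun z => ?_⟩
        exact (hm.2 z).trans ((hcon v m hd) z).symm)
    rw [← hM] at hy₀
    exact Twin.not_dis hy₀.2 hd'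
  obtain ⟨y, z, hyz, hnT⟩ := hex
  have hy : y ∈ Vs s' t' := hVV y ⟨z, hyz⟩
  have hz : z ∈ Vs s' t' := hVV z ⟨y, hyz.symm⟩
  have hnd : ¬ Dis s' t' y z := by
    intro hd
    exact hd₀ ((h.dis_eq hS h' hyz hd x₀ y₀).2 hd')
  have hB' : ¬ Bip s' t' := fun hB' => hnT (prt_bip_twin hB' hy hz hnd)
  obtain ⟨x₁, -, y₁, -, -, -, -, hcut'⟩ := one_colour hS h' hB'
  refine ⟨s', t', h', hB', hP, ?_, y, hy, z, hz, hnd, hnT⟩
  intro a ha b hb h1 h2
  refine prt_transfer (s := s') h.1 h.2.1 (fun w hw => ?_) hyz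
  rw [hcut' a ha b hb h1 h2 w hw, hcut' y hy z hz hnd hnT w hw]

end Pool.Agent.CDI
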