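import Pool.Agent.CDI.Twins
import Pool.Agent.CDI.ColRule

/-!
# START: a crossing pair (blueprint section 7)
-/

namespace Pool.Agent.CDI

open LOrd

variable {X : Type*}

/-- two different orders invert a pair which is consecutive in the first -/
lemma exists_consec [Finite X] {s t : LOrd X} (hne : s ≠ t) :
    ∃ x y, s.lt x y ∧ t.lt y x ∧ ∀ z, ¬ (s.lt x z ∧ s.lt z y) := by
  classical
  have key : ∀ n : ℕ, ∀ x y, s.lt x y → t.lt y x → Set.ncard {z | s.lt x z ∧ s.lt z y} = n →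
      ∃ x y, s.lt x y ∧ t.lt y x ∧ ∀ z, ¬ (s.lt x z ∧ s.lt z y) := by
    intro n
    induction n using Nat.strong_induction_on with
    | _ n ih =>
      intro x y h1 h2 hn
      by_cases hz : ∃ z, s.lt x z ∧ s.lt z y
      · obtain ⟨z, hz1, hz2⟩ := hz
        rcases t.total x z (s.ne hz1) with h3 | h3
        · -- `z` above `y` in `s`, below in `t`
          refine ih _ ?_ z y hz2 (t.tr h2 h3) rfl
          rw [← hn]
          refine Set.ncard_lt_ncard ⟨fun w hw => ⟨s.tr hz1 hw.1, hw.2⟩, fun h => ?_⟩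
            (Set.toFinite _)
          exact s.irrefl z (h (show z ∈ {w | s.lt x w ∧ s.lt w y} from ⟨hz1, hz2⟩)).1
        · refine ih _ ?_ x z hz1 h3 rfl
          rw [← hn]
          refine Set.ncard_lt_ncard ⟨fun w hw => ⟨hw.1, s.tr hw.2 hz2⟩, fun h => ?_⟩
            (Set.toFinite _)
          exact s.irrefl z (h (show z ∈ {w | s.lt x w ∧ s.lt w y} from ⟨hz1, hz2⟩)).2
      · exact ⟨x, y, h1, h2, fun z hz' => hz ⟨z, hz'⟩⟩
  obtain ⟨x, y, h⟩ := exists_dis_of_ne hne
  rcases h with h | h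
  · exact key _ x y h.1 h.2 rfl
  · exact key _ y x h.1 h.2 rfl

/-- **START** (blueprint section 7). -/
theorem exists_cross [Finite X] {S : Set (LOrd X)} (hS : MaxCD S) {s t : LOrd X} (h : Edge S s t)
    (hB : ¬ Bip s t) :
    ∃ x₀ ∈ Vs s t, ∃ y₀ ∈ Vs s t, ¬ Twin s t x₀ y₀ ∧ Cross S s t x₀ y₀ := by
  classical
  have hcp := h.cp hS
  obtain ⟨hsS, htS, hst, hbet⟩ := id h
  obtain ⟨x, y, hxy, hyx, hcons⟩ := exists_consec hst
  have hG : Dis s t x y := Or.inl ⟨hxy, hyx⟩
  have hxV : x ∈ Vs s t := ⟨y, hG⟩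
  have hyV : y ∈ Vs s t := ⟨x, hG.symm⟩
  set Tx : Set X := {u | Twin s t x u} with hTx
  set Ty : Set X := {u | Twin s t y u} with hTy
  have hxx : x ∈ Tx := fun _ => Iff.rfl
  have hyy : y ∈ Ty := fun _ => Iff.rfl
  -- all pairs of `Tx × Ty` are adjacent
  have hadj : ∀ u ∈ Tx, ∀ v ∈ Ty, Dis s t u v := by
    intro u hu v hv
    have h1 : Dis s t u y := (hu y).1 hG
    exact ((hv u).1 h1.symm).symm
  have hdisj : ∀ u ∈ Tx, u ∉ Ty := fun u hu hv => dis_irrefl (hadj u hu u hv)
  -- convexity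
  have hcx : ∀ u ∈ Tx, ∀ v ∈ Tx, ∀ z, s.lt u z → s.lt z v → z ∈ Tx := by
    intro u hu v hv z h1 h2 w
    have h3 : Twin s t u v := fun w => ((hu w).symm.trans (hv w))
    have h4 := twin_between hcp (Twin.mem hu hxV) h3 h1 h2
    exact (hu w).trans (h4 w)
  have hcy : ∀ u ∈ Ty, ∀ v ∈ Ty, ∀ z, s.lt u z → s.lt z v → z ∈ Ty := by
    intro u hu v hv z h1 h2 w
    have h3 : Twin s t u v := fun w => ((hu w).symm.trans (hv w))
    have h4 := twin_between hcp (Twin.mem hu hyV) h3 h1 h2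
    exact (hu w).trans (h4 w)
  -- positions
  have hux : ∀ u ∈ Tx, u ≠ x → s.lt u x := by
    intro u hu hne
    by_contra hcon
    have h1 : s.lt x u := (s.not_lt hne).1 hcon
    have h2 : u ≠ y := by
      rintro rfl
      exact hdisj _ hu hyy
    rcases s.total u y h2 with h3 | h3
    · exact hcons u ⟨h1, h3⟩
    · exact hdisj y (hcx x hxx u hu y hxy h3) hyy
  have hvy : ∀ v ∈ Ty, v ≠ y → s.lt y v := by
    intro v hv hne
    by_contra hcon
    have h1 : s.lt v y := (s.not_lt hne.symm).1 hcon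
    have h2 : v ≠ x := by
      rintro rfl
      exact hdisj _ hxx hv
    rcases s.total x v h2.symm with h3 | h3
    · exact hcons v ⟨h3, h1⟩
    · exact hdisj x hxx (hcy v hv y hyy x h3 hxy)
  have huv : ∀ u ∈ Tx, ∀ v ∈ Ty, s.lt u v := by
    intro u hu v hv
    have h1 : s.lt u y := by
      by_cases hne : u = x
      · rw [hne]; exact hxy
      · exact s.tr (hux u hu hne) hxy
    by_cases hne : v = y
    · rw [hne]; exact h1
    · exact s.tr h1 (hvy v hv hne)
  have htvu : ∀ u ∈ Tx, ∀ v ∈ Ty, t.lt v u := by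
    intro u hu v hv
    rcases hadj u hu v hv with h1 | h1
    · exact h1.2
    · exact absurd h1.1 (s.asymm (huv u hu v hv))
  -- outside points
  have hout : ∀ z, z ∉ Tx → z ∉ Ty → ((∀ u ∈ Tx, s.lt z u) ∧ (∀ v ∈ Ty, s.lt z v)) ∨
      ((∀ u ∈ Tx, s.lt u z) ∧ (∀ v ∈ Ty, s.lt v z)) := by
    intro z hzx hzy
    have hzx' : z ≠ x := fun h => hzx (h ▸ hxx)
    have hzy' : z ≠ y := fun h => hzy (h ▸ hyy)
    rcases s.total z x hzx' with h1 | h1
    · left
      have h2 : ∀ u ∈ Tx, s.lt z u := by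
        intro u hu
        by_contra hcon
        have hne : z ≠ u := fun h => hzx (h ▸ hu)
        exact hzx (hcx u hu x hxx z ((s.not_lt hne).1 hcon) h1)
      exact ⟨h2, fun v hv => s.tr h1 (huv x hxx v hv)⟩
    · right
      have h2 : s.lt y z := by
        by_contra hcon
        exact hcons z ⟨h1, (s.not_lt hzy'.symm).1 hcon⟩
      have h3 : ∀ v ∈ Ty, s.lt v z := by
        intro v hv
        by_contra hcon
        have hne : v ≠ z := fun h => hzy (h ▸ hv)
        exact hzy (hcy y hyy v hv z h2 ((s.not_lt hne).1 hcon))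
      exact ⟨fun u hu => s.tr (huv u hu y hyy) h2, h3⟩
  -- the order with the two blocks swapped
  obtain ⟨s', g1, g2, g3, g4⟩ := exists_glue s s Tx (fun z u => s.lt z u ∨ z ∈ Ty)
    (by
      intro a ha b hb u hu hba hR
      rcases hR with hR | hR
      · exact Or.inl (s.tr hba hR)
      · by_cases hbT : b ∈ Ty
        · exact Or.inr hbT
        · rcases hout b hb hbT with h1 | h1
          · exact Or.inl (h1.1 u hu)
          · exact absurd hba (s.asymm (h1.2 a hR)))
    (by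
      intro a ha u hu v hv huv' hR
      rcases hR with hR | hR
      · exact Or.inl (s.tr hR huv')
      · exact Or.inr hR)
  have hs'vu : ∀ u ∈ Tx, ∀ v ∈ Ty, s'.lt v u := fun u hu v hv =>
    (g3 v (fun h => hdisj v h hv) u hu).2 (Or.inr hv)
  -- pairs on which `s'` and `s` differ
  have hdis : ∀ a b, s'.lt a b → s.lt a b ∨ (a ∈ Ty ∧ b ∈ Tx) := by
    intro a b hab
    by_cases ha : a ∈ Tx <;> by_cases hb : b ∈ Tx
    · exact Or.inl ((g2 a ha b hb).1 hab)
    · left
      have h1 := (g4 b hb a ha).1 hab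
      push Not at h1
      exact (s.not_lt (a := b) (b := a) (fun h => hb (h.symm ▸ ha))).1 h1.1
    · rcases (g3 a ha b hb).1 hab with h1 | h1
      · exact Or.inl h1
      · exact Or.inr ⟨h1, hb⟩
    · exact Or.inl ((g1 a ha b hb).1 hab)
  have hdis' : ∀ a b, s.lt a b → s'.lt a b ∨ (a ∈ Tx ∧ b ∈ Ty) := by
    intro a b hab
    by_contra hcon
    push Not at hcon
    have h1 : s'.lt b a := (s'.not_lt (s.ne hab)).1 hcon.1
    rcases hdis b a h1 with h2 | h2
    · exact s.asymm hab h2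
    · exact hcon.2 h2.2 h2.1
  have hnot : s' ∉ S := by
    intro hmem
    have hb : Btw s t s' := by
      intro a b h1 h2
      rcases hdis' a b h1 with h3 | h3
      · exact h3
      · exact absurd h2 (t.asymm (htvu a h3.1 b h3.2))
    rcases hbet s' hmem hb with h1 | h1
    · have := hs'vu x hxx y hyy
      rw [h1] at this
      exact s.asymm hxy this
    · apply hB
      have hD : ∀ a b, Dis s t a b ↔ ((a ∈ Tx ∧ b ∈ Ty) ∨ (a ∈ Ty ∧ b ∈ Tx)) := by
        intro a b
        constructor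
        · rintro (h2 | h2)
          · rcases hdis' a b h2.1 with h3 | h3
            · rw [h1] at h3
              exact absurd h3 (t.asymm h2.2)
            · exact Or.inl h3
          · rcases hdis' b a h2.1 with h3 | h3
            · rw [h1] at h3
              exact absurd h3 (t.asymm h2.2)
            · exact Or.inr ⟨h3.2, h3.1⟩
        · rintro (h2 | h2)
          · exact hadj a h2.1 b h2.2
          · exact (hadj b h2.2 a h2.1).symm
      refine ⟨Tx, fun a ha b hb => ?_⟩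
      have hmem : ∀ a ∈ Vs s t, (a ∉ Tx ↔ a ∈ Ty) := by
        intro a ha
        refine ⟨fun h2 => ?_, fun h2 h3 => hdisj a h3 h2⟩
        obtain ⟨c, hc⟩ := ha
        rcases (hD a c).1 hc with h3 | h3
        · exact absurd h3.1 h2
        · exact h3.1
      rw [hD, hmem a ha, hmem b hb]
  obtain ⟨w₁, hw₁, w₂, hw₂, a, b, c, ⟨hab, hbc⟩, ⟨hbc1, hca1⟩, hca2, hab2⟩ := hS.blocked hnot
  have hs_no : ¬ (s.lt a b ∧ s.lt b c) := fun h' =>
    hS.1 s hsS w₁ hw₁ w₂ hw₂ a b c ⟨h', ⟨hbc1, hca1⟩, hca2, hab2⟩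
  have ht_no : ¬ (t.lt a b ∧ t.lt b c) := fun h' =>
    hS.1 t htS w₁ hw₁ w₂ hw₂ a b c ⟨h', ⟨hbc1, hca1⟩, hca2, hab2⟩
  have hac : a ≠ c := (s'.ne (s'.tr hab hbc))
  have hTT : ∀ {u v w : X}, Twin s t u v → Twin s t u w → Twin s t v w :=
    fun h1 h2 z => (h1 z).symm.trans (h2 z)
  -- orders of twins
  have htw : ∀ {u v : X}, Twin s t u v → s.lt u v → t.lt u v := by
    intro u v hT h1
    exact (not_dis_iff.1 (Twin.not_dis hT)).1 h1
  rcases hdis a b hab with h1 | h1
  · -- `a` above `b` in `s`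
    rcases hdis b c hbc with h2 | h2
    · exact absurd ⟨h1, h2⟩ hs_no
    obtain ⟨hbT, hcT⟩ := h2
    have hcb : s.lt c b := huv c hcT b hbT
    have htbc : t.lt b c := htvu c hcT b hbT
    have haTx : a ∉ Tx := fun h3 => s'.asymm hab (hs'vu a h3 b hbT)
    have haTy : a ∉ Ty := by
      intro h3
      exact ht_no ⟨htw (hTT h3 hbT) h1, htbc⟩
    have hac' : s.lt a c := by
      rcases hout a haTx haTy with h3 | h3
      · exact h3.1 c hcT
      · exact absurd h1 (s.asymm (h3.2 b hbT))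
    have htba : t.lt b a := by
      by_contra h3
      exact ht_no ⟨(t.not_lt (s.ne h1).symm).1 h3, htbc⟩
    have hGab : Dis s t a b := Or.inl ⟨h1, htba⟩
    have htac : t.lt a c := by
      by_contra h3
      have h4 : t.lt c a := (t.not_lt hac).1 h3
      have hGac : Dis s t a c := Or.inl ⟨hac', h4⟩
      rcases h.side hS hw₂ with h5 | h5
      · exact h5 a c hGac (Or.inl ⟨hac', hca2⟩)
      · rcases h5 a b hGab with h6 | h6
        · exact w₂.asymm hab2 h6.2
        · exact s.asymm h1 h6.1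
    refine ⟨a, ⟨b, hGab⟩, c, ⟨b, hadj c hcT b hbT⟩, ?_, ?_, ?_, ?_⟩
    · intro h3
      exact haTx fun z => (hcT z).trans (h3 z).symm
    · rintro (h3 | h3)
      · exact t.asymm htac h3.2
      · exact s.asymm hac' h3.1
    · refine ⟨w₂, hw₂, ?_, Or.inl ⟨hac', hca2⟩⟩
      refine (h.side hS hw₂).resolve_right fun h5 => ?_
      rcases h5 a b hGab with h6 | h6
      · exact w₂.asymm hab2 h6.2
      · exact s.asymm h1 h6.1
    · refine ⟨w₁, hw₁, ?_, Or.inl ⟨hac', hca1⟩⟩
      refine (h.side hS hw₁).resolve_left fun h5 => ?_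
      exact h5 a b hGab (Or.inl ⟨h1, w₁.tr hbc1 hca1⟩)
  · -- `a ∈ Ty`, `b ∈ Tx`
    obtain ⟨haT, hbT⟩ := h1
    have hba : s.lt b a := huv b hbT a haT
    have htab : t.lt a b := htvu b hbT a haT
    have hcTy : c ∉ Ty := fun h3 => s'.asymm hbc (hs'vu b hbT c h3)
    have hbc' : s.lt b c := by
      rcases hdis b c hbc with h3 | h3
      · exact h3
      · exact absurd h3.1 (hdisj b hbT)
    have hcTx : c ∉ Tx := by
      intro h3
      exact ht_no ⟨htab, htw (hTT hbT h3) hbc'⟩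
    have hac' : s.lt a c := by
      rcases hout c hcTx hcTy with h3 | h3
      · exact absurd hbc' (s.asymm (h3.1 b hbT))
      · exact h3.2 a haT
    have htcb : t.lt c b := by
      by_contra h3
      exact ht_no ⟨htab, (t.not_lt (s.ne hbc').symm).1 h3⟩
    have hGbc : Dis s t b c := Or.inl ⟨hbc', htcb⟩
    have htac : t.lt a c := by
      by_contra h3
      have h4 : t.lt c a := (t.not_lt hac).1 h3
      have hGac : Dis s t a c := Or.inl ⟨hac', h4⟩
      rcases h.side hS hw₁ with h5 | h5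
      · exact h5 a c hGac (Or.inl ⟨hac', hca1⟩)
      · rcases h5 b c hGbc with h6 | h6
        · exact w₁.asymm hbc1 h6.2
        · exact s.asymm hbc' h6.1
    refine ⟨a, ⟨b, (hadj b hbT a haT).symm⟩, c, ⟨b, hGbc.symm⟩, ?_, ?_, ?_, ?_⟩
    · intro h3
      exact hcTy fun z => (haT z).trans (h3 z)
    · rintro (h3 | h3)
      · exact t.asymm htac h3.2
      · exact s.asymm hac' h3.1
    · refine ⟨w₁, hw₁, ?_, Or.inl ⟨hac', hca1⟩⟩
      refine (h.side hS hw₁).resolve_right fun h5 => ?_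
      rcases h5 b c hGbc with h6 | h6
      · exact w₁.asymm hbc1 h6.2
      · exact s.asymm hbc' h6.1
    · refine ⟨w₂, hw₂, ?_, Or.inl ⟨hac', hca2⟩⟩
      refine (h.side hS hw₂).resolve_left fun h5 => ?_
      exact h5 b c hGbc (Or.inl ⟨hbc', w₂.tr hca2 hab2⟩)

end Pool.Agent.CDI
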