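import Pool.Agent.CDI.Mod

/-!
# Twin classes are convex (blueprint section 5)
-/

namespace Pool.Agent.CDI

open LOrd

variable {X : Type*}

/-- Between twins (in `s`) there are no neighbours of the twins. -/
theorem twin_not_dis {s t : LOrd X} {x y z : X} (hT : Twin s t x z)
    (hxy : s.lt x y) (hyz : s.lt y z) : ¬ Dis s t x y ∧ ¬ Dis s t z y ∧ t.lt x y ∧ t.lt y z := by
  have hxz : s.lt x z := s.tr hxy hyz
  have htxz : t.lt x z := (not_dis_iff.1 hT.not_dis).1 hxz
  have h1 : ¬ Dis s t x y := by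
    intro hd
    have hd2 : Dis s t z y := (hT y).1 hd
    have t1 : t.lt y x := by
      rcases hd with h | h
      · exact h.2
      · exact absurd h.1 (s.asymm hxy)
    have t2 : t.lt z y := by
      rcases hd2 with h | h
      · exact absurd h.1 (s.asymm hyz)
      · exact h.2
    exact t.asymm htxz (t.tr t2 t1)
  have h2 : ¬ Dis s t z y := fun h => h1 ((hT y).2 h)
  exact ⟨h1, h2, (not_dis_iff.1 h1).1 hxy, (not_dis_iff.1 (fun h => h2 h.symm)).1 hyz⟩

/-- Twin classes are convex in `s` (blueprint section 5, Twins). -/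
theorem twin_between {s t : LOrd X} (h : CP s t) {x y z : X} (hx : x ∈ Vs s t) (hT : Twin s t x z)
    (hxy : s.lt x y) (hyz : s.lt y z) : Twin s t x y := by
  obtain ⟨n1, n2, t1, t2⟩ := twin_not_dis hT hxy hyz
  -- the open interval between `x` and `z` is the same in `s` and in `t`
  have hR : ∀ u, (s.lt x u ∧ s.lt u z) ↔ (t.lt x u ∧ t.lt u z) := by
    intro u
    constructor
    · rintro ⟨h1, h2⟩
      exact ⟨(twin_not_dis hT h1 h2).2.2.1, (twin_not_dis hT h1 h2).2.2.2⟩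
    · rintro ⟨h1, h2⟩
      exact ⟨(twin_not_dis hT.swap h1 h2).2.2.1, (twin_not_dis hT.swap h1 h2).2.2.2⟩
  have hcs : s.Conv {u | s.lt x u ∧ s.lt u z} := by
    intro a ha b hb c h1 h2
    exact ⟨s.tr ha.1 h1, s.tr h2 hb.2⟩
  have hct : t.Conv {u | s.lt x u ∧ s.lt u z} := by
    intro a ha b hb c h1 h2
    rw [Set.mem_ofPred_eq, hR] at ha hb ⊢
    exact ⟨t.tr ha.1 h1, t.tr h2 hb.2⟩
  have hno : ∀ a b, s.lt x a → s.lt a z → s.lt x b → s.lt b z → ¬ Dis s t a b := by
    intro a b ha ha' hb hb' hd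
    obtain ⟨w, hw⟩ := hx
    have := (h _ hcs hct ⟨a, ⟨ha, ha'⟩, b, ⟨hb, hb'⟩, hd⟩ x w hw).1
    exact s.irrefl x this.1
  intro w
  constructor
  · intro hd
    have hd2 : Dis s t z w := (hT w).1 hd
    rcases hd with ⟨h1, h2⟩ | ⟨h1, h2⟩
    · -- s: x above w, t: w above x; w is below z in s
      rcases hd2 with ⟨h3, h4⟩ | ⟨h3, h4⟩
      · exact Or.inl ⟨s.tr hyz h3, t.tr h2 t1⟩
      · exact absurd (Or.inl ⟨h1, h2⟩) (twin_not_dis hT h1 h3).1
    · -- s: w above x, t: x above w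
      rcases hd2 with ⟨h3, h4⟩ | ⟨h3, h4⟩
      · exact absurd (s.tr (s.tr h3 h1) (s.tr hxy hyz)) (s.irrefl z)
      · exact Or.inr ⟨s.tr h1 hxy, t.tr t2 h4⟩
  · intro hd
    by_contra hn
    have hn2 : ¬ Dis s t z w := fun h' => hn ((hT w).2 h')
    have hwx : w ≠ x := by
      rintro rfl
      exact n1 hd.symm
    have hwz : w ≠ z := by
      rintro rfl
      exact n2 hd.symm
    rcases s.total w x hwx with h1 | h1
    · have h2 : t.lt w x := (not_dis_iff.1 (fun h' => hn h'.symm)).1 h1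
      exact not_dis_iff.2 (iff_of_true (s.tr h1 hxy) (t.tr h2 t1)) hd.symm
    · rcases s.total w z hwz with h3 | h3
      · exact hno y w hxy hyz h1 h3 hd
      · have h4 : t.lt z w := (not_dis_iff.1 hn2).1 h3
        exact not_dis_iff.2 (iff_of_true (s.tr hyz h3) (t.tr t2 h4)) hd

theorem Vs_comm {s t : LOrd X} : Vs s t = Vs t s := by
  ext x
  exact ⟨fun ⟨y, h⟩ => ⟨y, dis_comm.1 h⟩, fun ⟨y, h⟩ => ⟨y, dis_comm.1 h⟩⟩

theorem twin_between_right {s t : LOrd X} (h : CP s t) {x y z : X} (hx : x ∈ Vs s t)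
    (hT : Twin s t x z) (hxy : t.lt x y) (hyz : t.lt y z) : Twin s t x y :=
  (twin_between h.symm (Vs_comm ▸ hx) hT.swap hxy hyz).swap

end Pool.Agent.CDI
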